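import Mathlib

/-! Kovari, Sos and Turan for sumsets (helper880). -/

set_option autoImplicit false

namespace Pool.Agent.TH880.GP

open Finset Filter Topology

/-- if a set of integers contains no sum `X + Y` of two sets with `K` elements, then it has at most
`8 K L ^ (1 - 1 / K)` members in any window of length `L` -/
theorem kst (K : ℕ) (hK : 1 ≤ K) (B : Set ℤ)
    (hB : ∀ X Y : Finset ℤ, K ≤ X.card → K ≤ Y.card → ∃ x ∈ X, ∃ y ∈ Y, x + y ∉ B)
    (u : ℤ) (L : ℕ) (hL : 1 ≤ L) (S : Finset ℤ) (hS : ∀ z ∈ S, z ∈ B ∧ u < z ∧ z ≤ u + L) :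
    (S.card : ℝ) ≤ 8 * K * (L : ℝ) ^ (1 - 1 / (K : ℝ)) := by
  classical
  have hLr : (1 : ℝ) ≤ L := by exact_mod_cast hL
  have hKr : (1 : ℝ) ≤ K := by exact_mod_cast hK
  have hexp : 0 ≤ 1 - 1 / (K : ℝ) := by
    rw [sub_nonneg, div_le_one (by linarith)]
    exact hKr
  have hpow1 : (1 : ℝ) ≤ (L : ℝ) ^ (1 - 1 / (K : ℝ)) := Real.one_le_rpow hLr hexp
  by_cases hsmall : S.card ≤ 4 * K
  · have h1 : (S.card : ℝ) ≤ 4 * K := by exact_mod_cast hsmall
    nlinarith
  push Not at hsmall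
  set I := Finset.Icc (1 : ℤ) L with hI
  set J := Finset.Ioc (u - L) (u + L) with hJ
  set T : ℤ → Finset ℤ := fun y => I.filter (fun x => x + y ∈ S) with hT
  have hIc : I.card = L := by
    rw [hI, Int.card_Icc]; omega
  have hJc : J.card = 2 * L := by
    rw [hJ, Int.card_Ioc]; omega
  -- first count
  have hsum : ∑ y ∈ J, (T y).card = L * S.card := by
    have h1 : ∀ x ∈ I, (J.filter (fun y => x + y ∈ S)).card = S.card := by
      intro x hx
      rw [hI, Finset.mem_Icc] at hx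
      symm
      apply Finset.card_bij (fun z _ => z - x)
      · intro z hz
        have := hS z hz
        rw [Finset.mem_filter, hJ, Finset.mem_Ioc]
        refine ⟨⟨by omega, by omega⟩, ?_⟩
        have e : x + (z - x) = z := by ring
        rw [e]; exact hz
      · intro z _ z' _ h
        omega
      · intro y hy
        rw [Finset.mem_filter] at hy
        exact ⟨x + y, hy.2, by ring⟩
    have h2 : ∑ y ∈ J, (T y).card = ∑ x ∈ I, (J.filter (fun y => x + y ∈ S)).card := by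
      simp only [hT, Finset.card_filter]
      exact Finset.sum_comm
    rw [h2, Finset.sum_congr rfl h1, Finset.sum_const, hIc, smul_eq_mul]
  -- second count
  have hchoose : ∑ y ∈ J, (T y).card.choose K ≤ K * L.choose K := by
    have h1 : ∀ y ∈ J, (T y).card.choose K = ((powersetCard K I).filter (fun Z => Z ⊆ T y)).card := by
      intro y _
      rw [← Finset.card_powersetCard]
      congr 1
      ext Z
      rw [Finset.mem_powersetCard, Finset.mem_filter, Finset.mem_powersetCard]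
      constructor
      · rintro ⟨h1, h2⟩
        exact ⟨⟨h1.trans (Finset.filter_subset _ _), h2⟩, h1⟩
      · rintro ⟨⟨_, h2⟩, h1⟩
        exact ⟨h1, h2⟩
    rw [Finset.sum_congr rfl h1]
    have h2 : ∑ y ∈ J, ((powersetCard K I).filter (fun Z => Z ⊆ T y)).card =
        ∑ Z ∈ powersetCard K I, (J.filter (fun y => Z ⊆ T y)).card := by
      simp only [Finset.card_filter]
      exact Finset.sum_comm
    rw [h2]
    have h3 : ∀ Z ∈ powersetCard K I, (J.filter (fun y => Z ⊆ T y)).card ≤ K := by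
      intro Z hZ
      by_contra hcon
      push Not at hcon
      obtain ⟨x, hx, y, hy, hxy⟩ := hB Z (J.filter (fun y => Z ⊆ T y))
        (by rw [(Finset.mem_powersetCard.1 hZ).2]) hcon.le
      have hy' := (Finset.mem_filter.1 hy).2 hx
      rw [hT, Finset.mem_filter] at hy'
      exact hxy (hS _ hy'.2).1
    calc ∑ Z ∈ powersetCard K I, (J.filter (fun y => Z ⊆ T y)).card
        ≤ ∑ Z ∈ powersetCard K I, K := Finset.sum_le_sum h3
      _ = K * L.choose K := by
        rw [Finset.sum_const, Finset.card_powersetCard, hIc, smul_eq_mul, mul_comm]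
  have hpow : ∑ y ∈ J, ((T y).card + 1 - K) ^ K ≤ K * L ^ K := by
    calc ∑ y ∈ J, ((T y).card + 1 - K) ^ K ≤ ∑ y ∈ J, (T y).card.descFactorial K :=
          Finset.sum_le_sum (fun y _ => Nat.pow_sub_le_descFactorial _ _)
      _ = K.factorial * ∑ y ∈ J, (T y).card.choose K := by
          rw [Finset.mul_sum]
          exact Finset.sum_congr rfl (fun y _ => Nat.descFactorial_eq_factorial_mul_choose _ _)
      _ ≤ K.factorial * (K * L.choose K) := Nat.mul_le_mul_left _ hchoose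
      _ = K * L.descFactorial K := by
          rw [Nat.descFactorial_eq_factorial_mul_choose]; ring
      _ ≤ K * L ^ K := Nat.mul_le_mul_left _ (Nat.descFactorial_le_pow _ _)
  have hpow' : ∑ y ∈ J, (((T y).card + 1 - K : ℕ) : ℝ) ^ K ≤ K * (L : ℝ) ^ K := by
    exact_mod_cast hpow
  obtain ⟨m, rfl⟩ : ∃ m, K = m + 1 := ⟨K - 1, by omega⟩
  have hmean := pow_sum_div_card_le_sum_pow (s := J) (f := fun y => (((T y).card + 1 - (m + 1) : ℕ) : ℝ))
    (fun _ _ => Nat.cast_nonneg _) m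
  have hlow : (L : ℝ) * S.card / 2 ≤ ∑ y ∈ J, (((T y).card + 1 - (m + 1) : ℕ) : ℝ) := by
    have h1 : ∑ y ∈ J, ((T y).card : ℝ) ≤ ∑ y ∈ J, ((((T y).card + 1 - (m + 1) : ℕ) : ℝ) + (m + 1 : ℕ)) := by
      apply Finset.sum_le_sum
      intro y _
      have : (T y).card ≤ ((T y).card + 1 - (m + 1)) + (m + 1) := by omega
      exact_mod_cast this
    rw [Finset.sum_add_distrib, Finset.sum_const, hJc, nsmul_eq_mul] at h1
    have h2 : ∑ y ∈ J, ((T y).card : ℝ) = L * S.card := by exact_mod_cast hsum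
    rw [h2] at h1
    have h3 : (4 : ℝ) * ((m + 1 : ℕ) : ℝ) < S.card := by exact_mod_cast hsmall
    have h4 : ((2 * L : ℕ) : ℝ) = 2 * L := by push_cast; ring
    rw [h4] at h1
    nlinarith
  have hL0 : (0 : ℝ) < L := by linarith
  have hcard0 : (0 : ℝ) < (J.card : ℝ) ^ m := by
    rw [hJc]; push_cast; positivity
  rw [div_le_iff₀ hcard0] at hmean
  have h5 : ((L : ℝ) * S.card / 2) ^ (m + 1) ≤ ((m + 1 : ℕ) : ℝ) * (L : ℝ) ^ (m + 1) * (2 * L) ^ m := by
    calc ((L : ℝ) * S.card / 2) ^ (m + 1)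
        ≤ (∑ y ∈ J, (((T y).card + 1 - (m + 1) : ℕ) : ℝ)) ^ (m + 1) :=
          pow_le_pow_left₀ (by positivity) hlow _
      _ ≤ _ := hmean
      _ ≤ ((m + 1 : ℕ) : ℝ) * (L : ℝ) ^ (m + 1) * (2 * L) ^ m := by
          have h6 : (J.card : ℝ) = 2 * L := by rw [hJc]; push_cast; ring
          rw [h6]
          exact mul_le_mul_of_nonneg_right hpow' (by positivity)
  have h7 : (S.card : ℝ) ^ (m + 1) ≤ (4 * ((m + 1 : ℕ) : ℝ)) ^ (m + 1) * (L : ℝ) ^ m := by
    have e1 : ((L : ℝ) * S.card / 2) ^ (m + 1) = (L : ℝ) ^ (m + 1) * ((S.card : ℝ) ^ (m + 1) / 2 ^ (m + 1)) := by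
      rw [div_pow, mul_pow]; ring
    have e2 : ((m + 1 : ℕ) : ℝ) * (L : ℝ) ^ (m + 1) * (2 * L) ^ m =
      (L : ℝ) ^ (m + 1) * (((m + 1 : ℕ) : ℝ) * (2 * L) ^ m) := by ring
    rw [e1, e2] at h5
    have h8 := le_of_mul_le_mul_left h5 (by positivity)
    rw [div_le_iff₀ (by positivity)] at h8
    refine h8.trans ?_
    have e3 : ((m + 1 : ℕ) : ℝ) * (2 * L) ^ m * 2 ^ (m + 1) = ((m + 1 : ℕ) : ℝ) * (2 * 4 ^ m) * (L : ℝ) ^ m := by
      rw [mul_pow, pow_succ]
      have : (4 : ℝ) ^ m = 2 ^ m * 2 ^ m := by rw [← mul_pow]; norm_num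
      rw [this]; ring
    rw [e3]
    apply mul_le_mul_of_nonneg_right _ (by positivity)
    rw [mul_pow]
    have h9 : ((m + 1 : ℕ) : ℝ) ≤ ((m + 1 : ℕ) : ℝ) ^ (m + 1) := le_self_pow₀ hKr (by omega)
    have h10 : (2 : ℝ) * 4 ^ m ≤ 4 ^ (m + 1) := by
      rw [pow_succ]
      have : (0 : ℝ) < 4 ^ m := by positivity
      linarith
    calc ((m + 1 : ℕ) : ℝ) * (2 * 4 ^ m) ≤ ((m + 1 : ℕ) : ℝ) ^ (m + 1) * 4 ^ (m + 1) :=
          mul_le_mul h9 h10 (by positivity) (by positivity)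
      _ = _ := by ring
  have h11 : ((4 * ((m + 1 : ℕ) : ℝ)) * (L : ℝ) ^ (1 - 1 / ((m + 1 : ℕ) : ℝ))) ^ (m + 1) =
      (4 * ((m + 1 : ℕ) : ℝ)) ^ (m + 1) * (L : ℝ) ^ m := by
    rw [mul_pow]
    congr 1
    rw [← Real.rpow_natCast ((L : ℝ) ^ (1 - 1 / ((m + 1 : ℕ) : ℝ))), ← Real.rpow_mul hL0.le,
      ← Real.rpow_natCast (L : ℝ) m]
    congr 1
    push_cast
    field_simp
    ring
  have h12 : (S.card : ℝ) ≤ (4 * ((m + 1 : ℕ) : ℝ)) * (L : ℝ) ^ (1 - 1 / ((m + 1 : ℕ) : ℝ)) := by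
    apply le_of_pow_le_pow_left₀ (Nat.succ_ne_zero m) (by positivity)
    rw [h11]
    exact h7
  refine h12.trans ?_
  apply mul_le_mul_of_nonneg_right _ (by positivity)
  have : (0 : ℝ) ≤ ((m + 1 : ℕ) : ℝ) := Nat.cast_nonneg _
  linarith

end Pool.Agent.TH880.GP
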