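import Mathlib
import Pool.Agent.W25.UB.Stm4

/-! Goldbach or Polignac (helper880): local conditions for the coloured theorem with four classes. -/

set_option autoImplicit false

namespace Pool.Agent.TH880.GP

open Finset Filter Topology
open Pool.Agent.W25.UN (Fm uB wB)
open Pool.Agent.H410R2 (WW)
open Pool.Agent.W25.UB

/-- if all forms can be prime to every prime `p ≤ D` then there is a residue class `v` -/
theorem exists_cop {k : ℕ} (α h : Fin k → ℤ) (D N : ℕ)
    (H : ∀ p : ℕ, p.Prime → p ≤ D → ∃ r : ℕ, ∀ j, ¬ (p : ℤ) ∣ uB α j * r + wB h N j) :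
    ∃ v : ℕ, CopAt α h D N v := by
  classical
  have H' : ∀ p : ℕ, ∃ r : ℕ, p.Prime → p ≤ D → ∀ j, ¬ (p : ℤ) ∣ uB α j * r + wB h N j := by
    intro p
    by_cases hp : p.Prime ∧ p ≤ D
    · obtain ⟨r, hr⟩ := H p hp.1 hp.2
      exact ⟨r, fun _ _ => hr⟩
    · exact ⟨0, fun h1 h2 => absurd ⟨h1, h2⟩ hp⟩
  choose r hr using H'
  obtain ⟨v, hv⟩ := Nat.chineseRemainderOfFinset r id ((Icc 1 D).filter Nat.Prime)
    (by
      intro p hp
      exact (mem_filter.1 hp).2.ne_zero)
    (by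
      intro p hp q hq hpq
      have h1 := (mem_filter.1 (mem_coe.1 hp)).2
      have h2 := (mem_filter.1 (mem_coe.1 hq)).2
      exact (Nat.coprime_primes h1 h2).2 hpq)
  refine ⟨v, fun j n hn => ?_⟩
  have hW : ((WW D : ℕ) : ℤ) = ∏ p ∈ (Icc 1 D).filter Nat.Prime, (p : ℤ) := by
    unfold WW
    push_cast
    rfl
  rw [hW]
  apply IsCoprime.prod_right
  intro p hp
  have hpp := (mem_filter.1 hp).2
  have hpD := (mem_Icc.1 (mem_filter.1 hp).1).2
  have hpZ : Prime (p : ℤ) := Nat.prime_iff_prime_int.1 hpp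
  apply IsCoprime.symm
  rw [Prime.coprime_iff_not_dvd hpZ]
  intro hd
  apply hr p hpp hpD j
  -- n ≡ v ≡ r p mod p
  have hpW : (p : ℤ) ∣ ((WW D : ℕ) : ℤ) := by
    rw [hW]
    exact Finset.dvd_prod_of_mem (fun p : ℕ => (p : ℤ)) hp
  have h1 : n ≡ v [ZMOD p] := hn.of_dvd hpW
  have h2 : (v : ℤ) ≡ (r p : ℕ) [ZMOD p] := by
    have := hv p hp
    exact (Int.natCast_modEq_iff).2 this
  have h3 : n ≡ (r p : ℤ) [ZMOD p] := h1.trans h2
  have h4 : uB α j * n + wB h N j ≡ uB α j * (r p : ℤ) + wB h N j [ZMOD p] :=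
    (h3.mul_left _).add_right _
  exact (Int.ModEq.dvd_iff h4).1 hd

/-- large primes: counting -/
theorem large_prime {k : ℕ} (α h : Fin k → ℤ) (hα : ∀ i, α i = 1 ∨ α i = -1) (N p : ℕ) (hp : p.Prime)
    (hk : k + 1 < p) : ∃ r : ℕ, ∀ j, ¬ (p : ℤ) ∣ uB α j * r + wB h N j := by
  classical
  have hpZ : Prime (p : ℤ) := Nat.prime_iff_prime_int.1 hp
  have hu : ∀ j, uB α j = 1 ∨ uB α j = -1 := by
    intro j
    cases j with
    | none => left; rfl
    | some i => exact hα i
  by_contra hcon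
  push Not at hcon
  have hcon' : ∀ r ∈ range p, ∃ j ∈ (univ : Finset (Option (Fin k))), (p : ℤ) ∣ uB α j * (r : ℕ) + wB h N j := by
    intro r _
    obtain ⟨j, hj⟩ := hcon r
    exact ⟨j, mem_univ _, hj⟩
  choose! f hf using hcon'
  have hcard : (univ : Finset (Option (Fin k))).card < (range p).card := by
    rw [card_univ, Fintype.card_option, Fintype.card_fin, card_range]
    exact hk
  obtain ⟨a, ha, b, hb, hab, hfab⟩ := Finset.exists_ne_map_eq_of_card_lt_of_maps_to hcard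
    (f := f) (fun r hr => (hf r hr).1)
  have h1 := (hf a ha).2
  have h2 := (hf b hb).2
  rw [hfab] at h1
  have h3 : (p : ℤ) ∣ uB α (f b) * ((a : ℤ) - b) := by
    have := dvd_sub h1 h2
    have e : uB α (f b) * (a : ℤ) + wB h N (f b) - (uB α (f b) * (b : ℤ) + wB h N (f b)) =
      uB α (f b) * ((a : ℤ) - b) := by ring
    rwa [e] at this
  have h4 : (p : ℤ) ∣ (a : ℤ) - b := by
    rcases hu (f b) with h | h
    · rw [h, one_mul] at h3; exact h3
    · rw [h] at h3
      have : (p : ℤ) ∣ -((-1) * ((a : ℤ) - b)) := (dvd_neg).2 h3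
      simpa using this
  rw [mem_range] at ha hb
  have h5 : (a : ℤ) - b = 0 := by
    apply Int.eq_zero_of_abs_lt_dvd h4
    rw [abs_lt]
    constructor <;> omega
  apply hab
  omega

/-- a residue that is neither `0` nor `m` modulo all small primes, for even `m` -/
theorem exists_u (B : ℕ) (m : ℤ) (hm : 2 ∣ m) :
    ∃ u : ℤ, ∀ p : ℕ, p.Prime → p ≤ B → ¬ (p : ℤ) ∣ u ∧ ¬ (p : ℤ) ∣ u - m := by
  classical
  have H' : ∀ p : ℕ, ∃ r : ℕ, p.Prime → ¬ (p : ℤ) ∣ (r : ℤ) ∧ ¬ (p : ℤ) ∣ (r : ℤ) - m := by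
    intro p
    by_cases hp : p.Prime
    · by_cases h1 : (p : ℤ) ∣ 1 - m
      · refine ⟨2, fun _ => ⟨?_, ?_⟩⟩
        · intro h2
          have h3 : p ∣ 2 := by exact_mod_cast h2
          have h4 : p = 2 := (Nat.prime_dvd_prime_iff_eq hp Nat.prime_two).1 h3
          subst h4
          have : (2 : ℤ) ∣ 1 := by
            have := dvd_add h1 hm
            push_cast at this
            simpa using this
          norm_num at this
        · intro h2
          have h3 : (p : ℤ) ∣ 1 := by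
            have := dvd_sub h2 h1
            push_cast at this
            have e : (2 : ℤ) - m - (1 - m) = 1 := by ring
            rwa [e] at this
          have h4 : p ∣ 1 := by exact_mod_cast h3
          exact hp.one_lt.ne' (Nat.dvd_one.1 h4)
      · refine ⟨1, fun _ => ⟨?_, ?_⟩⟩
        · intro h2
          have h4 : p ∣ 1 := by exact_mod_cast h2
          exact hp.one_lt.ne' (Nat.dvd_one.1 h4)
        · push_cast
          exact h1
    · exact ⟨0, fun h => absurd h hp⟩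
  choose r hr using H'
  obtain ⟨v, hv⟩ := Nat.chineseRemainderOfFinset r id ((Icc 1 B).filter Nat.Prime)
    (by
      intro p hp
      exact (mem_filter.1 hp).2.ne_zero)
    (by
      intro p hp q hq hpq
      have h1 := (mem_filter.1 (mem_coe.1 hp)).2
      have h2 := (mem_filter.1 (mem_coe.1 hq)).2
      exact (Nat.coprime_primes h1 h2).2 hpq)
  refine ⟨v, fun p hp hpB => ?_⟩
  have hmem : p ∈ (Icc 1 B).filter Nat.Prime := by
    rw [mem_filter, mem_Icc]
    exact ⟨⟨hp.one_lt.le, hpB⟩, hp⟩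
  have h2 : (v : ℤ) ≡ (r p : ℕ) [ZMOD p] := (Int.natCast_modEq_iff).2 (hv p hmem)
  obtain ⟨h3, h4⟩ := hr p hp
  constructor
  · intro h5
    exact h3 ((Int.ModEq.dvd_iff h2).1 h5)
  · intro h5
    exact h4 ((Int.ModEq.dvd_iff (h2.sub_right m)).1 h5)

end Pool.Agent.TH880.GP
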