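import Mathlib
import Pool.Agent.TH880.GPa

/-! Goldbach or Polignac (helper880): the uniform dichotomy from the coloured theorem with four classes. -/

set_option autoImplicit false

namespace Pool.Agent.TH880.GP

open Finset Filter Topology
open Pool.Agent.W25.UN (Fm uB wB)
open Pool.Agent.H410R2 (WW)
open Pool.Agent.W25.UB

/-- the number of primes `p ≤ 3 N` such that `2 N + c - p` is a prime -/
noncomputable def sumReps (N : ℕ) (c : ℤ) : ℕ :=
  {p : ℕ | p ≤ 3 * N ∧ p.Prime ∧ ∃ q : ℕ, q.Prime ∧ (p : ℤ) + q = 2 * N + c}.ncard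

/-- the number of primes `p ≤ 3 N` such that `p + 2 k` is a prime -/
noncomputable def difReps (N : ℕ) (k : ℤ) : ℕ :=
  {p : ℕ | p ≤ 3 * N ∧ p.Prime ∧ ∃ q : ℕ, q.Prime ∧ (q : ℤ) = p + 2 * k}.ncard

/-- the slopes: two classes `1`, two classes `-1` -/
def slope {K : ℕ} (i : Fin (4 * K)) : ℤ := if ((finProdFinEquiv.symm i).1 : ℕ) < 2 then 1 else -1

/-- the classes -/
def clas {K : ℕ} (i : Fin (4 * K)) : Fin 4 := (finProdFinEquiv.symm i).1

/-- the shifts -/
def shf {K : ℕ} (x y : Fin K → ℤ) (s t : ℤ) (i : Fin (4 * K)) : ℤ :=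
  ![2 * x (finProdFinEquiv.symm i).2 + s, -2 * y (finProdFinEquiv.symm i).2 + s,
    2 * x (finProdFinEquiv.symm i).2 + t, -2 * y (finProdFinEquiv.symm i).2 + t] (clas i)

theorem clas_fib (K : ℕ) (g : Fin 4) : (univ.filter (fun i : Fin (4 * K) => clas i = g)).card = K := by
  classical
  have h : (univ.filter (fun i : Fin (4 * K) => clas i = g)) =
      (univ : Finset (Fin K)).map ⟨fun k => finProdFinEquiv (g, k), fun a b hab => by
        have := finProdFinEquiv.injective hab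
        exact (Prod.mk.inj this).2⟩ := by
    ext i
    simp only [mem_filter, mem_univ, true_and, Finset.mem_map]
    constructor
    · intro hi
      refine ⟨(finProdFinEquiv.symm i).2, ?_⟩
      rw [← hi]
      unfold clas
      exact finProdFinEquiv.apply_symm_apply i
    · rintro ⟨k, rfl⟩
      show (finProdFinEquiv.symm (finProdFinEquiv (g, k))).1 = g
      rw [Equiv.symm_apply_apply]
  rw [h, card_map, card_univ, Fintype.card_fin]

theorem slope_pm {K : ℕ} (i : Fin (4 * K)) : slope i = 1 ∨ slope i = -1 := by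
  unfold slope
  split_ifs
  · left; rfl
  · right; rfl

/-- the local conditions at the small primes: the shifts `s, t` -/
theorem small_prime {K : ℕ} (x y : Fin K → ℤ) (a b u : ℤ) (B N p : ℕ) (P ρ : ℤ) (hp : p.Prime)
    (hpP : (p : ℤ) ∣ P) (hpB : p ≤ B) (hx : ∀ i, P ∣ x i - a) (hy : ∀ i, P ∣ y i - b) (hN : P ∣ (N : ℤ) - ρ)
    (hu : ∀ p : ℕ, p.Prime → p ≤ B → ¬ (p : ℤ) ∣ u ∧ ¬ (p : ℤ) ∣ u - 2 * (a + b)) :
    ∃ r : ℕ, ∀ j, ¬ (p : ℤ) ∣ uB (slope (K := K)) j * r +
      wB (shf x y (u - 1 - ρ - 2 * a) (u + 1 - ρ - 2 * a)) N j := by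
  obtain ⟨hu1, hu2⟩ := hu p hp hpB
  refine ⟨1, fun j hj => ?_⟩
  cases j with
  | none =>
    have h1 : (p : ℤ) ∣ 1 := by
      simpa [uB, wB] using hj
    have h2 : p ∣ 1 := by exact_mod_cast h1
    exact hp.one_lt.ne' (Nat.dvd_one.1 h2)
  | some i =>
    have hxi := hpP.trans (hx (finProdFinEquiv.symm i).2)
    have hyi := hpP.trans (hy (finProdFinEquiv.symm i).2)
    have hNp := hpP.trans hN
    have hj' : (p : ℤ) ∣ slope i * 1 + (N + shf x y (u - 1 - ρ - 2 * a) (u + 1 - ρ - 2 * a) i) := by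
      simpa [uB, wB] using hj
    unfold slope shf clas at hj'
    generalize (finProdFinEquiv.symm i).2 = k at *
    generalize (finProdFinEquiv.symm i).1 = g at *
    fin_cases g
    · apply hu1
      have e : (if ((0 : Fin 4) : ℕ) < 2 then (1 : ℤ) else -1) * 1 + ((N : ℤ) +
        ![2 * x k + (u - 1 - ρ - 2 * a), -2 * y k + (u - 1 - ρ - 2 * a),
          2 * x k + (u + 1 - ρ - 2 * a), -2 * y k + (u + 1 - ρ - 2 * a)] 0) =
        u + (N - ρ) + 2 * (x k - a) := by
        simp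
        ring
      have h2 : (p : ℤ) ∣ u + (N - ρ) + 2 * (x k - a) := by
        rw [← e]
        exact hj'
      have h3 := dvd_sub (dvd_sub h2 hNp) (hxi.mul_left 2)
      have e2 : u + ((N : ℤ) - ρ) + 2 * (x k - a) - (N - ρ) - 2 * (x k - a) = u := by ring
      rwa [e2] at h3
    · apply hu2
      have e : (if ((1 : Fin 4) : ℕ) < 2 then (1 : ℤ) else -1) * 1 + ((N : ℤ) +
        ![2 * x k + (u - 1 - ρ - 2 * a), -2 * y k + (u - 1 - ρ - 2 * a),
          2 * x k + (u + 1 - ρ - 2 * a), -2 * y k + (u + 1 - ρ - 2 * a)] 1) =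
        (u - 2 * (a + b)) + (N - ρ) - 2 * (y k - b) := by
        simp
        ring
      have h2 : (p : ℤ) ∣ (u - 2 * (a + b)) + (N - ρ) - 2 * (y k - b) := by
        rw [← e]
        exact hj'
      have h3 := dvd_add (dvd_sub h2 hNp) (hyi.mul_left 2)
      have e2 : (u - 2 * (a + b)) + ((N : ℤ) - ρ) - 2 * (y k - b) - (N - ρ) + 2 * (y k - b) =
        u - 2 * (a + b) := by ring
      rwa [e2] at h3
    · apply hu1
      have e : (if ((2 : Fin 4) : ℕ) < 2 then (1 : ℤ) else -1) * 1 + ((N : ℤ) +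
        ![2 * x k + (u - 1 - ρ - 2 * a), -2 * y k + (u - 1 - ρ - 2 * a),
          2 * x k + (u + 1 - ρ - 2 * a), -2 * y k + (u + 1 - ρ - 2 * a)] 2) =
        u + (N - ρ) + 2 * (x k - a) := by
        simp
        ring
      have h2 : (p : ℤ) ∣ u + (N - ρ) + 2 * (x k - a) := by
        rw [← e]
        exact hj'
      have h3 := dvd_sub (dvd_sub h2 hNp) (hxi.mul_left 2)
      have e2 : u + ((N : ℤ) - ρ) + 2 * (x k - a) - (N - ρ) - 2 * (x k - a) = u := by ring
      rwa [e2] at h3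
    · apply hu2
      have e : (if ((3 : Fin 4) : ℕ) < 2 then (1 : ℤ) else -1) * 1 + ((N : ℤ) +
        ![2 * x k + (u - 1 - ρ - 2 * a), -2 * y k + (u - 1 - ρ - 2 * a),
          2 * x k + (u + 1 - ρ - 2 * a), -2 * y k + (u + 1 - ρ - 2 * a)] 3) =
        (u - 2 * (a + b)) + (N - ρ) - 2 * (y k - b) := by
        simp
        ring
      have h2 : (p : ℤ) ∣ (u - 2 * (a + b)) + (N - ρ) - 2 * (y k - b) := by
        rw [← e]
        exact hj'
      have h3 := dvd_add (dvd_sub h2 hNp) (hyi.mul_left 2)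
      have e2 : (u - 2 * (a + b)) + ((N : ℤ) - ρ) - 2 * (y k - b) - (N - ρ) + 2 * (y k - b) =
        u - 2 * (a + b) := by ring
      rwa [e2] at h3

end Pool.Agent.TH880.GP
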