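import Mathlib
import Pool.Agent.TH880.GPb

/-! Goldbach or Polignac (helper880): the uniform dichotomy from the coloured theorem with four classes. -/

set_option autoImplicit false

namespace Pool.Agent.TH880.GP

open Finset Filter Topology
open Pool.Agent.W25.UN (Fm uB wB)
open Pool.Agent.H410R2 (WW)
open Pool.Agent.W25.UB

/-- `K` members of a large set in one residue class -/
theorem one_class (P K : ℕ) (hP : 0 < P) (X : Finset ℤ) (hX : P * K ≤ X.card) :
    ∃ (a : ℤ) (x : Fin K → ℤ), Function.Injective x ∧ (∀ i, x i ∈ X) ∧ ∀ i, (P : ℤ) ∣ x i - a := by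
  classical
  have hPZ : (0 : ℤ) < P := by exact_mod_cast hP
  obtain ⟨a, -, ha⟩ := Finset.exists_le_card_fiber_of_mul_le_card_of_maps_to
    (s := X) (t := Finset.Ico (0 : ℤ) P) (f := fun x => x % P) (n := K)
    (fun x _ => by
      rw [Finset.mem_Ico]
      exact ⟨Int.emod_nonneg _ hPZ.ne', Int.emod_lt_of_pos _ hPZ⟩)
    ⟨0, by rw [Finset.mem_Ico]; exact ⟨le_rfl, hPZ⟩⟩ (by simpa using hX)
  obtain ⟨S, hS, hSc⟩ := Finset.exists_subset_card_eq ha
  refine ⟨a, fun i => ((S.equivFinOfCardEq hSc).symm i : ℤ), ?_, ?_, ?_⟩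
  · intro i j hij
    exact (S.equivFinOfCardEq hSc).symm.injective (Subtype.ext hij)
  · intro i
    exact (Finset.mem_filter.1 (hS ((S.equivFinOfCardEq hSc).symm i).2)).1
  · intro i
    have h1 := (Finset.mem_filter.1 (hS ((S.equivFinOfCardEq hSc).symm i).2)).2
    have h2 : ((S.equivFinOfCardEq hSc).symm i : ℤ) % P = a := h1
    rw [← h2]
    exact Int.dvd_self_sub_emod

/-- the shifts are distinct -/
theorem shf_ne {K : ℕ} (x y : Fin K → ℤ) (hx : Function.Injective x) (hy : Function.Injective y)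
    (hxy : ∀ i j, 0 < x i + y j) (s t : ℤ) (i j : Fin (4 * K)) (hij : i ≠ j) :
    ¬ (slope i = slope j ∧ shf x y s t i = shf x y s t j) := by
  rintro ⟨h1, h2⟩
  have hne : (finProdFinEquiv.symm i) ≠ (finProdFinEquiv.symm j) := fun h =>
    hij (finProdFinEquiv.symm.injective h)
  unfold slope at h1
  unfold shf clas at h2
  obtain ⟨g, k, hgk⟩ : ∃ g k, finProdFinEquiv.symm i = (g, k) := ⟨_, _, rfl⟩
  obtain ⟨g', k', hgk'⟩ : ∃ g k, finProdFinEquiv.symm j = (g, k) := ⟨_, _, rfl⟩
  rw [hgk, hgk'] at h1 h2 hne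
  simp only at h1 h2
  have e1 := hxy k k'
  have e2 := hxy k' k
  fin_cases g <;> fin_cases g' <;> simp at h1 h2 <;>
    first
    | (exfalso; apply hne; have := hx h2; rw [this]; done)
    | (exfalso; apply hne; have := hy h2; rw [this]; done)
    | omega

/-- from one pair of forms -/
theorem of_pair {K : ℕ} (x y : Fin K → ℤ) (s t : ℤ) (N C : ℕ) (R : ℝ) (i j : Fin (4 * K))
    (hlt : clas i < clas j) (hN : ∀ i, |shf x y s t i| ≤ N)
    (hC : |shf x y s t i + shf x y s t j| ≤ C)
    (hR : R ≤ (((Icc 1 N).filter (fun n : ℕ => (Fm slope (shf x y s t) N i n).toNat.Prime ∧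
      (Fm slope (shf x y s t) N j n).toNat.Prime)).card : ℝ)) :
    (∃ c : ℤ, |c| ≤ C ∧ R ≤ sumReps N c) ∨ (∃ k l, R ≤ difReps N (x k + y l)) := by
  classical
  set S := (Icc 1 N).filter (fun n : ℕ => (Fm slope (shf x y s t) N i n).toNat.Prime ∧
      (Fm slope (shf x y s t) N j n).toNat.Prime) with hS
  have hpos : ∀ z : ℤ, z.toNat.Prime → 0 < z := by
    intro z hz
    have := hz.pos
    omega
  have hsl : ∀ i : Fin (4 * K), |slope i| ≤ 1 := by
    intro i
    rcases slope_pm i with h | h <;> rw [h] <;> norm_num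
  have hbd : ∀ (i : Fin (4 * K)) (n : ℕ), n ≤ N → (Fm slope (shf x y s t) N i n).toNat ≤ 3 * N := by
    intro i n hn
    have h1 := hN i
    have h2 := slope_pm i
    unfold Fm
    rw [abs_le] at h1
    rcases h2 with h2 | h2 <;> rw [h2] <;> omega
  have hinj : ∀ i : Fin (4 * K), ∀ n ∈ S, ∀ m ∈ S, 0 < Fm slope (shf x y s t) N i n →
      0 < Fm slope (shf x y s t) N i m →
      (Fm slope (shf x y s t) N i n).toNat = (Fm slope (shf x y s t) N i m).toNat → n = m := by
    intro i n _ m _ h1 h2 h3
    have h4 : Fm slope (shf x y s t) N i n = Fm slope (shf x y s t) N i m := by omega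
    unfold Fm at h4
    rcases slope_pm i with h5 | h5 <;> rw [h5] at h4 <;> omega
  by_cases hcase : slope i = slope j
  · -- a difference
    right
    have hd : ∃ k l, ∀ n : ℕ, Fm slope (shf x y s t) N i n = Fm slope (shf x y s t) N j n + 2 * (x k + y l) := by
      refine ⟨(finProdFinEquiv.symm i).2, (finProdFinEquiv.symm j).2, fun n => ?_⟩
      unfold Fm
      rw [hcase]
      unfold slope at hcase
      unfold clas at hlt
      unfold shf clas
      generalize (finProdFinEquiv.symm i).2 = k at *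
      generalize (finProdFinEquiv.symm j).2 = l at *
      generalize (finProdFinEquiv.symm i).1 = g at *
      generalize (finProdFinEquiv.symm j).1 = g' at *
      fin_cases g <;> fin_cases g' <;> simp at hcase hlt ⊢ <;> ring
    obtain ⟨k, l, hd⟩ := hd
    refine ⟨k, l, hR.trans ?_⟩
    unfold difReps
    rw [Nat.cast_le, ← Set.ncard_coe_finset]
    refine Set.ncard_le_ncard_of_injOn (fun n : ℕ => (Fm slope (shf x y s t) N j n).toNat) ?_ ?_
      ((Set.finite_Iic (3 * N)).subset fun p hp => hp.1)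
    · intro n hn
      rw [mem_coe, hS, mem_filter, mem_Icc] at hn
      obtain ⟨⟨hn1, hn2⟩, hp1, hp2⟩ := hn
      refine ⟨hbd j n hn2, hp2, _, hp1, ?_⟩
      have h1 := hpos _ hp1
      have h2 := hpos _ hp2
      have h3 := hd n
      omega
    · intro n hn m hm h
      rw [mem_coe] at hn hm
      have hn' := hn
      have hm' := hm
      rw [hS, mem_filter] at hn' hm'
      exact hinj j n hn m hm (hpos _ hn'.2.2) (hpos _ hm'.2.2) h
  · left
    refine ⟨_, hC, hR.trans ?_⟩
    unfold sumReps
    rw [Nat.cast_le, ← Set.ncard_coe_finset]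
    refine Set.ncard_le_ncard_of_injOn (fun n : ℕ => (Fm slope (shf x y s t) N i n).toNat) ?_ ?_
      ((Set.finite_Iic (3 * N)).subset fun p hp => hp.1)
    · intro n hn
      rw [mem_coe, hS, mem_filter, mem_Icc] at hn
      obtain ⟨⟨hn1, hn2⟩, hp1, hp2⟩ := hn
      refine ⟨hbd i n hn2, hp1, _, hp2, ?_⟩
      have h1 := hpos _ hp1
      have h2 := hpos _ hp2
      have h3 : Fm slope (shf x y s t) N i n + Fm slope (shf x y s t) N j n =
          2 * N + (shf x y s t i + shf x y s t j) := by
        unfold Fm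
        rcases slope_pm i with h4 | h4 <;> rcases slope_pm j with h5 | h5
        · exact absurd (h4.trans h5.symm) hcase
        · rw [h4, h5]; ring
        · rw [h4, h5]; ring
        · exact absurd (h4.trans h5.symm) hcase
      omega
    · intro n hn m hm h
      rw [mem_coe] at hn hm
      have hn' := hn
      have hm' := hm
      rw [hS, mem_filter] at hn' hm'
      exact hinj i n hn m hm (hpos _ hn'.2.1) (hpos _ hm'.2.1) h

end Pool.Agent.TH880.GP
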