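import Mathlib
import Pool.Agent.TH880.GPc

/-! Goldbach or Polignac (helper880): the uniform dichotomy from the coloured theorem with four classes. -/

set_option autoImplicit false

namespace Pool.Agent.TH880.GP

open Finset Filter Topology
open Pool.Agent.W25.UN (Fm uB wB)
open Pool.Agent.H410R2 (WW)
open Pool.Agent.W25.UB

/-- a real power inequality -/
theorem ev_pow (A η : ℝ) (hη : 0 < η) : ∀ᶠ N : ℕ in atTop, A * (N : ℝ) ^ (1 - η) ≤ (N : ℝ) ^ (1 - η / 2) := by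
  have h1 : Tendsto (fun N : ℕ => (N : ℝ) ^ (η / 2)) atTop atTop :=
    (tendsto_rpow_atTop (by linarith)).comp tendsto_natCast_atTop_atTop
  filter_upwards [h1.eventually_ge_atTop A, eventually_ge_atTop 1] with N h2 h3
  have h4 : (0 : ℝ) < N := by exact_mod_cast h3
  have e : (N : ℝ) ^ (1 - η / 2) = (N : ℝ) ^ (η / 2) * (N : ℝ) ^ (1 - η) := by
    rw [← Real.rpow_add h4]
    congr 1
    ring
  rw [e]
  exact mul_le_mul_of_nonneg_right h2 (Real.rpow_nonneg h4.le _)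

/-- **the uniform dichotomy** -/
theorem dich (hV : ThmV) : ∃ K : ℕ, 1 ≤ K ∧ ∀ X Y : Finset ℤ, K ≤ X.card → K ≤ Y.card →
    (∀ x ∈ X, ∀ y ∈ Y, 0 < x + y) → ∃ C : ℕ, ∀ η : ℝ, 0 < η → ∀ᶠ N : ℕ in atTop,
      (∃ c : ℤ, |c| ≤ C ∧ (N : ℝ) ^ (1 - η) ≤ sumReps N c) ∨
      (∃ x ∈ X, ∃ y ∈ Y, (N : ℝ) ^ (1 - η) ≤ difReps N (x + y)) := by
  classical
  obtain ⟨K, hK2, hV⟩ := hV
  set B : ℕ := 4 * K + 1 with hB
  set P : ℕ := B.factorial with hP
  have hP0 : 0 < P := Nat.factorial_pos _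
  refine ⟨P * K, Nat.mul_pos hP0 (by omega), ?_⟩
  intro X Y hX hY hpos
  obtain ⟨a, x, hxi, hxX, hxa⟩ := one_class P K hP0 X hX
  obtain ⟨b, y, hyi, hyY, hyb⟩ := one_class P K hP0 Y hY
  have hxy : ∀ i j, 0 < x i + y j := fun i j => hpos _ (hxX i) _ (hyY j)
  obtain ⟨u, hu⟩ := exists_u B (2 * (a + b)) (dvd_mul_right _ _)
  set sh : ℕ → Fin (4 * K) → ℤ := fun ρ => shf x y (u - 1 - ρ - 2 * a) (u + 1 - ρ - 2 * a) with hsh
  refine ⟨∑ ρ ∈ range P, ∑ i, ∑ j, (sh ρ i + sh ρ j).natAbs, ?_⟩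
  intro η hη
  have hV' : ∀ ρ ∈ range P, ∃ D₀ : ℕ, ∀ D : ℕ, D₀ ≤ D → ∀ η : ℝ, 0 < η →
      ∀ᶠ N : ℕ in atTop, ∀ v : ℕ, CopAt slope (sh ρ) D N v →
      (N : ℝ) ^ (1 - η) ≤ (((Icc 1 N).filter (fun n : ℕ => n ≡ v [MOD (WW D)] ∧
        (N : ℝ) / 16 ≤ n ∧ (n : ℝ) ≤ N / 2 ∧
        2 ≤ (univ.filter (fun g : Fin 4 => ∃ i, clas i = g ∧
          (Fm slope (sh ρ) N i n).toNat.Prime)).card)).card : ℝ) := by
    intro ρ _
    exact hV slope (sh ρ) clas (clas_fib K) slope_pm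
      (fun i j hij => shf_ne x y hxi hyi hxy _ _ i j hij)
  choose! D₀ hD₀ using hV'
  have hev : ∀ᶠ N : ℕ in atTop, ∀ ρ ∈ range P, ∀ v : ℕ, CopAt slope (sh ρ) (max (D₀ ρ) B) N v →
      (N : ℝ) ^ (1 - η / 2) ≤ (((Icc 1 N).filter (fun n : ℕ => n ≡ v [MOD (WW (max (D₀ ρ) B))] ∧
        (N : ℝ) / 16 ≤ n ∧ (n : ℝ) ≤ N / 2 ∧
        2 ≤ (univ.filter (fun g : Fin 4 => ∃ i, clas i = g ∧
          (Fm slope (sh ρ) N i n).toNat.Prime)).card)).card : ℝ) := by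
    rw [Filter.eventually_all_finset]
    intro ρ hρ
    exact hD₀ ρ hρ _ (le_max_left _ _) (η / 2) (by linarith)
  filter_upwards [hev, ev_pow ((4 * K : ℝ) * (4 * K)) η hη,
    eventually_ge_atTop (∑ ρ ∈ range P, ∑ i, (sh ρ i).natAbs)] with N hN hNp hNM
  set ρ : ℕ := N % P with hρ
  have hρm : ρ ∈ range P := mem_range.2 (Nat.mod_lt _ hP0)
  have hNρ : (P : ℤ) ∣ (N : ℤ) - ρ := by
    have : (ρ : ℤ) = (N : ℤ) % P := by rw [hρ]; push_cast; rfl
    rw [this]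
    exact Int.dvd_self_sub_emod
  obtain ⟨v, hv⟩ : ∃ v : ℕ, CopAt slope (sh ρ) (max (D₀ ρ) B) N v := by
    apply exists_cop
    intro p hp hpD
    by_cases hpB : p ≤ B
    · refine small_prime x y a b u B N p P ρ hp ?_ hpB hxa hyb hNρ hu
      have : p ∣ P := (Nat.Prime.dvd_factorial hp).2 hpB
      exact_mod_cast this
    · exact large_prime slope (sh ρ) slope_pm N p hp (by omega)
  have hmain := hN ρ hρm v hv
  set S := (Icc 1 N).filter (fun n : ℕ => n ≡ v [MOD (WW (max (D₀ ρ) B))] ∧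
        (N : ℝ) / 16 ≤ n ∧ (n : ℝ) ≤ N / 2 ∧
        2 ≤ (univ.filter (fun g : Fin 4 => ∃ i, clas i = g ∧
          (Fm slope (sh ρ) N i n).toNat.Prime)).card) with hS
  set T : Fin (4 * K) × Fin (4 * K) → Finset ℕ := fun ij =>
    (Icc 1 N).filter (fun n : ℕ => (Fm slope (sh ρ) N ij.1 n).toNat.Prime ∧
      (Fm slope (sh ρ) N ij.2 n).toNat.Prime) with hT
  set PP : Finset (Fin (4 * K) × Fin (4 * K)) := univ.filter (fun ij => clas ij.1 < clas ij.2) with hPP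
  have hcov : S ⊆ PP.biUnion T := by
    intro n hn
    rw [hS, mem_filter] at hn
    obtain ⟨hn1, -, -, -, hn2⟩ := hn
    obtain ⟨g, hg, g', hg', hgg⟩ := Finset.one_lt_card.1 (lt_of_lt_of_le one_lt_two hn2)
    rw [mem_filter] at hg hg'
    obtain ⟨-, i, hi, hip⟩ := hg
    obtain ⟨-, j, hj, hjp⟩ := hg'
    rw [mem_biUnion]
    rcases lt_or_gt_of_ne hgg with hlt | hlt
    · refine ⟨(i, j), ?_, ?_⟩
      · rw [hPP, mem_filter]
        refine ⟨mem_univ _, ?_⟩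
        show clas i < clas j
        rw [hi, hj]; exact hlt
      · rw [hT, mem_filter]
        exact ⟨hn1, hip, hjp⟩
    · refine ⟨(j, i), ?_, ?_⟩
      · rw [hPP, mem_filter]
        refine ⟨mem_univ _, ?_⟩
        show clas j < clas i
        rw [hi, hj]; exact hlt
      · rw [hT, mem_filter]
        exact ⟨hn1, hjp, hip⟩
  have hNpos : 0 ≤ (N : ℝ) ^ (1 - η) := Real.rpow_nonneg (Nat.cast_nonneg _) _
  obtain ⟨ij, hij, hcard⟩ : ∃ ij ∈ PP, (N : ℝ) ^ (1 - η) ≤ ((T ij).card : ℝ) := by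
    by_contra hcon
    push Not at hcon
    have h1 : (S.card : ℝ) ≤ ∑ ij ∈ PP, ((T ij).card : ℝ) := by
      have := (Finset.card_le_card hcov).trans Finset.card_biUnion_le
      exact_mod_cast this
    have hne : PP.Nonempty := by
      rw [Finset.nonempty_iff_ne_empty]
      intro he
      have hz : (⟨0, by omega⟩ : Fin K) = ⟨0, by omega⟩ := rfl
      have : (finProdFinEquiv ((0 : Fin 4), (⟨0, by omega⟩ : Fin K)),
        finProdFinEquiv ((1 : Fin 4), (⟨0, by omega⟩ : Fin K))) ∈ PP := by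
        rw [hPP, mem_filter]
        refine ⟨mem_univ _, ?_⟩
        show clas (finProdFinEquiv _) < clas (finProdFinEquiv _)
        unfold clas
        rw [Equiv.symm_apply_apply, Equiv.symm_apply_apply]
        exact Fin.mk_lt_mk.2 (by norm_num)
      rw [he] at this
      exact absurd this (Finset.notMem_empty _)
    have h2 : ∑ ij ∈ PP, ((T ij).card : ℝ) < ∑ ij ∈ PP, (N : ℝ) ^ (1 - η) :=
      Finset.sum_lt_sum_of_nonempty hne hcon
    rw [Finset.sum_const, nsmul_eq_mul] at h2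
    have h3 : (PP.card : ℝ) ≤ (4 * K : ℝ) * (4 * K) := by
      have h4 : PP.card ≤ (4 * K) * (4 * K) := by
        refine (Finset.card_filter_le _ _).trans ?_
        rw [card_univ, Fintype.card_prod, Fintype.card_fin]
      exact_mod_cast h4
    have h5 := mul_le_mul_of_nonneg_right h3 hNpos
    linarith
  have hijlt : clas ij.1 < clas ij.2 := by
    rw [hPP, mem_filter] at hij
    exact hij.2
  have key := of_pair x y (u - 1 - ρ - 2 * a) (u + 1 - ρ - 2 * a) N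
    (∑ ρ ∈ range P, ∑ i, ∑ j, (sh ρ i + sh ρ j).natAbs) ((N : ℝ) ^ (1 - η)) ij.1 ij.2 hijlt ?_ ?_ hcard
  · rcases key with h | ⟨k, l, h⟩
    · left; exact h
    · right
      exact ⟨_, hxX k, _, hyY l, h⟩
  · intro i
    have h1 : (sh ρ i).natAbs ≤ ∑ i, (sh ρ i).natAbs :=
      Finset.single_le_sum (f := fun i => (sh ρ i).natAbs) (fun _ _ => Nat.zero_le _) (mem_univ i)
    have h2 : ∑ i, (sh ρ i).natAbs ≤ ∑ ρ ∈ range P, ∑ i, (sh ρ i).natAbs :=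
      Finset.single_le_sum (f := fun ρ => ∑ i, (sh ρ i).natAbs) (fun _ _ => Nat.zero_le _) hρm
    have h3 : (sh ρ i).natAbs ≤ N := h1.trans (h2.trans hNM)
    have h4 : |sh ρ i| = ((sh ρ i).natAbs : ℤ) := Int.abs_eq_natAbs _
    show |sh ρ i| ≤ (N : ℤ)
    rw [h4]
    exact_mod_cast h3
  · have h1 : (sh ρ ij.1 + sh ρ ij.2).natAbs ≤ ∑ j, (sh ρ ij.1 + sh ρ j).natAbs :=
      Finset.single_le_sum (f := fun j => (sh ρ ij.1 + sh ρ j).natAbs) (fun _ _ => Nat.zero_le _) (mem_univ _)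
    have h2 : ∑ j, (sh ρ ij.1 + sh ρ j).natAbs ≤ ∑ i, ∑ j, (sh ρ i + sh ρ j).natAbs :=
      Finset.single_le_sum (f := fun i => ∑ j, (sh ρ i + sh ρ j).natAbs) (fun _ _ => Nat.zero_le _) (mem_univ _)
    have h3 : ∑ i, ∑ j, (sh ρ i + sh ρ j).natAbs ≤ ∑ ρ ∈ range P, ∑ i, ∑ j, (sh ρ i + sh ρ j).natAbs :=
      Finset.single_le_sum (f := fun ρ => ∑ i, ∑ j, (sh ρ i + sh ρ j).natAbs) (fun _ _ => Nat.zero_le _) hρm
    have h4 : |sh ρ ij.1 + sh ρ ij.2| = ((sh ρ ij.1 + sh ρ ij.2).natAbs : ℤ) := Int.abs_eq_natAbs _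
    show |sh ρ ij.1 + sh ρ ij.2| ≤ _
    rw [h4]
    exact_mod_cast h1.trans (h2.trans h3)

end Pool.Agent.TH880.GP
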