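import Mathlib
import Pool.Agent.TH880.GPd
import Pool.Agent.TH880.GPe

/-! Goldbach or Polignac (helper880): the dichotomy. -/

set_option autoImplicit false

namespace Pool.Agent.TH880.GP

open Finset Filter Topology
open Pool.Agent.W25.UB

/-- the number of primes `p ≤ x` such that `p + 2 k` is a prime -/
noncomputable def pairCount (x k : ℕ) : ℕ := {p : ℕ | p ≤ x ∧ p.Prime ∧ (p + 2 * k).Prime}.ncard

/-- for every `η > 0` there are arbitrarily large `x` such that `2 k` is the difference of `p + 2 k`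
and `p`, both primes, for at least `x ^ (1 - η)` primes `p ≤ x` -/
def Pol (k : ℕ) : Prop := ∀ η : ℝ, 0 < η → ∃ᶠ x : ℕ in atTop, (x : ℝ) ^ (1 - η) ≤ pairCount x k

/-- the number of primes `p` such that `m - p` is a prime -/
noncomputable def sumCount (m : ℕ) : ℕ := {p : ℕ | p.Prime ∧ ∃ q : ℕ, q.Prime ∧ p + q = m}.ncard

theorem dich_inf (hV : ThmV) :
    (∃ C : ℕ, ∀ η : ℝ, 0 < η → ∀ᶠ N : ℕ in atTop, ∃ c : ℤ, |c| ≤ C ∧ (N : ℝ) ^ (1 - η) ≤ sumReps N c) ∨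
    (∃ K : ℕ, 1 ≤ K ∧ ∀ X Y : Finset ℤ, K ≤ X.card → K ≤ Y.card → (∀ x ∈ X, ∀ y ∈ Y, 0 < x + y) →
      ∃ x ∈ X, ∃ y ∈ Y, ∀ η : ℝ, 0 < η → ∃ᶠ N : ℕ in atTop, (N : ℝ) ^ (1 - η) ≤ difReps N (x + y)) := by
  classical
  obtain ⟨K, hK, hmain⟩ := dich hV
  by_contra hcon
  push Not at hcon
  obtain ⟨h1, h2⟩ := hcon
  obtain ⟨X, Y, hX, hY, hpos, hXY⟩ := h2 K hK
  obtain ⟨C, hC⟩ := hmain X Y hX hY hpos
  obtain ⟨η₀, hη₀, hf⟩ := h1 C
  choose! e he0 he using hXY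
  -- the least of the exponents
  obtain ⟨η₁, hη₁, hη₁0, hη₁XY⟩ : ∃ η₁ : ℝ, 0 < η₁ ∧ η₁ ≤ η₀ ∧ ∀ z ∈ X ×ˢ Y, η₁ ≤ e z.1 z.2 := by
    have : ∀ s : Finset (ℤ × ℤ), s ⊆ X ×ˢ Y →
        ∃ η₁ : ℝ, 0 < η₁ ∧ η₁ ≤ η₀ ∧ ∀ z ∈ s, η₁ ≤ e z.1 z.2 := by
      intro s
      induction s using Finset.induction_on with
      | empty => intro _; exact ⟨η₀, hη₀, le_rfl, fun z hz => absurd hz (Finset.notMem_empty _)⟩
      | insert a s ha ih =>
        intro hs
        obtain ⟨t, ht, ht0, hts⟩ := ih ((Finset.subset_insert _ _).trans hs)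
        have hmem := Finset.mem_product.1 (hs (Finset.mem_insert_self a s))
        refine ⟨min t (e a.1 a.2), lt_min ht (he0 _ hmem.1 _ hmem.2), (min_le_left _ _).trans ht0, ?_⟩
        intro z hz
        rcases Finset.mem_insert.1 hz with rfl | hz
        · exact min_le_right _ _
        · exact (min_le_left _ _).trans (hts z hz)
    exact this _ (Finset.Subset.refl _)
  have hev2 : ∀ᶠ N : ℕ in atTop, ∀ z ∈ X ×ˢ Y, (difReps N (z.1 + z.2) : ℝ) < (N : ℝ) ^ (1 - e z.1 z.2) := by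
    rw [Filter.eventually_all_finset]
    intro z hz
    have hmem := Finset.mem_product.1 hz
    exact he _ hmem.1 _ hmem.2
  have hmono : ∀ (N : ℕ) (s t : ℝ), 1 ≤ N → s ≤ t → (N : ℝ) ^ (1 - t) ≤ (N : ℝ) ^ (1 - s) := by
    intro N s t hN hst
    exact Real.rpow_le_rpow_of_exponent_le (by exact_mod_cast hN) (by linarith)
  obtain ⟨N, hN1, hN2, hN3, hN4⟩ := (hf.and_eventually
    ((hC η₁ hη₁).and (hev2.and (eventually_ge_atTop 1)))).exists
  rcases hN2 with ⟨c, hc, hcN⟩ | ⟨x, hx, y, hy, hxyN⟩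
  · have := hN1 c hc
    have := hmono N _ _ hN4 hη₁0
    linarith
  · have h3 := hN3 (x, y) (Finset.mem_product.2 ⟨hx, hy⟩)
    have h4 := hmono N _ _ hN4 (hη₁XY (x, y) (Finset.mem_product.2 ⟨hx, hy⟩))
    simp only at h3 h4
    linarith

/-- from `difReps` to `pairCount` -/
theorem pol_of (k : ℤ) (hk : 0 < k)
    (h : ∀ η : ℝ, 0 < η → ∃ᶠ N : ℕ in atTop, (N : ℝ) ^ (1 - η) ≤ difReps N k) : Pol k.toNat := by
  intro η hη
  have hev := ev_pow ((3 : ℝ) ^ (1 - η)) η hη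
  have h1 := ((h (η / 2) (by linarith)).and_eventually (hev.and (eventually_ge_atTop 1)))
  rw [Filter.frequently_atTop] at h1 ⊢
  intro a
  obtain ⟨N, hN, h2, h3, h4⟩ := h1 a
  refine ⟨3 * N, by omega, ?_⟩
  have hNr : (0 : ℝ) ≤ N := Nat.cast_nonneg _
  have h5 : ((3 * N : ℕ) : ℝ) ^ (1 - η) = (3 : ℝ) ^ (1 - η) * (N : ℝ) ^ (1 - η) := by
    push_cast
    rw [Real.mul_rpow (by norm_num) hNr]
  rw [h5]
  refine (h3.trans h2).trans ?_
  rw [Nat.cast_le]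
  unfold difReps pairCount
  apply Set.ncard_le_ncard _ ((Set.finite_Iic (3 * N)).subset fun p hp => hp.1)
  rintro p ⟨hp1, hp2, q, hq, hpq⟩
  refine ⟨hp1, hp2, ?_⟩
  have : p + 2 * k.toNat = q := by omega
  rw [this]
  exact hq

/-- an odd number is a sum of two primes in at most two ways -/
theorem sumCount_odd (m : ℕ) (hm : ¬ Even m) : sumCount m ≤ 2 := by
  have h1 : {p : ℕ | p.Prime ∧ ∃ q : ℕ, q.Prime ∧ p + q = m} ⊆ ({2, m - 2} : Finset ℕ) := by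
    rintro p ⟨hp, q, hq, hpq⟩
    rw [Finset.mem_coe, Finset.mem_insert, Finset.mem_singleton]
    rcases hp.eq_two_or_odd' with h2 | h2
    · left; exact h2
    · right
      rcases hq.eq_two_or_odd' with h3 | h3
      · omega
      · exfalso
        apply hm
        rw [← hpq]
        exact h2.add_odd h3
  unfold sumCount
  calc _ ≤ (({2, m - 2} : Finset ℕ) : Set ℕ).ncard := Set.ncard_le_ncard h1 (Finset.finite_toSet _)
    _ = ({2, m - 2} : Finset ℕ).card := Set.ncard_coe_finset _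
    _ ≤ 2 := Finset.card_le_two

/-- from `sumReps` to `sumCount` -/
theorem sum_of (C : ℕ)
    (h : ∀ η : ℝ, 0 < η → ∀ᶠ N : ℕ in atTop, ∃ c : ℤ, |c| ≤ C ∧ (N : ℝ) ^ (1 - η) ≤ sumReps N c) :
    ∀ η : ℝ, 0 < η → ∀ᶠ x : ℕ in atTop, ∃ m : ℕ, x ≤ m ∧ m ≤ x + (2 * C + 2) ∧ Even m ∧
      (m : ℝ) ^ (1 - η) ≤ sumCount m := by
  classical
  -- it is enough to treat `η < 1`
  have hred : ∀ η : ℝ, 0 < η → η < 1 → ∀ᶠ x : ℕ in atTop, ∃ m : ℕ, x ≤ m ∧ m ≤ x + (2 * C + 2) ∧ Even m ∧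
      (m : ℝ) ^ (1 - η) ≤ sumCount m := by
    intro η hη hη1
    have hev := ev_pow ((3 : ℝ) ^ (1 - η)) η hη
    have hbig : ∀ᶠ N : ℕ in atTop, (2 : ℝ) < (N : ℝ) ^ (1 - η) := by
      have h1 : Tendsto (fun N : ℕ => (N : ℝ) ^ (1 - η)) atTop atTop :=
        (tendsto_rpow_atTop (by linarith)).comp tendsto_natCast_atTop_atTop
      exact h1.eventually_gt_atTop 2
    have hall := (h (η / 2) (by linarith)).and (hev.and (hbig.and (eventually_ge_atTop (C + 1))))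
    rw [Filter.eventually_atTop] at hall ⊢
    obtain ⟨a, ha⟩ := hall
    refine ⟨2 * a + C + 2, fun x hx => ?_⟩
    obtain ⟨⟨c, hc, hcN⟩, h3, h4, h5⟩ := ha ((x + C + 1) / 2) (by omega)
    set N := (x + C + 1) / 2 with hN
    rw [abs_le] at hc
    obtain ⟨m, hm⟩ : ∃ m : ℕ, (m : ℤ) = 2 * N + c := ⟨(2 * N + c).toNat, by omega⟩
    have hm3 : m ≤ 3 * N := by omega
    have hNr : (0 : ℝ) ≤ N := Nat.cast_nonneg _
    have h6 : (m : ℝ) ^ (1 - η) ≤ (N : ℝ) ^ (1 - η / 2) := by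
      have h7 : (m : ℝ) ^ (1 - η) ≤ ((3 * N : ℕ) : ℝ) ^ (1 - η) :=
        Real.rpow_le_rpow (Nat.cast_nonneg _) (by exact_mod_cast hm3) (by linarith)
      refine h7.trans ?_
      push_cast
      rw [Real.mul_rpow (by norm_num) hNr]
      exact h3
    have h8 : (sumReps N c : ℝ) ≤ sumCount m := by
      rw [Nat.cast_le]
      unfold sumReps sumCount
      apply Set.ncard_le_ncard
      · rintro p ⟨hp1, hp2, q, hq, hpq⟩
        refine ⟨hp2, q, hq, ?_⟩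
        rw [← hm] at hpq
        exact_mod_cast hpq
      · apply (Set.finite_Iic m).subset
        rintro p ⟨hp1, q, hq, hpq⟩
        rw [Set.mem_Iic]
        omega
    refine ⟨m, by omega, by omega, ?_, h6.trans (hcN.trans h8)⟩
    by_contra hodd
    have h9 : (sumCount m : ℝ) ≤ 2 := by exact_mod_cast sumCount_odd m hodd
    have h10 : (N : ℝ) ^ (1 - η) ≤ (N : ℝ) ^ (1 - η / 2) :=
      Real.rpow_le_rpow_of_exponent_le (by
        have : 1 ≤ N := by omega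
        exact_mod_cast this) (by linarith)
    linarith
  intro η hη
  have h1 := hred (min η (1 / 2)) (lt_min hη (by norm_num)) (lt_of_le_of_lt (min_le_right _ _) (by norm_num))
  filter_upwards [h1, eventually_ge_atTop 1] with x ⟨m, hm1, hm2, hm3, hm4⟩ hx
  refine ⟨m, hm1, hm2, hm3, le_trans ?_ hm4⟩
  apply Real.rpow_le_rpow_of_exponent_le
  · have : 1 ≤ m := by omega
    exact_mod_cast this
  · have := min_le_left η (1 / 2 : ℝ)
    linarith

open Classical in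
/-- **Goldbach or Polignac** -/
theorem goldbach_or_polignac (hV : ThmV) :
    (∃ C : ℕ, ∀ η : ℝ, 0 < η → ∀ᶠ x : ℕ in atTop, ∃ m : ℕ, x ≤ m ∧ m ≤ x + C ∧ Even m ∧
      (m : ℝ) ^ (1 - η) ≤ sumCount m) ∨
    (∃ K : ℕ, 1 ≤ K ∧
      (∀ X Y : Finset ℤ, K ≤ X.card → K ≤ Y.card → (∀ x ∈ X, ∀ y ∈ Y, 0 < x + y) →
        ∃ x ∈ X, ∃ y ∈ Y, Pol (x + y).toNat) ∧
      ∀ u L : ℕ, 1 ≤ L → (((Finset.Ioc u (u + L)).filter (fun k => ¬ Pol k)).card : ℝ) ≤
        8 * K * (L : ℝ) ^ (1 - 1 / (K : ℝ))) := by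
  rcases dich_inf hV with ⟨C, hC⟩ | ⟨K, hK, hXY⟩
  · left
    exact ⟨2 * C + 2, sum_of C hC⟩
  · right
    have hP : ∀ X Y : Finset ℤ, K ≤ X.card → K ≤ Y.card → (∀ x ∈ X, ∀ y ∈ Y, 0 < x + y) →
        ∃ x ∈ X, ∃ y ∈ Y, Pol (x + y).toNat := by
      intro X Y hX hY hpos
      obtain ⟨x, hx, y, hy, h⟩ := hXY X Y hX hY hpos
      exact ⟨x, hx, y, hy, pol_of _ (hpos x hx y hy) h⟩
    refine ⟨K, hK, hP, ?_⟩
    intro u L hL
    set S := (Finset.Ioc u (u + L)).filter (fun k => ¬ Pol k) with hS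
    have h1 := kst K hK {z : ℤ | 0 < z ∧ ¬ Pol z.toNat} (by
      intro X Y hX hY
      by_contra hcon
      push Not at hcon
      obtain ⟨x, hx, y, hy, h⟩ := hP X Y hX hY (fun x hx y hy => (hcon x hx y hy).1)
      exact (hcon x hx y hy).2 h) (u : ℤ) L hL (S.map ⟨fun k : ℕ => (k : ℤ), Nat.cast_injective⟩) (by
      intro z hz
      rw [Finset.mem_map] at hz
      obtain ⟨k, hk, rfl⟩ := hz
      rw [hS, Finset.mem_filter, Finset.mem_Ioc] at hk
      refine ⟨⟨?_, ?_⟩, ?_, ?_⟩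
      · show (0 : ℤ) < ((k : ℕ) : ℤ)
        omega
      · show ¬ Pol ((k : ℕ) : ℤ).toNat
        rw [Int.toNat_natCast]
        exact hk.2
      · show (u : ℤ) < ((k : ℕ) : ℤ)
        omega
      · show ((k : ℕ) : ℤ) ≤ (u : ℤ) + L
        omega)
    rwa [Finset.card_map] at h1

end Pool.Agent.TH880.GP
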