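import Mathlib

/-! Nevanlinna functions with more zeros than poles (helper880): the basic estimates. -/

set_option autoImplicit false

namespace Pool.Agent.TH880.NV

open Finset Filter Topology Complex
open scoped Real ComplexConjugate

/-- the function `- π cot (π z)`, with poles at the integers -/
noncomputable def gg (z : ℂ) : ℂ := -(π * Complex.cot (π * z))

theorem inv_im' (t : ℝ) (z : ℂ) : (1 / ((t : ℂ) - z)).im = z.im / normSq ((t : ℂ) - z) := by
  rw [one_div, Complex.inv_im]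
  simp

theorem c_inv_im (c t : ℝ) (z : ℂ) : ((c : ℂ) / ((t : ℂ) - z)).im = c * (z.im / normSq ((t : ℂ) - z)) := by
  rw [div_eq_mul_one_div, im_ofReal_mul, inv_im']

theorem mem_compl (z : ℂ) (hz : 0 < z.im) : z ∈ Complex.integerComplement := by
  rw [Complex.mem_integerComplement_iff]
  rintro ⟨n, hn⟩
  rw [← hn] at hz
  simp at hz

/-- the imaginary part of `gg` is larger than the finite sums -/
theorem gg_im (z : ℂ) (hz : 0 < z.im) (K : ℕ) :
    ∑ n ∈ range K, z.im / normSq (((n + 1 : ℝ) : ℂ) - z) < (gg z).im := by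
  have hlim := tendsto_logDeriv_euler_cot_sub (mem_compl z hz)
  have hlim2 : Tendsto (fun n : ℕ => (-(∑ j ∈ range n, cotTerm z j)).im) atTop
      (𝓝 (-(π * Complex.cot (π * z) - 1 / z)).im) :=
    (Complex.continuous_im.tendsto _).comp hlim.neg
  have hterm : ∀ j : ℕ, z.im / normSq (((j + 1 : ℝ) : ℂ) - z) ≤ (-(cotTerm z j)).im ∧
      0 ≤ (-(cotTerm z j)).im := by
    intro j
    have e : -(cotTerm z j) = 1 / (((j + 1 : ℝ) : ℂ) - z) + 1 / (((-(j + 1) : ℝ) : ℂ) - z) := by
      unfold cotTerm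
      have e1 : ((j + 1 : ℝ) : ℂ) - z = -(z - (j + 1)) := by push_cast; ring
      have e2 : ((-(j + 1) : ℝ) : ℂ) - z = -(z + (j + 1)) := by push_cast; ring
      rw [e1, e2, one_div_neg_eq_neg_one_div, one_div_neg_eq_neg_one_div]
      ring
    rw [e, Complex.add_im, inv_im', inv_im']
    have h1 : 0 ≤ z.im / normSq (((j + 1 : ℝ) : ℂ) - z) := div_nonneg hz.le (normSq_nonneg _)
    have h2 : 0 ≤ z.im / normSq (((-(j + 1) : ℝ) : ℂ) - z) := div_nonneg hz.le (normSq_nonneg _)
    constructor <;> linarith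
  have hle : ∑ n ∈ range K, z.im / normSq (((n + 1 : ℝ) : ℂ) - z) ≤
      (-(π * Complex.cot (π * z) - 1 / z)).im := by
    apply ge_of_tendsto hlim2
    filter_upwards [eventually_ge_atTop K] with n hn
    rw [← Finset.sum_neg_distrib, Complex.im_sum]
    calc ∑ n ∈ range K, z.im / normSq (((n + 1 : ℝ) : ℂ) - z)
        ≤ ∑ j ∈ range K, (-(cotTerm z j)).im := Finset.sum_le_sum fun j _ => (hterm j).1
      _ ≤ ∑ j ∈ range n, (-(cotTerm z j)).im :=
        Finset.sum_le_sum_of_subset_of_nonneg (Finset.range_mono hn) fun j _ _ => (hterm j).2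
  have h3 : (-(π * Complex.cot (π * z) - 1 / z)).im = (gg z).im - z.im / normSq z := by
    unfold gg
    have e : -(π * Complex.cot (π * z) - 1 / z) = -(π * Complex.cot (π * z)) + 1 / z := by ring
    rw [e, Complex.add_im, one_div, Complex.inv_im]
    ring
  have h4 : 0 < z.im / normSq z := by
    apply div_pos hz
    rw [normSq_pos]
    rintro rfl
    simp at hz
  rw [h3] at hle
  linarith

/-- partial fractions -/
theorem pf (P : Polynomial ℝ) (K : ℕ) (hP : P.degree < (K : ℕ)) : ∃ β : ℕ → ℝ, ∀ z : ℂ,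
    (∀ n ∈ range K, ((n + 1 : ℝ) : ℂ) - z ≠ 0) →
    (Polynomial.aeval z P) / ∏ n ∈ range K, (((n + 1 : ℝ) : ℂ) - z) =
      ∑ n ∈ range K, (β n : ℂ) / (((n + 1 : ℝ) : ℂ) - z) := by
  classical
  set v : ℕ → ℂ := fun n => ((n + 1 : ℝ) : ℂ) with hv
  set Q : Polynomial ℂ := P.map (algebraMap ℝ ℂ) with hQ
  have hinj : Set.InjOn v (range K : Finset ℕ) := by
    intro a _ b _ hab
    have h1 : ((a + 1 : ℝ) : ℂ) = ((b + 1 : ℝ) : ℂ) := hab
    have h2 : (a + 1 : ℝ) = (b + 1 : ℝ) := by exact_mod_cast h1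
    have h3 : (a : ℝ) = b := by linarith
    exact_mod_cast h3
  have hdeg : Q.degree < (range K).card := by
    rw [card_range, hQ]
    exact lt_of_le_of_lt Polynomial.degree_map_le hP
  have hint := Lagrange.eq_interpolate hinj hdeg
  refine ⟨fun n => (-1) ^ (K + 1) * (∏ j ∈ (range K).erase n, ((n : ℝ) - j)⁻¹) * P.eval (n + 1 : ℝ), ?_⟩
  intro z hz
  have hne : ∀ i ∈ range K, z ≠ v i := by
    intro i hi h
    apply hz i hi
    rw [h]
    exact sub_self _
  have h1 : Polynomial.aeval z P = Q.eval z := by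
    rw [hQ, Polynomial.eval_map_algebraMap]
  rw [h1, hint, Lagrange.eval_interpolate_not_at_node _ hne, Lagrange.eval_nodal]
  have h2 : ∏ n ∈ range K, (((n + 1 : ℝ) : ℂ) - z) = (-1) ^ K * ∏ n ∈ range K, (z - v n) := by
    have e : ((-1 : ℂ)) ^ K = ∏ _n ∈ range K, (-1 : ℂ) := by rw [Finset.prod_const, card_range]
    rw [e, ← Finset.prod_mul_distrib]
    apply Finset.prod_congr rfl
    intro n _
    rw [hv]
    ring
  have h3 : ∏ n ∈ range K, (z - v n) ≠ 0 := by
    rw [Finset.prod_ne_zero_iff]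
    intro n hn h
    exact hne n hn (sub_eq_zero.1 h)
  rw [h2, div_eq_iff (mul_ne_zero (pow_ne_zero _ (by norm_num)) h3), Finset.sum_mul, Finset.mul_sum]
  apply Finset.sum_congr rfl
  intro n hn
  have h4 : Lagrange.nodalWeight (range K) v n = ((∏ j ∈ (range K).erase n, ((n : ℝ) - j)⁻¹ : ℝ) : ℂ) := by
    unfold Lagrange.nodalWeight
    push_cast
    apply Finset.prod_congr rfl
    intro j _
    rw [hv]
    push_cast
    congr 1
    ring
  have h5 : Q.eval (v n) = ((P.eval (n + 1 : ℝ) : ℝ) : ℂ) := by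
    rw [hQ, hv]
    simp only
    rw [Polynomial.eval_map_algebraMap]
    exact Polynomial.aeval_algebraMap_apply_eq_algebraMap_eval _ _
  rw [h4, h5]
  have h6 : (((n + 1 : ℝ) : ℂ) - z) = -(z - v n) := by rw [hv]; ring
  rw [h6, div_neg, div_eq_mul_inv]
  push_cast
  have h7 : ((-1 : ℂ)) ^ K * (-1) ^ (K + 1) = -1 := by
    rw [← pow_add]
    have : K + (K + 1) = 2 * K + 1 := by ring
    rw [this, pow_succ, pow_mul]
    norm_num
  linear_combination ((∏ n ∈ range K, (z - v n)) * (∏ j ∈ (range K).erase n, ((n : ℂ) - j)⁻¹) * (z - v n)⁻¹ *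
    (((Polynomial.eval ((n : ℝ) + 1) P : ℝ)) : ℂ)) * h7

end Pool.Agent.TH880.NV
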