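import Mathlib
import Pool.Agent.TH880.NVa

/-! Nevanlinna functions with more zeros than poles (helper880): the perturbation. -/

set_option autoImplicit false

namespace Pool.Agent.TH880.NV

open Finset Filter Topology Complex
open scoped Real ComplexConjugate

/-- rational function with poles at `1, …, K` -/
noncomputable def BB (P : Polynomial ℝ) (K : ℕ) (z : ℂ) : ℂ :=
  (Polynomial.aeval z P) / ∏ n ∈ range K, (((n + 1 : ℝ) : ℂ) - z)

/-- rational function with poles at `τ 0, …, τ (N-1)` -/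
noncomputable def AA (τ : ℕ → ℝ) (N : ℕ) (z : ℂ) : ℂ := ∑ i ∈ range N, 1 / ((τ i : ℂ) - z)

/-- their product -/
noncomputable def ff (P : Polynomial ℝ) (K : ℕ) (τ : ℕ → ℝ) (N : ℕ) (z : ℂ) : ℂ := BB P K z * AA τ N z

theorem node_ne (t : ℝ) (z : ℂ) (hz : z.im ≠ 0) : (t : ℂ) - z ≠ 0 := by
  intro h
  apply hz
  rw [← sub_eq_zero.1 h]
  exact Complex.ofReal_im t

theorem ff_pf (P : Polynomial ℝ) (K : ℕ) (hP : P.degree < (K : ℕ)) (hpos : ∀ t : ℝ, 0 < P.eval t)
    (τ : ℕ → ℝ) (N : ℕ) (hτ : ∀ i, i < N → 0 < τ i ∧ τ i < 1) :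
    ∃ (b s : ℕ → ℝ), (∀ i, i < N → 0 < b i) ∧ ∀ z : ℂ, z.im ≠ 0 →
      ff P K τ N z = ∑ i ∈ range N, (b i : ℂ) / ((τ i : ℂ) - z) +
        ∑ n ∈ range K, (s n : ℂ) / (((n + 1 : ℝ) : ℂ) - z) := by
  obtain ⟨β, hβ⟩ := pf P K hP
  refine ⟨fun i => P.eval (τ i) / ∏ n ∈ range K, ((n + 1 : ℝ) - τ i),
    fun n => -∑ i ∈ range N, β n / ((n + 1 : ℝ) - τ i), ?_, ?_⟩
  · intro i hi
    apply div_pos (hpos _)
    apply Finset.prod_pos
    intro n _
    have := (hτ i hi).2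
    have h2 : (0 : ℝ) ≤ n := Nat.cast_nonneg n
    linarith
  · intro z hz
    have hτn : ∀ i, i < N → ∀ n ∈ range K, ((n + 1 : ℝ) : ℂ) - (τ i : ℂ) ≠ 0 := by
      intro i hi n _ h
      have h1 : ((n + 1 : ℝ) - τ i) = 0 := by exact_mod_cast h
      have := (hτ i hi).2
      have h2 : (0 : ℝ) ≤ n := Nat.cast_nonneg n
      linarith
    have hb : ∀ i, i < N → ((P.eval (τ i) / ∏ n ∈ range K, ((n + 1 : ℝ) - τ i) : ℝ) : ℂ) =
        ∑ n ∈ range K, (β n : ℂ) / (((n + 1 : ℝ) : ℂ) - (τ i : ℂ)) := by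
      intro i hi
      rw [← hβ _ (hτn i hi)]
      push_cast
      congr 1
      have h9 : Polynomial.aeval ((algebraMap ℝ ℂ) (τ i)) P = (algebraMap ℝ ℂ) (P.eval (τ i)) :=
        Polynomial.aeval_algebraMap_apply_eq_algebraMap_eval _ _
      exact h9.symm
    unfold ff AA
    have hB : BB P K z = ∑ n ∈ range K, (β n : ℂ) / (((n + 1 : ℝ) : ℂ) - z) :=
      hβ z (fun n _ => node_ne _ z hz)
    rw [hB, Finset.mul_sum]
    have key : ∀ i ∈ range N, (∑ n ∈ range K, (β n : ℂ) / (((n + 1 : ℝ) : ℂ) - z)) * (1 / ((τ i : ℂ) - z)) =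
        ((P.eval (τ i) / ∏ n ∈ range K, ((n + 1 : ℝ) - τ i) : ℝ) : ℂ) / ((τ i : ℂ) - z) -
        ∑ n ∈ range K, ((β n : ℂ) / (((n + 1 : ℝ) : ℂ) - (τ i : ℂ))) / (((n + 1 : ℝ) : ℂ) - z) := by
      intro i hi
      rw [Finset.mem_range] at hi
      rw [hb i hi, Finset.sum_mul, Finset.sum_div, ← Finset.sum_sub_distrib]
      apply Finset.sum_congr rfl
      intro n hn
      have h1 := hτn i hi n hn
      have h2 := node_ne (n + 1 : ℝ) z hz
      have h3 := node_ne (τ i) z hz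
      field_simp
      ring
    rw [Finset.sum_congr rfl key, Finset.sum_sub_distrib, sub_eq_add_neg]
    congr 1
    rw [Finset.sum_comm, ← Finset.sum_neg_distrib]
    apply Finset.sum_congr rfl
    intro n _
    rw [← Finset.sum_div, ← neg_div]
    congr 1
    push_cast
    rfl

/-- the perturbed function is a Nevanlinna function in the upper half plane -/
theorem exists_eps (P : Polynomial ℝ) (K : ℕ) (hP : P.degree < (K : ℕ)) (hpos : ∀ t : ℝ, 0 < P.eval t)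
    (τ : ℕ → ℝ) (N : ℕ) (hτ : ∀ i, i < N → 0 < τ i ∧ τ i < 1) :
    ∃ ε : ℝ, 0 < ε ∧ ∀ z : ℂ, 0 < z.im → 0 < (gg z + ε * ff P K τ N z).im := by
  obtain ⟨b, s, hb, hf⟩ := ff_pf P K hP hpos τ N hτ
  have hS : 0 ≤ ∑ n ∈ range K, |s n| := Finset.sum_nonneg fun _ _ => abs_nonneg _
  refine ⟨1 / (1 + ∑ n ∈ range K, |s n|), by positivity, ?_⟩
  intro z hz
  set ε := 1 / (1 + ∑ n ∈ range K, |s n|) with hε
  have hε0 : 0 < ε := by rw [hε]; positivity
  have hεs : ∀ n ∈ range K, ε * |s n| ≤ 1 := by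
    intro n hn
    rw [hε, one_div, inv_mul_le_iff₀ (by positivity), mul_one]
    have := Finset.single_le_sum (f := fun n => |s n|) (fun _ _ => abs_nonneg _) hn
    linarith
  have h1 := gg_im z hz K
  rw [hf z hz.ne', Complex.add_im, im_ofReal_mul, Complex.add_im, Complex.im_sum, Complex.im_sum]
  have h2 : 0 ≤ ∑ i ∈ range N, ((b i : ℂ) / ((τ i : ℂ) - z)).im := by
    apply Finset.sum_nonneg
    intro i hi
    rw [c_inv_im]
    exact mul_nonneg (hb i (Finset.mem_range.1 hi)).le (div_nonneg hz.le (normSq_nonneg _))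
  have h3 : -∑ n ∈ range K, z.im / normSq (((n + 1 : ℝ) : ℂ) - z) ≤
      ε * ∑ n ∈ range K, ((s n : ℂ) / (((n + 1 : ℝ) : ℂ) - z)).im := by
    rw [Finset.mul_sum, ← Finset.sum_neg_distrib]
    apply Finset.sum_le_sum
    intro n hn
    rw [c_inv_im]
    have h4 : 0 ≤ z.im / normSq (((n + 1 : ℝ) : ℂ) - z) := div_nonneg hz.le (normSq_nonneg _)
    have h5 := hεs n hn
    have h6 : -|s n| ≤ s n := neg_abs_le _
    have h7 : -1 ≤ ε * s n := by nlinarith
    nlinarith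
  have h8 : 0 ≤ ε * ∑ i ∈ range N, ((b i : ℂ) / ((τ i : ℂ) - z)).im := mul_nonneg hε0.le h2
  linarith

theorem gg_conj (z : ℂ) : gg (conj z) = conj (gg z) := by
  unfold gg
  rw [map_neg, map_mul, Complex.conj_ofReal, ← Complex.cot_conj, map_mul, Complex.conj_ofReal]

theorem ff_conj (P : Polynomial ℝ) (K : ℕ) (τ : ℕ → ℝ) (N : ℕ) (z : ℂ) :
    ff P K τ N (conj z) = conj (ff P K τ N z) := by
  unfold ff BB AA
  rw [map_mul, map_div₀, Polynomial.aeval_conj, map_prod, map_sum]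
  congr 1
  · congr 1
    apply Finset.prod_congr rfl
    intro n _
    rw [map_sub, Complex.conj_ofReal]
  · apply Finset.sum_congr rfl
    intro i _
    rw [map_div₀, map_sub, Complex.conj_ofReal, map_one]

theorem lower (P : Polynomial ℝ) (K : ℕ) (τ : ℕ → ℝ) (N : ℕ) (ε : ℝ)
    (h : ∀ z : ℂ, 0 < z.im → 0 < (gg z + ε * ff P K τ N z).im) (z : ℂ) (hz : z.im < 0) :
    (gg z + ε * ff P K τ N z).im < 0 := by
  have h1 := h (conj z) (by rw [Complex.conj_im]; linarith)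
  rw [gg_conj, ff_conj] at h1
  have e : conj (gg z) + (ε : ℂ) * conj (ff P K τ N z) = conj (gg z + ε * ff P K τ N z) := by
    rw [map_add, map_mul, Complex.conj_ofReal]
  rw [e, Complex.conj_im] at h1
  linarith

end Pool.Agent.TH880.NV
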