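import Mathlib
import Pool.Agent.TH880.NVb

/-! Nevanlinna functions with more zeros than poles (helper880): zeros and poles. -/

set_option autoImplicit false

namespace Pool.Agent.TH880.NV

open Finset Filter Topology Complex
open scoped Real ComplexConjugate

/-- a meromorphic function on the plane, analytic off the real line, which maps the upper half
plane into itself and the lower half plane into itself -/
structure IsNevanlinna (m : ℂ → ℂ) : Prop where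
  mero : ∀ z : ℂ, MeromorphicAt m z
  ana : ∀ z : ℂ, z.im ≠ 0 → AnalyticAt ℂ m z
  up : ∀ z : ℂ, 0 < z.im → 0 < (m z).im
  low : ∀ z : ℂ, z.im < 0 → (m z).im < 0

/-- the number of zeros of `f` in `U`, with multiplicity -/
noncomputable def zeroCount (f : ℂ → ℂ) (U : Set ℂ) : ℕ :=
  ∑ᶠ z ∈ U, (meromorphicOrderAt f z).untop₀.toNat

/-- the number of poles of `f` in `U`, with multiplicity -/
noncomputable def poleCount (f : ℂ → ℂ) (U : Set ℂ) : ℕ :=
  ∑ᶠ z ∈ U, (-(meromorphicOrderAt f z).untop₀).toNat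

theorem gg_mero (z : ℂ) : MeromorphicAt gg z := by
  unfold gg Complex.cot
  have h1 : AnalyticAt ℂ (fun z : ℂ => Complex.cos (π * z)) z := by fun_prop
  have h2 : AnalyticAt ℂ (fun z : ℂ => Complex.sin (π * z)) z := by fun_prop
  exact ((MeromorphicAt.const _ _).mul (h1.meromorphicAt.div h2.meromorphicAt)).neg

theorem gg_ana (z : ℂ) (hz : ∀ n : ℤ, z ≠ n) : AnalyticAt ℂ gg z := by
  unfold gg Complex.cot
  have h1 : AnalyticAt ℂ (fun z : ℂ => Complex.cos (π * z)) z := by fun_prop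
  have h2 : AnalyticAt ℂ (fun z : ℂ => Complex.sin (π * z)) z := by fun_prop
  have h3 : Complex.sin (π * z) ≠ 0 := by
    rw [Complex.sin_ne_zero_iff]
    intro k hk
    apply hz k
    have h4 : (π : ℂ) ≠ 0 := by exact_mod_cast Real.pi_ne_zero
    have h5 : (π : ℂ) * z = π * k := by rw [hk]; ring
    exact mul_left_cancel₀ h4 h5
  exact (analyticAt_const.mul (h1.div h2 h3)).neg

theorem BB_mero (P : Polynomial ℝ) (K : ℕ) (z : ℂ) : MeromorphicAt (BB P K) z := by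
  unfold BB
  have h1 : AnalyticAt ℂ (fun z : ℂ => Polynomial.aeval z P) z :=
    AnalyticAt.aeval_polynomial analyticAt_id P
  have h2 : AnalyticAt ℂ (fun z : ℂ => ∏ n ∈ range K, (((n + 1 : ℝ) : ℂ) - z)) z := by fun_prop
  exact h1.meromorphicAt.div h2.meromorphicAt

theorem BB_ana (P : Polynomial ℝ) (K : ℕ) (z : ℂ) (hz : ∀ n : ℕ, ((n + 1 : ℝ) : ℂ) ≠ z) :
    AnalyticAt ℂ (BB P K) z := by
  unfold BB
  have h1 : AnalyticAt ℂ (fun z : ℂ => Polynomial.aeval z P) z :=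
    AnalyticAt.aeval_polynomial analyticAt_id P
  have h2 : AnalyticAt ℂ (fun z : ℂ => ∏ n ∈ range K, (((n + 1 : ℝ) : ℂ) - z)) z := by fun_prop
  refine h1.div h2 ?_
  rw [Finset.prod_ne_zero_iff]
  intro n _ h
  exact hz n (sub_eq_zero.1 h)

theorem term_mero (t : ℝ) (z : ℂ) : MeromorphicAt (fun z : ℂ => 1 / ((t : ℂ) - z)) z := by
  have h2 : AnalyticAt ℂ (fun z : ℂ => (t : ℂ) - z) z := by fun_prop
  exact (MeromorphicAt.const _ _).div h2.meromorphicAt

theorem term_ana (t : ℝ) (z : ℂ) (hz : (t : ℂ) ≠ z) : AnalyticAt ℂ (fun z : ℂ => 1 / ((t : ℂ) - z)) z := by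
  have h2 : AnalyticAt ℂ (fun z : ℂ => (t : ℂ) - z) z := by fun_prop
  exact analyticAt_const.div h2 (sub_ne_zero.2 hz)

theorem AA_mero (τ : ℕ → ℝ) (N : ℕ) (z : ℂ) : MeromorphicAt (AA τ N) z := by
  unfold AA
  exact MeromorphicAt.fun_sum fun i _ => term_mero (τ i) z

theorem AA_ana (τ : ℕ → ℝ) (N : ℕ) (z : ℂ) (hz : ∀ i, i < N → (τ i : ℂ) ≠ z) : AnalyticAt ℂ (AA τ N) z := by
  unfold AA
  exact Finset.analyticAt_fun_sum _ fun i hi => term_ana (τ i) z (hz i (Finset.mem_range.1 hi))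

theorem ff_mero (P : Polynomial ℝ) (K : ℕ) (τ : ℕ → ℝ) (N : ℕ) (z : ℂ) : MeromorphicAt (ff P K τ N) z := by
  unfold ff
  exact (BB_mero P K z).mul (AA_mero τ N z)

theorem ff_ana (P : Polynomial ℝ) (K : ℕ) (τ : ℕ → ℝ) (N : ℕ) (z : ℂ) (hz : ∀ n : ℕ, ((n + 1 : ℝ) : ℂ) ≠ z)
    (hz2 : ∀ i, i < N → (τ i : ℂ) ≠ z) : AnalyticAt ℂ (ff P K τ N) z := by
  unfold ff
  exact (BB_ana P K z hz).mul (AA_ana τ N z hz2)

/-- the perturbed function -/
noncomputable def mm (P : Polynomial ℝ) (K : ℕ) (τ : ℕ → ℝ) (N : ℕ) (ε : ℝ) (z : ℂ) : ℂ :=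
  gg z + ε * ff P K τ N z

theorem mm_mero (P : Polynomial ℝ) (K : ℕ) (τ : ℕ → ℝ) (N : ℕ) (ε : ℝ) (z : ℂ) :
    MeromorphicAt (mm P K τ N ε) z := by
  unfold mm
  exact (gg_mero z).add ((MeromorphicAt.const _ _).mul (ff_mero P K τ N z))

theorem mm_ana (P : Polynomial ℝ) (K : ℕ) (τ : ℕ → ℝ) (N : ℕ) (ε : ℝ) (z : ℂ) (hz : ∀ n : ℤ, z ≠ n)
    (hz2 : ∀ i, i < N → (τ i : ℂ) ≠ z) : AnalyticAt ℂ (mm P K τ N ε) z := by
  unfold mm
  refine (gg_ana z hz).add (analyticAt_const.mul (ff_ana P K τ N z ?_ hz2))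
  intro n h
  apply hz (n + 1)
  rw [← h]
  push_cast
  rfl

/-- order `-1` at the points `τ i` -/
theorem mm_order (P : Polynomial ℝ) (K : ℕ) (hpos : ∀ t : ℝ, 0 < P.eval t)
    (τ : ℕ → ℝ) (N : ℕ) (hτ : ∀ i, i < N → 0 < τ i ∧ τ i < 1)
    (hinj : ∀ i j, i < N → j < N → τ i = τ j → i = j) (ε : ℝ) (hε : 0 < ε) (i : ℕ) (hi : i < N) :
    meromorphicOrderAt (mm P K τ N ε) (τ i) = ((-1 : ℤ) : WithTop ℤ) := by
  classical
  rw [meromorphicOrderAt_eq_int_iff (mm_mero P K τ N ε _)]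
  have hnint : ∀ n : ℤ, ((τ i : ℝ) : ℂ) ≠ n := by
    intro n h
    have h1 : τ i = (n : ℝ) := by exact_mod_cast h
    have h2 := hτ i hi
    rw [h1] at h2
    have h3 : (0 : ℤ) < n := by exact_mod_cast h2.1
    have h4 : n < (1 : ℤ) := by exact_mod_cast h2.2
    omega
  have hnn : ∀ n : ℕ, ((n + 1 : ℝ) : ℂ) ≠ (τ i : ℂ) := by
    intro n h
    apply hnint (n + 1)
    rw [← h]
    push_cast
    rfl
  have hrest : AnalyticAt ℂ (fun z : ℂ => ∑ j ∈ (range N).erase i, 1 / ((τ j : ℂ) - z)) (τ i : ℂ) := by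
    apply Finset.analyticAt_fun_sum
    intro j hj
    rw [Finset.mem_erase, Finset.mem_range] at hj
    apply term_ana
    intro h
    have : τ j = τ i := by exact_mod_cast h
    exact hj.1 (hinj j i hj.2 hi this)
  have hBa := BB_ana P K (τ i : ℂ) hnn
  refine ⟨fun z => (z - (τ i : ℂ)) * gg z + ε * (BB P K z *
    (-1 + (z - (τ i : ℂ)) * ∑ j ∈ (range N).erase i, 1 / ((τ j : ℂ) - z))), ?_, ?_, ?_⟩
  · have h1 : AnalyticAt ℂ (fun z : ℂ => z - (τ i : ℂ)) (τ i : ℂ) := by fun_prop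
    exact (h1.mul (gg_ana _ hnint)).add (analyticAt_const.mul (hBa.mul (analyticAt_const.add (h1.mul hrest))))
  · simp only [sub_self, zero_mul, zero_add, add_zero, mul_neg, mul_one, ne_eq, neg_eq_zero, mul_eq_zero,
      not_or]
    refine ⟨by exact_mod_cast hε.ne', ?_⟩
    unfold BB
    refine (div_ne_zero_iff (a := Polynomial.aeval ((τ i : ℝ) : ℂ) P)).2 ⟨?_, ?_⟩
    · have h9 : Polynomial.aeval ((algebraMap ℝ ℂ) (τ i)) P = (algebraMap ℝ ℂ) (P.eval (τ i)) :=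
        Polynomial.aeval_algebraMap_apply_eq_algebraMap_eval _ _
      have h10 : Polynomial.aeval ((τ i : ℝ) : ℂ) P = ((P.eval (τ i) : ℝ) : ℂ) := h9
      rw [h10]
      exact_mod_cast (hpos (τ i)).ne'
    · rw [Finset.prod_ne_zero_iff]
      intro n _ h
      exact hnn n (sub_eq_zero.1 h)
  · filter_upwards [self_mem_nhdsWithin] with z hz
    have hz' : z - (τ i : ℂ) ≠ 0 := sub_ne_zero.2 hz
    have hz'' : (τ i : ℂ) - z ≠ 0 := by
      intro h
      apply hz'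
      rw [← neg_sub, h, neg_zero]
    unfold mm ff AA
    rw [← Finset.add_sum_erase _ _ (Finset.mem_range.2 hi), zpow_neg_one, smul_eq_mul]
    generalize ∑ j ∈ (range N).erase i, 1 / ((τ j : ℂ) - z) = A
    have e : (1 : ℂ) / ((τ i : ℂ) - z) = -(z - (τ i : ℂ))⁻¹ := by
      rw [one_div, ← inv_neg]
      congr 1
      ring
    rw [e]
    field_simp

end Pool.Agent.TH880.NV
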