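import Mathlib
import Pool.Agent.TH880.NVc

/-! Nevanlinna functions with more zeros than poles (helper880): counting. -/

set_option autoImplicit false

namespace Pool.Agent.TH880.NV

open Finset Filter Topology Complex
open scoped Real ComplexConjugate

/-- the numerator: zeros of order at least `M` at `x l ± i a`, `l < L` -/
noncomputable def PP (x : ℕ → ℝ) (a : ℝ) (L M : ℕ) : Polynomial ℝ :=
  ∏ l ∈ range L, ((Polynomial.X - Polynomial.C (x l)) ^ 2 + Polynomial.C (a ^ 2)) ^ M

theorem PP_pos (x : ℕ → ℝ) (a : ℝ) (ha : 0 < a) (L M : ℕ) (t : ℝ) : 0 < (PP x a L M).eval t := by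
  unfold PP
  rw [Polynomial.eval_prod]
  apply Finset.prod_pos
  intro l _
  simp only [Polynomial.eval_pow, Polynomial.eval_add, Polynomial.eval_sub, Polynomial.eval_X,
    Polynomial.eval_C]
  positivity

theorem PP_deg (x : ℕ → ℝ) (a : ℝ) (L M : ℕ) : (PP x a L M).degree < ((2 * L * M + 1 : ℕ) : WithBot ℕ) := by
  have h1 : (PP x a L M).natDegree ≤ 2 * L * M := by
    unfold PP
    refine (Polynomial.natDegree_prod_le _ _).trans ?_
    calc ∑ l ∈ range L, (((Polynomial.X - Polynomial.C (x l)) ^ 2 + Polynomial.C (a ^ 2)) ^ M).natDegree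
        ≤ ∑ _l ∈ range L, M * 2 := by
          apply Finset.sum_le_sum
          intro l _
          refine Polynomial.natDegree_pow_le.trans (Nat.mul_le_mul_left _ ?_)
          refine (Polynomial.natDegree_add_le _ _).trans (max_le ?_ ?_)
          · refine Polynomial.natDegree_pow_le.trans ?_
            rw [Polynomial.natDegree_X_sub_C]
          · rw [Polynomial.natDegree_C]; omega
      _ = 2 * L * M := by rw [Finset.sum_const, card_range, smul_eq_mul]; ring
  refine lt_of_le_of_lt Polynomial.degree_le_natDegree ?_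
  exact_mod_cast Nat.lt_succ_of_le h1

theorem AA_ne (τ : ℕ → ℝ) (N : ℕ) (hN : 0 < N) (z : ℂ) (hz : 0 < z.im) : AA τ N z ≠ 0 := by
  intro h
  have h1 : (AA τ N z).im = ∑ i ∈ range N, z.im / normSq ((τ i : ℂ) - z) := by
    unfold AA
    rw [Complex.im_sum]
    exact Finset.sum_congr rfl fun i _ => inv_im' _ _
  have h2 : 0 < ∑ i ∈ range N, z.im / normSq ((τ i : ℂ) - z) := by
    apply Finset.sum_pos
    · intro i _
      exact div_pos hz (normSq_pos.2 (node_ne _ z hz.ne'))
    · exact ⟨0, Finset.mem_range.2 hN⟩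
  rw [h] at h1
  simp only [Complex.zero_im] at h1
  linarith

theorem zero_order (x : ℕ → ℝ) (a : ℝ) (ha : 0 < a) (L M K : ℕ) (τ : ℕ → ℝ) (N : ℕ) (hN : 0 < N)
    (ε : ℝ) (hε : 0 < ε) (l : ℕ) (hl : l < L) :
    (M : ℤ) ≤ (meromorphicOrderAt (fun z => mm (PP x a L M) K τ N ε z - gg z)
      ((x l : ℂ) + a * Complex.I)).untop₀ := by
  classical
  set z₀ : ℂ := (x l : ℂ) + a * Complex.I with hz₀
  have hz₀im : z₀.im = a := by rw [hz₀]; simp
  have hnode : ∀ t : ℝ, (t : ℂ) ≠ z₀ := by
    intro t h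
    have := congrArg Complex.im h
    rw [hz₀im] at this
    simp at this
    exact ha.ne this
  set R : Polynomial ℝ := ∏ k ∈ (range L).erase l, ((Polynomial.X - Polynomial.C (x k)) ^ 2 + Polynomial.C (a ^ 2)) ^ M
    with hR
  set H : ℂ → ℂ := fun z => ε * ((z - conj z₀) ^ M * (Polynomial.aeval z R) /
    (∏ n ∈ range K, (((n + 1 : ℝ) : ℂ) - z)) * AA τ N z) with hH
  have hF : (fun z => mm (PP x a L M) K τ N ε z - gg z) = (fun z => (z - z₀) ^ M) * H := by
    funext z
    simp only [Pi.mul_apply, hH]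
    unfold mm ff BB
    have e1 : PP x a L M = ((Polynomial.X - Polynomial.C (x l)) ^ 2 + Polynomial.C (a ^ 2)) ^ M * R := by
      unfold PP
      rw [hR]
      exact (Finset.mul_prod_erase (range L) (fun l => ((Polynomial.X - Polynomial.C (x l)) ^ 2 +
        Polynomial.C (a ^ 2)) ^ M) (Finset.mem_range.2 hl)).symm
    have e2 : Polynomial.aeval z (((Polynomial.X - Polynomial.C (x l)) ^ 2 + Polynomial.C (a ^ 2)) ^ M) =
        (z - z₀) ^ M * (z - conj z₀) ^ M := by
      rw [← mul_pow, map_pow]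
      congr 1
      simp only [map_add, map_pow, map_sub, Polynomial.aeval_X, Polynomial.aeval_C, Complex.coe_algebraMap]
      rw [hz₀, map_add, map_mul, Complex.conj_ofReal, Complex.conj_ofReal, Complex.conj_I]
      have hI : Complex.I ^ 2 = -1 := Complex.I_sq
      linear_combination ((a : ℂ) ^ 2) * hI
    rw [e1, map_mul, e2]
    ring
  have hHa : AnalyticAt ℂ H z₀ := by
    have h1 : AnalyticAt ℂ (fun z : ℂ => Polynomial.aeval z R) z₀ := AnalyticAt.aeval_polynomial analyticAt_id R
    have h2 : AnalyticAt ℂ (fun z : ℂ => ∏ n ∈ range K, (((n + 1 : ℝ) : ℂ) - z)) z₀ := by fun_prop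
    have h3 : AnalyticAt ℂ (fun z : ℂ => (z - conj z₀) ^ M) z₀ := by fun_prop
    have h4 : (fun z : ℂ => ∏ n ∈ range K, (((n + 1 : ℝ) : ℂ) - z)) z₀ ≠ 0 := by
      simp only
      rw [Finset.prod_ne_zero_iff]
      intro n _ h
      exact hnode _ (sub_eq_zero.1 h)
    exact analyticAt_const.mul (((h3.mul h1).div h2 h4).mul (AA_ana τ N z₀ fun i _ => hnode _))
  have hPne : PP x a L M ≠ 0 := by
    intro h
    have := PP_pos x a ha L M 0
    rw [h] at this
    simp at this
  have hFne : ∀ᶠ z in 𝓝[≠] z₀, (mm (PP x a L M) K τ N ε z - gg z) ≠ 0 := by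
    have hfin : Set.Finite ((PP x a L M).rootSet ℂ) := Polynomial.rootSet_finite _ _
    have h1 : ((PP x a L M).rootSet ℂ \ {z₀})ᶜ ∈ 𝓝 z₀ :=
      (hfin.subset Set.sdiff_subset).isClosed.isOpen_compl.mem_nhds (by simp)
    have h2 : {z : ℂ | 0 < z.im} ∈ 𝓝 z₀ :=
      (isOpen_lt continuous_const Complex.continuous_im).mem_nhds (by
        show 0 < z₀.im
        rw [hz₀im]; exact ha)
    filter_upwards [self_mem_nhdsWithin, mem_nhdsWithin_of_mem_nhds h1, mem_nhdsWithin_of_mem_nhds h2]
      with z hz hz1 hz2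
    have hz3 : z ∉ (PP x a L M).rootSet ℂ := by
      intro h
      exact hz1 ⟨h, hz⟩
    have hz4 : Polynomial.aeval z (PP x a L M) ≠ 0 := by
      intro h
      apply hz3
      rw [Polynomial.mem_rootSet]
      exact ⟨hPne, h⟩
    have hz5 : (0 : ℝ) < z.im := hz2
    have e : mm (PP x a L M) K τ N ε z - gg z = ε * (Polynomial.aeval z (PP x a L M) /
        (∏ n ∈ range K, (((n + 1 : ℝ) : ℂ) - z)) * AA τ N z) := by
      unfold mm ff BB
      ring
    rw [e]
    refine mul_ne_zero (by exact_mod_cast hε.ne') (mul_ne_zero (div_ne_zero hz4 ?_) (AA_ne τ N hN z hz5))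
    rw [Finset.prod_ne_zero_iff]
    intro n _
    exact node_ne _ z hz5.ne'
  have hFmero : MeromorphicAt (fun z => mm (PP x a L M) K τ N ε z - gg z) z₀ :=
    (mm_mero _ _ _ _ _ _).sub (gg_mero _)
  have htop : meromorphicOrderAt (fun z => mm (PP x a L M) K τ N ε z - gg z) z₀ ≠ ⊤ :=
    (meromorphicOrderAt_ne_top_iff_eventually_ne_zero hFmero).2 hFne
  have hpowm : MeromorphicAt (fun z : ℂ => (z - z₀) ^ M) z₀ := by
    have : AnalyticAt ℂ (fun z : ℂ => (z - z₀) ^ M) z₀ := by fun_prop
    exact this.meromorphicAt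
  have hord : meromorphicOrderAt (fun z => mm (PP x a L M) K τ N ε z - gg z) z₀ =
      (M : ℤ) + meromorphicOrderAt H z₀ := by
    rw [hF, meromorphicOrderAt_mul hpowm hHa.meromorphicAt]
    congr 1
    exact meromorphicOrderAt_pow_id_sub_const
  have hH0 : 0 ≤ meromorphicOrderAt H z₀ := hHa.meromorphicOrderAt_nonneg
  have hle : ((M : ℤ) : WithTop ℤ) ≤ meromorphicOrderAt (fun z => mm (PP x a L M) K τ N ε z - gg z) z₀ := by
    rw [hord]
    exact le_add_of_nonneg_right hH0
  rw [← WithTop.coe_untop₀_of_ne_top htop] at hle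
  exact WithTop.coe_le_coe.1 hle

theorem zeroCount_ge (F : ℂ → ℂ) (hF : ∀ z, MeromorphicAt F z) (U : Set ℂ) (hb : Bornology.IsBounded U)
    (z₀ : ℂ) (hz₀ : z₀ ∈ U) (M : ℕ) (h : (M : ℤ) ≤ (meromorphicOrderAt F z₀).untop₀) :
    M ≤ zeroCount F U := by
  classical
  unfold zeroCount
  rw [finsum_mem_def]
  have hfin : ((MeromorphicOn.divisor F (closure U)).support).Finite :=
    (MeromorphicOn.divisor F (closure U)).finiteSupport hb.isCompact_closure
  have hsub : Function.support (U.indicator fun z => (meromorphicOrderAt F z).untop₀.toNat) ⊆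
      (hfin.toFinset : Set ℂ) := by
    intro z hz
    rw [Function.mem_support, Set.indicator_apply] at hz
    split_ifs at hz with hU
    · rw [Set.Finite.coe_toFinset, Function.mem_support,
        MeromorphicOn.divisor_apply (fun z _ => hF z) (subset_closure hU)]
      intro h0
      rw [h0] at hz
      exact hz rfl
    · exact absurd rfl hz
  rw [finsum_eq_sum_of_support_subset _ hsub]
  by_cases hM : M = 0
  · rw [hM]; exact Nat.zero_le _
  have hmem : z₀ ∈ hfin.toFinset := by
    rw [Set.Finite.mem_toFinset, Function.mem_support,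
      MeromorphicOn.divisor_apply (fun z _ => hF z) (subset_closure hz₀)]
    omega
  calc M ≤ (U.indicator fun z => (meromorphicOrderAt F z).untop₀.toNat) z₀ := by
        rw [Set.indicator_of_mem hz₀]
        omega
    _ ≤ _ := Finset.single_le_sum (f := U.indicator fun z => (meromorphicOrderAt F z).untop₀.toNat)
        (fun _ _ => Nat.zero_le _) hmem

theorem poleCount_eq (P : Polynomial ℝ) (K : ℕ) (hpos : ∀ t : ℝ, 0 < P.eval t)
    (τ : ℕ → ℝ) (N : ℕ) (hτ : ∀ i, i < N → 0 < τ i ∧ τ i < 1)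
    (hinj : ∀ i j, i < N → j < N → τ i = τ j → i = j) (ε : ℝ) (hε : 0 < ε) (U : Set ℂ)
    (hU : ∀ z ∈ U, ∀ n : ℤ, z ≠ n) (S : Finset ℕ) (hS : ∀ i, i ∈ S ↔ i < N ∧ ((τ i : ℝ) : ℂ) ∈ U) :
    poleCount (mm P K τ N ε) U = S.card := by
  classical
  unfold poleCount
  rw [finsum_mem_def]
  have hsub : Function.support (U.indicator fun z => (-(meromorphicOrderAt (mm P K τ N ε) z).untop₀).toNat) ⊆
      ((S.image fun i => ((τ i : ℝ) : ℂ) : Finset ℂ) : Set ℂ) := by
    intro z hz
    rw [Function.mem_support, Set.indicator_apply] at hz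
    split_ifs at hz with hzU
    · by_contra hcon
      apply hz
      have hana : AnalyticAt ℂ (mm P K τ N ε) z := by
        apply mm_ana P K τ N ε z (hU z hzU)
        intro i hi h
        apply hcon
        rw [Finset.coe_image]
        refine ⟨i, ?_, h⟩
        rw [Finset.mem_coe, hS]
        refine ⟨hi, ?_⟩
        rw [h]
        exact hzU
      have h1 := hana.meromorphicOrderAt_nonneg
      have h2 : 0 ≤ (meromorphicOrderAt (mm P K τ N ε) z).untop₀ := WithTop.untop₀_nonneg.2 h1
      omega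
    · exact absurd rfl hz
  rw [finsum_eq_sum_of_support_subset _ hsub, Finset.sum_image]
  · rw [Finset.card_eq_sum_ones]
    apply Finset.sum_congr rfl
    intro i hi
    rw [hS] at hi
    rw [Set.indicator_of_mem hi.2, mm_order P K hpos τ N hτ hinj ε hε i hi.1]
    rfl
  · intro i hi j hj h
    rw [Finset.mem_coe, hS] at hi hj
    have h2 : τ i = τ j := by
      have h3 : ((τ i : ℝ) : ℂ) = ((τ j : ℝ) : ℂ) := h
      exact_mod_cast h3
    exact hinj i j hi.1 hj.1 h2

end Pool.Agent.TH880.NV
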