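import Mathlib
import Pool.Agent.TH880.NVd

/-! Nevanlinna functions with more zeros than poles (helper880): the example. -/

set_option autoImplicit false

namespace Pool.Agent.TH880.NV

open Finset Filter Topology Complex
open scoped Real ComplexConjugate

/-- equally spaced points of the unit interval -/
noncomputable def tt (N : ℕ) (i : ℕ) : ℝ := (i + 1 : ℝ) / (N + 1)

theorem tt_mem (N i : ℕ) (hi : i < N) : 0 < tt N i ∧ tt N i < 1 := by
  unfold tt
  have h1 : (i : ℝ) + 1 ≤ N := by exact_mod_cast hi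
  constructor
  · positivity
  · rw [div_lt_one (by positivity)]; linarith

theorem tt_inj (N : ℕ) (i j : ℕ) (h : tt N i = tt N j) : i = j := by
  unfold tt at h
  have h1 : (0 : ℝ) < N + 1 := by positivity
  rw [div_left_inj' h1.ne'] at h
  have : (i : ℝ) = j := by linarith
  exact_mod_cast this

theorem count_bd (c d : ℝ) (hc : 0 ≤ c) (hcd : c < d) (hd : d ≤ 1) (N : ℕ) (S : Finset ℕ)
    (hS : ∀ i, i ∈ S ↔ i < N ∧ c < tt N i ∧ tt N i < d) :
    (d - c) * (N + 1) - 1 ≤ (S.card : ℝ) ∧ (S.card : ℝ) ≤ (d - c) * (N + 1) + 1 := by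
  classical
  have hN : (0 : ℝ) < N + 1 := by positivity
  have hcard : S.card = (Finset.Ioo ⌊c * (N + 1)⌋ ⌈d * (N + 1)⌉).card := by
    refine Finset.card_bij (fun (i : ℕ) _ => ((i : ℤ) + 1)) ?_ ?_ ?_
    · intro i hi
      rw [hS] at hi
      obtain ⟨h1, h2, h3⟩ := hi
      unfold tt at h2 h3
      rw [lt_div_iff₀ hN] at h2
      rw [div_lt_iff₀ hN] at h3
      rw [Finset.mem_Ioo, Int.floor_lt, Int.lt_ceil]
      push_cast
      exact ⟨h2, h3⟩
    · intro i _ j _ h
      have : (i : ℤ) = j := by linarith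
      exact_mod_cast this
    · intro t ht
      rw [Finset.mem_Ioo, Int.floor_lt, Int.lt_ceil] at ht
      obtain ⟨h1, h2⟩ := ht
      have h3 : (0 : ℝ) < t := lt_of_le_of_lt (mul_nonneg hc hN.le) h1
      have h4 : (t : ℝ) < N + 1 := lt_of_lt_of_le h2 (by nlinarith)
      have h5 : 0 < t := by exact_mod_cast h3
      have h6 : t < N + 1 := by exact_mod_cast h4
      refine ⟨(t - 1).toNat, ?_, by omega⟩
      rw [hS]
      have h7 : (((t - 1).toNat : ℕ) : ℝ) = t - 1 := by
        have : (((t - 1).toNat : ℕ) : ℤ) = t - 1 := Int.toNat_of_nonneg (by omega)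
        exact_mod_cast this
      refine ⟨by omega, ?_, ?_⟩
      · unfold tt
        rw [h7, lt_div_iff₀ hN]; linarith
      · unfold tt
        rw [h7, div_lt_iff₀ hN]; linarith
  rw [hcard, Int.card_Ioo]
  have h1 := Int.floor_le (c * (N + 1))
  have h2 := Int.lt_floor_add_one (c * (N + 1))
  have h3 := Int.le_ceil (d * (N + 1))
  have h4 := Int.ceil_lt_add_one (d * (N + 1))
  have h5 : ⌊c * (N + 1)⌋ < ⌈d * (N + 1)⌉ := by
    have : (⌊c * (N + 1)⌋ : ℝ) < (⌈d * (N + 1)⌉ : ℝ) := by nlinarith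
    exact_mod_cast this
  have h6 : (((⌈d * (N + 1)⌉ - ⌊c * (N + 1)⌋ - 1).toNat : ℕ) : ℝ) = ⌈d * (N + 1)⌉ - ⌊c * (N + 1)⌋ - 1 := by
    have : (((⌈d * (N + 1)⌉ - ⌊c * (N + 1)⌋ - 1).toNat : ℕ) : ℤ) = ⌈d * (N + 1)⌉ - ⌊c * (N + 1)⌋ - 1 :=
      Int.toNat_of_nonneg (by omega)
    exact_mod_cast this
  rw [h6]
  constructor <;> linarith

/-- the number of poles in `(0, 1)` -/
def NN (j : ℕ) : ℕ := if Even j then j + 1 else 2 * (j + 1)

theorem NN_ge (j : ℕ) : j + 1 ≤ NN j := by
  unfold NN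
  split_ifs <;> omega

theorem main : ∃ (Ω : Set ℂ) (g : ℂ → ℂ) (m : ℕ → ℂ → ℂ),
    IsOpen Ω ∧ (∀ x : ℝ, 0 < x → x < 1 → (x : ℂ) ∈ Ω) ∧ AnalyticOnNhd ℂ g Ω ∧
    (∀ x : ℝ, (g x).im = 0) ∧ (∀ j, IsNevanlinna (m j)) ∧
    (∀ c d : ℝ, 0 ≤ c → c < d → d ≤ 1 →
      Tendsto (fun j => poleCount (m j) ((fun x : ℝ => (x : ℂ)) '' Set.Ioo c d)) atTop atTop) ∧
    (∀ c d : ℝ, 0 ≤ c → c < d → d ≤ 1 → ¬ ∃ μ : ℝ,
      Tendsto (fun j : ℕ => (poleCount (m j) ((fun x : ℝ => (x : ℂ)) '' Set.Ioo c d) : ℝ) / j) atTop (𝓝 μ)) ∧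
    (∀ U : Set ℂ, IsOpen U → Bornology.IsBounded U → closure U ⊆ Ω →
      (∃ x : ℝ, 0 < x ∧ x < 1 ∧ (x : ℂ) ∈ U) →
      Tendsto (fun j => (zeroCount (fun z => m j z - g z) U : ℤ) - poleCount (m j) U) atTop atTop) := by
  classical
  set x : ℕ → ℝ := TopologicalSpace.denseSeq ℝ with hx
  set a : ℕ → ℝ := fun j => 1 / ((j : ℝ) + 1) with ha
  have ha0 : ∀ j, 0 < a j := fun j => by rw [ha]; positivity
  set MM : ℕ → ℕ := fun j => NN j + j with hMM
  set P : ℕ → Polynomial ℝ := fun j => PP x (a j) j (MM j) with hP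
  set K : ℕ → ℕ := fun j => 2 * j * MM j + 1 with hK
  have hpos : ∀ j, ∀ t : ℝ, 0 < (P j).eval t := fun j => PP_pos x (a j) (ha0 j) j (MM j)
  have hε : ∀ j, ∃ ε : ℝ, 0 < ε ∧ ∀ z : ℂ, 0 < z.im →
      0 < (gg z + ε * ff (P j) (K j) (tt (NN j)) (NN j) z).im := fun j =>
    exists_eps (P j) (K j) (PP_deg x (a j) j (MM j)) (hpos j) (tt (NN j)) (NN j) (tt_mem (NN j))
  choose ε hε0 hε1 using hε
  have hNpos : ∀ j, 0 < NN j := fun j => by have := NN_ge j; omega
  set m : ℕ → ℂ → ℂ := fun j => mm (P j) (K j) (tt (NN j)) (NN j) (ε j) with hm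
  have hΩ : ∀ z : ℂ, z ∈ Complex.integerComplement → ∀ n : ℤ, z ≠ n := by
    intro z hz n h
    rw [Complex.mem_integerComplement_iff] at hz
    exact hz ⟨n, h.symm⟩
  have hcount : ∀ j (U : Set ℂ), (∀ z ∈ U, ∀ n : ℤ, z ≠ n) → ∀ S : Finset ℕ,
      (∀ i, i ∈ S ↔ i < NN j ∧ ((tt (NN j) i : ℝ) : ℂ) ∈ U) → poleCount (m j) U = S.card := by
    intro j U hU S hS
    exact poleCount_eq (P j) (K j) (hpos j) (tt (NN j)) (NN j) (tt_mem (NN j))
      (fun i k _ _ h => tt_inj (NN j) i k h) (ε j) (hε0 j) U hU S hS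
  have hcb : ∀ c d : ℝ, 0 ≤ c → c < d → d ≤ 1 → ∀ j,
      (d - c) * (NN j + 1) - 1 ≤ (poleCount (m j) ((fun x : ℝ => (x : ℂ)) '' Set.Ioo c d) : ℝ) ∧
      (poleCount (m j) ((fun x : ℝ => (x : ℂ)) '' Set.Ioo c d) : ℝ) ≤ (d - c) * (NN j + 1) + 1 := by
    intro c d hc hcd hd j
    have h1 := hcount j ((fun x : ℝ => (x : ℂ)) '' Set.Ioo c d) (by
      rintro z ⟨y, hy, rfl⟩ n h
      have h2 : y = (n : ℝ) := by
        have h0 : (y : ℂ) = (n : ℂ) := h
        exact_mod_cast h0
      rw [h2] at hy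
      have h3 : (0 : ℝ) < n := lt_of_le_of_lt hc hy.1
      have h4 : (n : ℝ) < 1 := lt_of_lt_of_le hy.2 hd
      have h5 : 0 < n := by exact_mod_cast h3
      have h6 : n < 1 := by exact_mod_cast h4
      omega) ((range (NN j)).filter fun i => c < tt (NN j) i ∧ tt (NN j) i < d) (by
      intro i
      rw [Finset.mem_filter, Finset.mem_range]
      constructor
      · rintro ⟨h1, h2⟩
        exact ⟨h1, tt (NN j) i, h2, rfl⟩
      · rintro ⟨h1, y, hy, hy2⟩
        have h3 : y = tt (NN j) i := Complex.ofReal_injective hy2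
        rw [← h3]
        exact ⟨h1, hy.1, hy.2⟩)
    rw [h1]
    exact count_bd c d hc hcd hd (NN j) _ (by
      intro i
      rw [Finset.mem_filter, Finset.mem_range])
  refine ⟨Complex.integerComplement, gg, m, isOpen_compl_range_intCast, ?_, ?_, ?_, ?_, ?_, ?_, ?_⟩
  · intro y hy0 hy1
    rw [Complex.mem_integerComplement_iff]
    rintro ⟨n, hn⟩
    have h1 : (n : ℝ) = y := by exact_mod_cast hn
    rw [← h1] at hy0 hy1
    have h2 : 0 < n := by exact_mod_cast hy0
    have h3 : n < 1 := by exact_mod_cast hy1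
    omega
  · intro z hz
    exact gg_ana z (hΩ z hz)
  · intro y
    have h1 := gg_conj (y : ℂ)
    rw [Complex.conj_ofReal] at h1
    have h2 := congrArg Complex.im h1
    rw [Complex.conj_im] at h2
    linarith
  · intro j
    refine ⟨fun z => mm_mero _ _ _ _ _ z, fun z hz => ?_, fun z hz => hε1 j z hz, fun z hz => ?_⟩
    · apply mm_ana
      · intro n h
        apply hz
        rw [h]
        simp
      · intro i _ h
        apply hz
        rw [← h]
        simp
    · exact lower (P j) (K j) (tt (NN j)) (NN j) (ε j) (hε1 j) z hz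
  · intro c d hc hcd hd
    have h1 : Tendsto (fun j : ℕ => (poleCount (m j) ((fun x : ℝ => (x : ℂ)) '' Set.Ioo c d) : ℝ)) atTop atTop := by
      have h2 : Tendsto (fun j : ℕ => (d - c) * (j : ℝ) - 1) atTop atTop := by
        apply tendsto_atTop_add_const_right
        exact (tendsto_natCast_atTop_atTop).const_mul_atTop (by linarith)
      refine tendsto_atTop_mono (fun j => ?_) h2
      refine le_trans ?_ (hcb c d hc hcd hd j).1
      have h3 : (j : ℝ) + 1 ≤ NN j := by exact_mod_cast NN_ge j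
      nlinarith
    exact tendsto_natCast_atTop_iff.1 h1
  · rintro c d hc hcd hd ⟨μ, hμ⟩
    have heven : Tendsto (fun k : ℕ => (poleCount (m (2 * k)) ((fun x : ℝ => (x : ℂ)) '' Set.Ioo c d) : ℝ) /
        ((2 * k : ℕ) : ℝ)) atTop (𝓝 μ) := by
      have : Tendsto (fun k : ℕ => 2 * k) atTop atTop :=
        tendsto_atTop_mono (fun k => by show k ≤ 2 * k; omega) tendsto_id
      exact hμ.comp this
    have hodd : Tendsto (fun k : ℕ => (poleCount (m (2 * k + 1)) ((fun x : ℝ => (x : ℂ)) '' Set.Ioo c d) : ℝ) /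
        ((2 * k + 1 : ℕ) : ℝ)) atTop (𝓝 μ) := by
      have : Tendsto (fun k : ℕ => 2 * k + 1) atTop atTop :=
        tendsto_atTop_mono (fun k => by show k ≤ 2 * k + 1; omega) tendsto_id
      exact hμ.comp this
    -- even: at most (d - c) + small
    have h1 : μ ≤ d - c := by
      have hlim : Tendsto (fun k : ℕ => (d - c) + (2 * (d - c) + 1) * (1 / (k : ℝ))) atTop
          (𝓝 ((d - c) + (2 * (d - c) + 1) * 0)) :=
        tendsto_const_nhds.add (tendsto_one_div_atTop_nhds_zero_nat.const_mul _)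
      rw [mul_zero, add_zero] at hlim
      refine le_of_tendsto_of_tendsto heven hlim ?_
      filter_upwards [eventually_ge_atTop 1] with k hk
      have h2 := (hcb c d hc hcd hd (2 * k)).2
      have h3 : NN (2 * k) = 2 * k + 1 := by
        unfold NN
        rw [if_pos (even_two_mul k)]
      rw [h3] at h2
      have hk' : (1 : ℝ) ≤ k := by exact_mod_cast hk
      have hk0 : (0 : ℝ) < k := by linarith
      rw [div_le_iff₀ (by positivity)]
      push_cast at h2 ⊢
      have e : ((d - c) + (2 * (d - c) + 1) * (1 / (k : ℝ))) * (2 * k) =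
          (d - c) * (2 * k) + 2 * (2 * (d - c) + 1) := by
        field_simp
      rw [e]
      nlinarith
    have h4 : 2 * (d - c) ≤ μ := by
      have hlim : Tendsto (fun k : ℕ => 2 * (d - c) - 1 * (1 / (k : ℝ))) atTop
          (𝓝 (2 * (d - c) - 1 * 0)) :=
        tendsto_const_nhds.sub (tendsto_one_div_atTop_nhds_zero_nat.const_mul _)
      rw [mul_zero, sub_zero] at hlim
      refine le_of_tendsto_of_tendsto hlim hodd ?_
      filter_upwards [eventually_ge_atTop 1] with k hk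
      have h2 := (hcb c d hc hcd hd (2 * k + 1)).1
      have h3 : NN (2 * k + 1) = 2 * (2 * k + 1 + 1) := by
        unfold NN
        rw [if_neg (by simp)]
      rw [h3] at h2
      have hk' : (1 : ℝ) ≤ k := by exact_mod_cast hk
      have hk0 : (0 : ℝ) < k := by linarith
      rw [le_div_iff₀ (by positivity)]
      push_cast at h2 ⊢
      have e : (2 * (d - c) - 1 * (1 / (k : ℝ))) * (2 * k + 1) =
          (d - c) * (4 * k + 2) - 2 - 1 / k := by
        field_simp
        ring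
      rw [e]
      have h5 : 0 < 1 / (k : ℝ) := by positivity
      nlinarith
    linarith
  · rintro U hUo hUb hUΩ ⟨y, hy0, hy1, hyU⟩
    -- a point of the dense sequence in U
    have hopen : IsOpen ((fun t : ℝ => (t : ℂ)) ⁻¹' U) := hUo.preimage Complex.continuous_ofReal
    obtain ⟨t, ht, l, hl⟩ := (TopologicalSpace.denseRange_denseSeq ℝ).exists_mem_open hopen ⟨y, hyU⟩ |>.elim
      fun l hl => (⟨TopologicalSpace.denseSeq ℝ l, hl, l, rfl⟩ :
        ∃ t : ℝ, (t : ℂ) ∈ U ∧ ∃ l, TopologicalSpace.denseSeq ℝ l = t)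
    have hxl : ((x l : ℝ) : ℂ) ∈ U := by
      rw [hx, hl]
      exact ht
    have hlim : Tendsto (fun j : ℕ => ((x l : ℝ) : ℂ) + (a j : ℂ) * Complex.I) atTop (𝓝 ((x l : ℝ) : ℂ)) := by
      have h1 : Tendsto (fun j : ℕ => a j) atTop (𝓝 0) := tendsto_one_div_add_atTop_nhds_zero_nat
      have h2 : Tendsto (fun j : ℕ => ((a j : ℝ) : ℂ)) atTop (𝓝 ((0 : ℝ) : ℂ)) :=
        (Complex.continuous_ofReal.tendsto _).comp h1
      have h3 := (h2.mul_const Complex.I).const_add ((x l : ℝ) : ℂ)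
      simpa using h3
    have hevU : ∀ᶠ j : ℕ in atTop, ((x l : ℝ) : ℂ) + (a j : ℂ) * Complex.I ∈ U :=
      hlim.eventually_mem (hUo.mem_nhds hxl)
    have hbound : ∀ᶠ j : ℕ in atTop, (j : ℤ) ≤ (zeroCount (fun z => m j z - gg z) U : ℤ) - poleCount (m j) U := by
      filter_upwards [hevU, eventually_gt_atTop l] with j hj hjl
      have h1 : MM j ≤ zeroCount (fun z => m j z - gg z) U := by
        apply zeroCount_ge _ (fun z => (mm_mero _ _ _ _ _ z).sub (gg_mero z)) U hUb _ hj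
        exact zero_order x (a j) (ha0 j) j (MM j) (K j) (tt (NN j)) (NN j) (hNpos j) (ε j) (hε0 j) l hjl
      have h2 : poleCount (m j) U ≤ NN j := by
        rw [hcount j U (fun z hz => hΩ z (hUΩ (subset_closure hz)))
          ((range (NN j)).filter fun i => ((tt (NN j) i : ℝ) : ℂ) ∈ U) (by
            intro i
            rw [Finset.mem_filter, Finset.mem_range])]
        exact (Finset.card_filter_le _ _).trans (by rw [card_range])
      have h3 : MM j = NN j + j := rfl
      omega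
    exact tendsto_atTop_mono' _ hbound tendsto_natCast_atTop_atTop

end Pool.Agent.TH880.NV
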