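import Pool.Agent.TH880.AL9

/-! The multiplicity of the sign representation is a natural number (helper880). -/

set_option autoImplicit false

namespace Pool.Agent.TH880.AL

universe u

section Gen

/-- for a finite group, the average of a one-dimensional character times the trace of a
representation is a natural number -/
theorem avg_trace {k : Type*} [Field k] [CharZero k] {G : Type*} [Group G] [Fintype G]
    {M : Type*} [AddCommGroup M] [Module k M] [FiniteDimensional k M]
    (r : G → Module.End k M) (hr : ∀ g h, r (g * h) = r g * r h) (s : G → k)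
    (hs : ∀ g h, s (g * h) = s g * s h) :
    ∃ n : ℕ, ∑ g, s g * LinearMap.trace k M (r g) = (Fintype.card G : k) * (n : k) := by
  let P : Module.End k M := ∑ g, s g • r g
  have hf : (Fintype.card G : k) ≠ 0 := by exact_mod_cast Fintype.card_ne_zero
  have h1 : ∀ g : G, (s g • r g) * P = P := by
    intro g
    change (s g • r g) * (∑ h, s h • r h) = ∑ h, s h • r h
    rw [Finset.mul_sum, ← Equiv.sum_comp (Equiv.mulLeft g) fun h => s h • r h]
    apply Finset.sum_congr rfl
    intro h _
    rw [smul_mul_smul_comm, ← hr, ← hs]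
    rfl
  have hPP : P * P = (Fintype.card G : k) • P := by
    calc P * P = ∑ g, (s g • r g) * P := by rw [← Finset.sum_mul]
      _ = ∑ g : G, P := Finset.sum_congr rfl fun g _ => h1 g
      _ = (Fintype.card G : k) • P := by
        rw [Finset.sum_const, Finset.card_univ, Nat.cast_smul_eq_nsmul]
  let e : Module.End k M := (Fintype.card G : k)⁻¹ • P
  have he : IsIdempotentElem e := by
    change ((Fintype.card G : k)⁻¹ • P) * ((Fintype.card G : k)⁻¹ • P) = (Fintype.card G : k)⁻¹ • P
    rw [smul_mul_smul_comm, hPP, smul_smul, mul_assoc, inv_mul_cancel₀ hf, mul_one]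
  have ht := (LinearMap.IsIdempotentElem.isProj_range e he).trace
  refine ⟨Module.finrank k (LinearMap.range e), ?_⟩
  rw [← ht]
  change _ = (Fintype.card G : k) * LinearMap.trace k _ ((Fintype.card G : k)⁻¹ • P)
  rw [map_smul, smul_eq_mul, ← mul_assoc, mul_inv_cancel₀ hf, one_mul]
  change _ = LinearMap.trace k _ (∑ g, s g • r g)
  rw [map_sum]
  apply Finset.sum_congr rfl
  intro g _
  rw [map_smul, smul_eq_mul]

end Gen

section Pos
variable {k : Type u} [Field k] [CharZero k] {d : ℕ}

omit [CharZero k] in
theorem rho_mul (σ τ : Equiv.Perm (Fin d)) : rho k (σ * τ) = rho k σ ∘ₗ rho k τ := by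
  ext y
  rw [LinearMap.comp_apply, rho_coe, rho_coe, rho_coe, fw_fw]
  rfl

/-- the sign of a permutation as an element of the field -/
def sg (k : Type*) [Field k] {d : ℕ} (σ : Equiv.Perm (Fin d)) : k := ((Equiv.Perm.sign σ : ℤ) : k)

omit [CharZero k] in
theorem sg_mul (σ τ : Equiv.Perm (Fin d)) : sg k (σ * τ) = sg k σ * sg k τ := by
  rw [sg, sg, sg, map_mul]; push_cast; rfl

theorem sign_trace : ∃ r : ℕ, ∑ σ : Equiv.Perm (Fin d), sg k σ * LinearMap.trace k _ (rho k σ) =
    (d.factorial : k) * (r : k) := by
  obtain ⟨n, hn⟩ := avg_trace (fun σ : Equiv.Perm (Fin d) => rho k σ) (fun σ τ => rho_mul σ τ)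
    (fun σ => sg k σ) (fun σ τ => sg_mul σ τ)
  refine ⟨n, ?_⟩
  rw [hn, Fintype.card_perm, Fintype.card_fin]

end Pos

end Pool.Agent.TH880.AL
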