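import Mathlib

/-! Sums over the words fixed by a permutation (helper880). -/

set_option autoImplicit false

namespace Pool.Agent.TH880.AL

section ZS
variable {K : Type*} [Field K] {X : Type*} [Fintype X] [DecidableEq X]

theorem zsum (x : X → K) (M : ℕ) (hp : ∀ m : ℕ, m + 1 ≤ M → ∑ a, x a ^ (m + 1) = (-1) ^ m) :
    ∀ (n : ℕ) (σ : Equiv.Perm (Fin n)) (f : Fin n → ℕ), ∑ i, (f i + 1) ≤ M →
      (∑ w : Fin n → X, if w ∘ σ = w then ∏ i, x (w i) ^ (f i + 1) else 0) =
        ((Equiv.Perm.sign σ : ℤ) : K) * (-1) ^ (∑ i, f i) := by
  intro n
  induction n with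
  | zero =>
    intro σ f _
    have : σ = 1 := Subsingleton.elim _ _
    subst this
    simp
  | succ n ih =>
    intro σ f hf
    obtain ⟨⟨p, τ⟩, rfl⟩ : ∃ q, σ = Equiv.Perm.decomposeFin.symm q :=
      ⟨Equiv.Perm.decomposeFin σ, by simp⟩
    rw [← Equiv.sum_comp (Fin.insertNthEquiv (fun _ : Fin (n + 1) => X) 0), Fintype.sum_prod_type]
    have hw : ∀ (a : X) (v : Fin n → X),
        (Fin.insertNthEquiv (fun _ : Fin (n + 1) => X) 0) (a, v) = Fin.cons a v := by
      intro a v
      simp [Fin.insertNthEquiv]
    simp only [hw]
    rw [Equiv.Perm.decomposeFin.symm_sign]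
    rw [Fin.sum_univ_succ] at hf
    rcases Fin.eq_zero_or_eq_succ p with rfl | ⟨b, rfl⟩
    · have hc : ∀ (a : X) (v : Fin n → X),
          ((Fin.cons a v : Fin (n + 1) → X) ∘ Equiv.Perm.decomposeFin.symm (0, τ) = Fin.cons a v) ↔
            v ∘ τ = v := by
        intro a v
        constructor
        · intro h
          funext i
          have := congrFun h i.succ
          simpa using this
        · intro h
          funext i
          refine Fin.cases ?_ (fun j => ?_) i
          · simp
          · have := congrFun h j
            simpa using this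
      simp only [hc, Fin.prod_univ_succ, Fin.cons_zero, Fin.cons_succ]
      have e1 : ∀ a : X, (∑ v : Fin n → X, if v ∘ τ = v then
          x a ^ (f 0 + 1) * ∏ i : Fin n, x (v i) ^ (f i.succ + 1) else 0) =
          x a ^ (f 0 + 1) * (((Equiv.Perm.sign τ : ℤ) : K) * (-1) ^ (∑ i : Fin n, f i.succ)) := by
        intro a
        rw [← ih τ (fun i => f i.succ) (by omega), Finset.mul_sum]
        apply Finset.sum_congr rfl
        intro v _
        rw [mul_ite, mul_zero]
      rw [Finset.sum_congr rfl fun a _ => e1 a, ← Finset.sum_mul, hp _ (by omega),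
        Fin.sum_univ_succ, pow_add]
      simp
      ring
    · have hc : ∀ (a : X) (v : Fin n → X),
          ((Fin.cons a v : Fin (n + 1) → X) ∘ Equiv.Perm.decomposeFin.symm (b.succ, τ) =
            Fin.cons a v) ↔ (v b = a ∧ v ∘ τ = v) := by
        intro a v
        constructor
        · intro h
          have h0 := congrFun h 0
          simp only [Function.comp_apply, Equiv.Perm.decomposeFin_symm_apply_zero, Fin.cons_succ,
            Fin.cons_zero] at h0
          refine ⟨h0, ?_⟩
          funext i
          have := congrFun h i.succ
          simp only [Function.comp_apply, Equiv.Perm.decomposeFin_symm_apply_succ,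
            Fin.cons_succ] at this
          by_cases hi : τ i = b
          · rw [hi, Equiv.swap_apply_right, Fin.cons_zero] at this
            rw [Function.comp_apply, hi, h0, this]
          · rw [Equiv.swap_apply_of_ne_of_ne (Fin.succ_ne_zero _)
              (fun hh => hi (Fin.succ_injective _ hh)), Fin.cons_succ] at this
            exact this
        · rintro ⟨h0, h1⟩
          funext i
          refine Fin.cases ?_ (fun j => ?_) i
          · simp only [Function.comp_apply, Equiv.Perm.decomposeFin_symm_apply_zero, Fin.cons_succ,
              Fin.cons_zero]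
            exact h0
          · simp only [Function.comp_apply, Equiv.Perm.decomposeFin_symm_apply_succ, Fin.cons_succ]
            have h2 : v (τ j) = v j := congrFun h1 j
            by_cases hj : τ j = b
            · rw [hj, Equiv.swap_apply_right, Fin.cons_zero, ← h2, hj, h0]
            · rw [Equiv.swap_apply_of_ne_of_ne (Fin.succ_ne_zero _)
                (fun hh => hj (Fin.succ_injective _ hh)), Fin.cons_succ, h2]
      simp only [hc, Fin.prod_univ_succ, Fin.cons_zero, Fin.cons_succ]
      rw [Finset.sum_comm]
      have e1 : ∀ v : Fin n → X, (∑ a : X, if v b = a ∧ v ∘ τ = v then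
          x a ^ (f 0 + 1) * ∏ i : Fin n, x (v i) ^ (f i.succ + 1) else 0) =
          if v ∘ τ = v then ∏ i : Fin n, x (v i) ^
            ((f i.succ + if i = b then f 0 + 1 else 0) + 1) else 0 := by
        intro v
        rw [Finset.sum_eq_single (v b)]
        · by_cases hv : v ∘ τ = v
          · rw [if_pos ⟨rfl, hv⟩, if_pos hv]
            have : ∀ i : Fin n, x (v i) ^ ((f i.succ + if i = b then f 0 + 1 else 0) + 1) =
                x (v i) ^ (f i.succ + 1) * (if i = b then x (v i) ^ (f 0 + 1) else 1) := by
              intro i
              split_ifs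
              · rw [← pow_add]; congr 1; omega
              · rw [mul_one, add_zero]
            rw [Finset.prod_congr rfl fun i _ => this i, Finset.prod_mul_distrib,
              Finset.prod_ite_eq' Finset.univ b]
            simp only [Finset.mem_univ, if_true]
            ring
          · rw [if_neg (fun hh => hv hh.2), if_neg hv]
        · intro a _ ha
          rw [if_neg (fun hh => ha hh.1.symm)]
        · simp
      rw [Finset.sum_congr rfl fun v _ => e1 v]
      have e2 : ∑ i : Fin n, (f i.succ + if i = b then f 0 + 1 else 0) =
          (∑ i : Fin n, f i.succ) + (f 0 + 1) := by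
        rw [Finset.sum_add_distrib, Finset.sum_ite_eq' Finset.univ b]
        simp
      have e3 : ∑ i : Fin n, ((f i.succ + if i = b then f 0 + 1 else 0) + 1) ≤ M := by
        rw [Finset.sum_add_distrib, e2]
        rw [Finset.sum_add_distrib] at hf
        omega
      rw [ih τ (fun i => f i.succ + if i = b then f 0 + 1 else 0) e3, e2, Fin.sum_univ_succ,
        if_neg (Fin.succ_ne_zero b)]
      push_cast
      ring

end ZS

end Pool.Agent.TH880.AL
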