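import Pool.Agent.TH880.AL3b
import Pool.Agent.TH880.AL10
import Pool.Agent.TH880.AL11

/-! The alternating specialization in degree `d` is a natural number (helper880). -/

set_option autoImplicit false

namespace Pool.Agent.TH880.AL

universe u

section Comb
variable {d : ℕ}

theorem cont_apply (w : Fin d → Fin d) (j : Fin d) :
    cont w j = Fintype.card {i // w i = j} := by
  rw [cont, Finsupp.finsetSum_apply, Fintype.card_subtype, Finset.card_filter]
  apply Finset.sum_congr rfl
  intro i _
  rw [Finsupp.single_apply]

theorem cont_comp (w : Fin d → Fin d) (π : Equiv.Perm (Fin d)) : cont (w ∘ π) = cont w := by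
  rw [cont, cont]
  exact Equiv.sum_comp π fun i => Finsupp.single (w i) (1 : ℕ)

theorem exists_perm (w w' : Fin d → Fin d) (h : cont w = cont w') :
    ∃ π : Equiv.Perm (Fin d), w ∘ π = w' := by
  have e : ∀ c : Fin d, Nonempty ({i // w' i = c} ≃ {i // w i = c}) := by
    intro c
    rw [← Fintype.card_eq, ← cont_apply, ← cont_apply, h]
  exact ⟨Equiv.ofFiberEquiv fun c => (e c).some, funext fun a => Equiv.ofFiberEquiv_map _ a⟩

theorem exists_word (β : Fin d →₀ ℕ) (h : β.degree = d) : ∃ w : Fin d → Fin d, cont w = β := by
  obtain ⟨l, hl⟩ := Quot.exists_rep (Finsupp.toMultiset β)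
  have hl' : (l : Multiset (Fin d)) = Finsupp.toMultiset β := hl
  have hlen : l.length = d := by
    have := congrArg Multiset.card hl'
    rw [Multiset.coe_card, Finsupp.card_toMultiset] at this
    rw [this]
    refine Eq.trans ?_ h
    rw [Finsupp.degree_eq_sum, Finsupp.sum_fintype]
    · rfl
    · simp
  have hc : ∀ j, l.count j = β j := by
    intro j
    have := congrArg (Multiset.count j) hl'
    rwa [Multiset.coe_count, Finsupp.count_toMultiset] at this
  refine ⟨fun i => l.get (Fin.cast hlen.symm i), ?_⟩
  ext j
  rw [← hc j, cont, Finsupp.finsetSum_apply, Fin.sum_univ_def, ← count_map_w]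
  congr 1
  apply List.ext_get
  · simp [hlen]
  · intro n h1 h2
    simp

theorem cont_degree (w : Fin d → Fin d) : (cont w).degree = d := by
  rw [cont, map_sum]
  simp

theorem sum_stb (β : Fin d →₀ ℕ) (h : β.degree = d) :
    ∑ w : Fin d → Fin d, (if cont w = β then stb w else 0) = d.factorial := by
  obtain ⟨w0, rfl⟩ := exists_word β h
  have h1 : ∀ w : Fin d → Fin d, (if cont w = cont w0 then stb w else 0) =
      ∑ π : Equiv.Perm (Fin d), if w0 ∘ π = w then 1 else 0 := by
    intro w
    by_cases hw : cont w = cont w0
    · rw [if_pos hw]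
      obtain ⟨π0, rfl⟩ := exists_perm w0 w hw.symm
      rw [stb, ← Equiv.sum_comp (Equiv.mulLeft π0) fun π : Equiv.Perm (Fin d) =>
        if w0 ∘ π = w0 ∘ π0 then 1 else 0]
      rfl
    · rw [if_neg hw]
      symm
      apply Finset.sum_eq_zero
      intro π _
      rw [if_neg]
      rintro rfl
      exact hw (cont_comp w0 π)
  rw [Finset.sum_congr rfl fun w _ => h1 w, Finset.sum_comm]
  simp [Fintype.card_perm]

end Comb

section Final
variable {k : Type u} [Field k] [CharZero k] {d : ℕ} {K : Type*} [Field K] [Algebra k K]

theorem xp_cont (x : Fin d → K) (w : Fin d → Fin d) : xp x (cont w) = ∏ i, x (w i) := by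
  have h : ∀ i, cont w i = ∑ j, if w j = i then 1 else 0 := by
    intro i
    rw [cont, Finsupp.finsetSum_apply]
    apply Finset.sum_congr rfl
    intro j _
    rw [Finsupp.single_apply]
  rw [xp]
  simp only [h, ← Finset.prod_pow_eq_pow_sum]
  rw [Finset.prod_comm]
  apply Finset.prod_congr rfl
  intro j _
  rw [Finset.prod_eq_single (w j)]
  · simp
  · intro i _ hi
    rw [if_neg (Ne.symm hi), pow_zero]
  · simp

theorem positivity (x : Fin d → K)
    (hp : ∀ m : ℕ, m + 1 ≤ d → ∑ a, x a ^ (m + 1) = (-1) ^ m) :
    ∃ r : ℕ, ∑ β ∈ (Finset.univ : Finset (Fin d)).finsuppAntidiag d,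
      (Module.finrank k (altPart k d β) : K) * xp x β = r := by
  have : CharZero K := charZero_of_injective_algebraMap (algebraMap k K).injective
  obtain ⟨r, hr⟩ := sign_trace (k := k) (d := d)
  refine ⟨r, ?_⟩
  have hf : (d.factorial : K) ≠ 0 := by exact_mod_cast Nat.factorial_ne_zero d
  apply mul_left_cancel₀ hf
  calc (d.factorial : K) * ∑ β ∈ (Finset.univ : Finset (Fin d)).finsuppAntidiag d,
        (Module.finrank k (altPart k d β) : K) * xp x β
      = ∑ β ∈ (Finset.univ : Finset (Fin d)).finsuppAntidiag d,
          ∑ w : Fin d → Fin d, (if cont w = β then (stb w : K) *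
            ((Module.finrank k (altPart k d (cont w)) : K) * ∏ i, x (w i)) else 0) := by
        rw [Finset.mul_sum]
        apply Finset.sum_congr rfl
        intro β hβ
        rw [mem_ad] at hβ
        rw [← sum_stb β hβ]
        push_cast
        rw [Finset.sum_mul]
        apply Finset.sum_congr rfl
        intro w _
        split_ifs with h
        · rw [← xp_cont, h]
        · rw [zero_mul]
    _ = ∑ w : Fin d → Fin d, (stb w : K) *
            ((Module.finrank k (altPart k d (cont w)) : K) * ∏ i, x (w i)) := by
        rw [Finset.sum_comm]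
        apply Finset.sum_congr rfl
        intro w _
        rw [Finset.sum_ite_eq, if_pos ((mem_ad _ _).2 (cont_degree w))]
    _ = ∑ w : Fin d → Fin d, ∑ σ : Equiv.Perm (Fin d),
          algebraMap k K (LinearMap.trace k _ (rho k σ)) *
            (if w ∘ σ = w then ∏ i, x (w i) ^ (0 + 1) else 0) := by
        apply Finset.sum_congr rfl
        intro w _
        have h := congrArg (algebraMap k K) (trace_formula (k := k) w)
        rw [map_mul, map_natCast, map_natCast, map_sum] at h
        rw [← mul_assoc, h, Finset.sum_mul]
        apply Finset.sum_congr rfl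
        intro σ _
        split_ifs
        · simp
        · simp
    _ = ∑ σ : Equiv.Perm (Fin d), algebraMap k K (LinearMap.trace k _ (rho k σ)) *
          ((Equiv.Perm.sign σ : ℤ) : K) := by
        rw [Finset.sum_comm]
        apply Finset.sum_congr rfl
        intro σ _
        rw [← Finset.mul_sum]
        have := zsum x d hp d σ (fun _ => 0) (by simp)
        rw [this]
        simp
    _ = (d.factorial : K) * r := by
        have h := congrArg (algebraMap k K) hr
        rw [map_mul, map_natCast, map_natCast, map_sum] at h
        rw [← h]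
        apply Finset.sum_congr rfl
        intro σ _
        rw [map_mul, sg, map_intCast, mul_comm]

end Final

end Pool.Agent.TH880.AL
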