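import Pool.Agent.TH880.AL9

/-! Symmetry of the dimensions under permutations of the variables (helper880). -/

set_option autoImplicit false

namespace Pool.Agent.TH880.AL

open scoped TensorProduct

universe u

section Sym
variable {k : Type u} [Field k] {d : ℕ}

theorem map_map_inv (π : Equiv.Perm (Fin d)) (m : FreeMagma (Fin d)) :
    FreeMagma.map π (FreeMagma.map (π⁻¹ : Equiv.Perm (Fin d)) m) = m := by
  induction m using FreeMagma.recOnMul with
  | ih1 i => simp [FreeMagma.map_of]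
  | ih2 a b ha hb => rw [map_mul, map_mul, ha, hb]

theorem mapDomain_inv (π : Equiv.Perm (Fin d)) (β : Fin d →₀ ℕ) :
    (β.mapDomain π).mapDomain (π⁻¹ : Equiv.Perm (Fin d)) = β := by
  rw [← Finsupp.mapDomain_comp]
  have : (⇑(π⁻¹ : Equiv.Perm (Fin d)) ∘ ⇑π) = id := by
    funext i; simp
  rw [this, Finsupp.mapDomain_id]

theorem altPart_perm_eq (π : Equiv.Perm (Fin d)) (β : Fin d →₀ ℕ) :
    altPart k d (β.mapDomain π) = (altPart k d β).map (fw π) := by
  apply le_antisymm
  · rw [altPart, Submodule.span_le]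
    rintro y ⟨m, hm, rfl⟩
    refine ⟨cls (mono k (FreeMagma.map (π⁻¹ : Equiv.Perm (Fin d)) m)),
      Submodule.subset_span ⟨_, ?_, rfl⟩, ?_⟩
    · rw [mdeg_map, hm, mapDomain_inv]
    · rw [fw_mono, map_map_inv]
  · rintro y ⟨z, hz, rfl⟩
    exact fw_altPart π β z hz

theorem finrank_altPart_le (π : Equiv.Perm (Fin d)) (β : Fin d →₀ ℕ) :
    Module.finrank k (altPart k d (β.mapDomain π)) ≤ Module.finrank k (altPart k d β) := by
  rw [altPart_perm_eq]
  exact Submodule.finrank_map_le _ _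

theorem finrank_altPart_perm (π : Equiv.Perm (Fin d)) (β : Fin d →₀ ℕ) :
    Module.finrank k (altPart k d (β.mapDomain π)) = Module.finrank k (altPart k d β) := by
  apply le_antisymm (finrank_altPart_le π β)
  have := finrank_altPart_le (k := k) π⁻¹ (β.mapDomain π)
  rwa [mapDomain_inv] at this

theorem fw_mul (w : Fin d → Fin d) (p q : Alt k d) : fw w (p * q) = fw w p * fw w q :=
  altL_mul _ _ p q

theorem bRel_le (w : Fin d → Fin d) :
    bRel k d ≤ (bRel k d).comap (TensorProduct.map (fw w) (fw w)) := by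
  rw [bRel, Submodule.span_le]
  rintro z (⟨x, rfl⟩ | ⟨a, b, c, rfl⟩)
  · rw [SetLike.mem_coe, Submodule.mem_comap, TensorProduct.map_tmul]
    exact Submodule.subset_span (Or.inl ⟨_, rfl⟩)
  · rw [SetLike.mem_coe, Submodule.mem_comap]
    obtain ⟨a', ha⟩ := cls_surj (fw w (cls a))
    obtain ⟨b', hb⟩ := cls_surj (fw w (cls b))
    obtain ⟨c', hc⟩ := cls_surj (fw w (cls c))
    rw [map_add, map_add, TensorProduct.map_tmul, TensorProduct.map_tmul, TensorProduct.map_tmul,
      cls_mul, cls_mul, cls_mul, fw_mul, fw_mul, fw_mul, ← ha, ← hb, ← hc, ← cls_mul, ← cls_mul,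
      ← cls_mul]
    exact Submodule.subset_span (Or.inr ⟨a', b', c', rfl⟩)

/-- the action of a substitution on the space `𝓑` -/
noncomputable def fb (w : Fin d → Fin d) : BSpace k d →ₗ[k] BSpace k d :=
  (bRel k d).mapQ (bRel k d) (TensorProduct.map (fw w) (fw w)) (bRel_le w)

theorem fb_mono (w : Fin d → Fin d) (m m' : FreeMagma (Fin d)) :
    fb w ((bRel k d).mkQ (cls (mono k m) ⊗ₜ[k] cls (mono k m'))) =
      (bRel k d).mkQ (cls (mono k (FreeMagma.map w m)) ⊗ₜ[k] cls (mono k (FreeMagma.map w m'))) := by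
  rw [fb, Submodule.mkQ_apply, Submodule.mapQ_apply, TensorProduct.map_tmul, fw_mono, fw_mono,
    Submodule.mkQ_apply]

instance bPart_finite (α : Fin d →₀ ℕ) : Module.Finite k (bPart k d α) := by
  apply FiniteDimensional.span_of_finite k
  have hS : (⋃ γ ∈ Set.Iic α, {m : FreeMagma (Fin d) | mdeg m = γ}).Finite :=
    Set.Finite.biUnion (Set.finite_Iic α) fun γ _ => finite_mdeg γ
  apply Set.Finite.subset ((hS.prod hS).image fun p : FreeMagma (Fin d) × FreeMagma (Fin d) =>
    (bRel k d).mkQ (cls (mono k p.1) ⊗ₜ[k] cls (mono k p.2)))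
  rintro y ⟨m, m', hm, rfl⟩
  refine ⟨(m, m'), ⟨?_, ?_⟩, rfl⟩
  · simp only [Set.mem_iUnion]
    exact ⟨mdeg m, by rw [Set.mem_Iic, ← hm]; exact le_self_add, rfl⟩
  · simp only [Set.mem_iUnion]
    exact ⟨mdeg m', by rw [Set.mem_Iic, ← hm]; exact le_add_self, rfl⟩

theorem bPart_perm_eq (π : Equiv.Perm (Fin d)) (β : Fin d →₀ ℕ) :
    bPart k d (β.mapDomain π) = (bPart k d β).map (fb π) := by
  apply le_antisymm
  · rw [bPart, Submodule.span_le]
    rintro y ⟨m, m', hm, rfl⟩
    refine ⟨(bRel k d).mkQ (cls (mono k (FreeMagma.map (π⁻¹ : Equiv.Perm (Fin d)) m)) ⊗ₜ[k]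
      cls (mono k (FreeMagma.map (π⁻¹ : Equiv.Perm (Fin d)) m'))),
      Submodule.subset_span ⟨_, _, ?_, rfl⟩, ?_⟩
    · rw [mdeg_map, mdeg_map, ← Finsupp.mapDomain_add, hm, mapDomain_inv]
    · rw [fb_mono, map_map_inv, map_map_inv]
  · rintro y ⟨z, hz, rfl⟩
    rw [SetLike.mem_coe] at hz
    induction hz using Submodule.span_induction with
    | mem x hx =>
      obtain ⟨m, m', hm, rfl⟩ := hx
      rw [fb_mono]
      exact Submodule.subset_span ⟨_, _, by
        rw [mdeg_map, mdeg_map, ← Finsupp.mapDomain_add, hm], rfl⟩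
    | zero => rw [map_zero]; exact Submodule.zero_mem _
    | add x y _ _ hx hy => rw [map_add]; exact Submodule.add_mem _ hx hy
    | smul c x _ hx => rw [map_smul]; exact Submodule.smul_mem _ _ hx

theorem finrank_bPart_le (π : Equiv.Perm (Fin d)) (β : Fin d →₀ ℕ) :
    Module.finrank k (bPart k d (β.mapDomain π)) ≤ Module.finrank k (bPart k d β) := by
  rw [bPart_perm_eq]
  exact Submodule.finrank_map_le _ _

theorem finrank_bPart_perm (π : Equiv.Perm (Fin d)) (β : Fin d →₀ ℕ) :
    Module.finrank k (bPart k d (β.mapDomain π)) = Module.finrank k (bPart k d β) := by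
  apply le_antisymm (finrank_bPart_le π β)
  have := finrank_bPart_le (k := k) π⁻¹ (β.mapDomain π)
  rwa [mapDomain_inv] at this

end Sym

end Pool.Agent.TH880.AL
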