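import Pool.Agent.TH880.AL3d
import Pool.Agent.TH880.AL12
import Pool.Agent.TH880.AL13

/-! Conclusion: the character equations fail for twelve generators (helper880). -/

set_option autoImplicit false

namespace Pool.Agent.TH880.AL

universe u

section Sums
variable {K : Type*} [Field K] {d : ℕ}

theorem degree_mapDomain (π : Equiv.Perm (Fin d)) (β : Fin d →₀ ℕ) :
    (β.mapDomain π).degree = β.degree := by
  rw [Finsupp.degree_eq_sum, Finsupp.degree_eq_sum, ← Equiv.sum_comp π]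
  apply Finset.sum_congr rfl
  intro i _
  rw [Finsupp.mapDomain_apply π.injective]

theorem xp_mapDomain (x : Fin d → K) (π : Equiv.Perm (Fin d)) (β : Fin d →₀ ℕ) :
    xp x (β.mapDomain π) = ∏ i, x (π i) ^ β i := by
  rw [xp, ← Equiv.prod_comp π]
  apply Finset.prod_congr rfl
  intro i _
  rw [Finsupp.mapDomain_apply π.injective]

theorem xp_pow (x : Fin d → K) (j : ℕ) (π : Equiv.Perm (Fin d))
    (hx : ∀ i, x i ^ j = (-1) ^ (j - 1) * x (π i)) (β : Fin d →₀ ℕ) :
    xp x β ^ j = (-1) ^ (β.degree * (j - 1)) * xp x (β.mapDomain π) := by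
  rw [xp_mapDomain, xp, ← Finset.prod_pow, Finsupp.degree_eq_sum, mul_comm (∑ i, β i), pow_mul,
    ← Finset.prod_pow_eq_pow_sum, ← Finset.prod_mul_distrib]
  apply Finset.prod_congr rfl
  intro i _
  rw [← pow_mul, mul_comm (β i), pow_mul, hx, mul_pow]

theorem sym_sum (x : Fin d → K) (f : (Fin d →₀ ℕ) → ℕ)
    (hf : ∀ (π : Equiv.Perm (Fin d)) (β : Fin d →₀ ℕ), f (β.mapDomain π) = f β)
    (n j : ℕ) (π : Equiv.Perm (Fin d)) (hx : ∀ i, x i ^ j = (-1) ^ (j - 1) * x (π i)) :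
    ∑ β ∈ (Finset.univ : Finset (Fin d)).finsuppAntidiag n, (f β : K) * xp x β ^ j =
      (-1) ^ (n * (j - 1)) *
        ∑ β ∈ (Finset.univ : Finset (Fin d)).finsuppAntidiag n, (f β : K) * xp x β := by
  rw [Finset.mul_sum]
  apply Finset.sum_nbij' (fun β => β.mapDomain π)
    (fun β => β.mapDomain (π⁻¹ : Equiv.Perm (Fin d)))
  · intro β hβ
    rw [mem_ad] at *
    rw [degree_mapDomain, hβ]
  · intro β hβ
    rw [mem_ad] at *
    rw [degree_mapDomain, hβ]
  · intro β _
    exact mapDomain_inv π β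
  · intro β _
    have := mapDomain_inv π⁻¹ β
    rwa [inv_inv] at this
  · intro β hβ
    rw [mem_ad] at hβ
    rw [xp_pow x j π hx, hβ, hf]
    ring

end Sums

section Root
variable {K : Type*} [Field K]

theorem card_u : Fintype.card (ZMod 13)ˣ = 12 := by
  rw [ZMod.card_units_eq_totient]; decide

/-- an enumeration of the units modulo 13 -/
noncomputable def eu13 : Fin 12 ≃ (ZMod 13)ˣ := (Fintype.equivFinOfCardEq card_u).symm

/-- the numbers at which characters are evaluated -/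
noncomputable def xz (ζ : K) (i : Fin 12) : K := -ζ ^ ((eu13 i : (ZMod 13)ˣ) : ZMod 13).val

theorem xz_pow (ζ : K) (h : ζ ^ 13 = 1) (j : ℕ) (h1 : 1 ≤ j) (h2 : j ≤ 12) :
    ∃ π : Equiv.Perm (Fin 12), ∀ i, xz ζ i ^ j = (-1) ^ (j - 1) * xz ζ (π i) := by
  have hc : Nat.Coprime j 13 := by
    interval_cases j <;> decide
  refine ⟨(eu13.trans (Equiv.mulLeft (ZMod.unitOfCoprime j hc))).trans eu13.symm, fun i => ?_⟩
  rw [xz, xz, Equiv.trans_apply, Equiv.trans_apply, Equiv.apply_symm_apply, Equiv.coe_mulLeft,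
    Units.val_mul, ZMod.coe_unitOfCoprime, ZMod.val_mul, ZMod.val_natCast, ← pow_eq_pow_mod _ h]
  obtain ⟨i', rfl⟩ : ∃ i', j = i' + 1 := ⟨j - 1, by omega⟩
  rw [Nat.mod_eq_of_lt (by omega : i' + 1 < 13), Nat.add_sub_cancel,
    neg_pow (ζ ^ _), ← pow_mul, mul_comm (i' + 1) (ZMod.val _)]
  ring

theorem xz_sum (ζ : K) (h : IsPrimitiveRoot ζ 13) : ∑ i, xz ζ i = 1 := by
  have h1 : ∑ i, xz ζ i = -∑ u : (ZMod 13)ˣ, ζ ^ ((u : (ZMod 13)ˣ) : ZMod 13).val := by
    rw [← Equiv.sum_comp eu13, ← Finset.sum_neg_distrib]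
    rfl
  have h2 : ∑ u : (ZMod 13)ˣ, ζ ^ ((u : (ZMod 13)ˣ) : ZMod 13).val =
      ∑ t ∈ (Finset.range 13).erase 0, ζ ^ t := by
    apply Finset.sum_nbij (fun u : (ZMod 13)ˣ => ((u : (ZMod 13)ˣ) : ZMod 13).val)
    · intro u _
      rw [Finset.mem_erase, Finset.mem_range]
      refine ⟨?_, ZMod.val_lt _⟩
      intro h0
      have : ((u : (ZMod 13)ˣ) : ZMod 13) = 0 := (ZMod.val_eq_zero _).1 h0
      have hu := u.isUnit
      rw [this, isUnit_zero_iff] at hu
      exact absurd hu (by decide)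
    · intro u _ v _ huv
      exact Units.ext (ZMod.val_injective 13 huv)
    · intro t ht
      rw [Finset.mem_coe, Finset.mem_erase, Finset.mem_range] at ht
      have hc : Nat.Coprime t 13 := by
        obtain ⟨h1, h2⟩ := ht
        interval_cases t <;> first | decide | exact absurd rfl h1
      refine ⟨ZMod.unitOfCoprime t hc, by simp, ?_⟩
      simp only [ZMod.coe_unitOfCoprime]
      exact ZMod.val_cast_of_lt ht.2
    · intro u _; rfl
  have h3 := h.geom_sum_eq_zero (by norm_num : 1 < 13)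
  rw [← Finset.add_sum_erase _ _ (by simp : 0 ∈ Finset.range 13), pow_zero] at h3
  rw [h1, h2]
  linear_combination -h3

end Root

theorem fails (k : Type u) [Field k] [CharZero k] :
    ¬ CharacterEquations 12 (altDim k 12) (bDim k 12) := by
  intro H
  change CharacterEquations 12 (fun β => Module.finrank k (altPart k 12 β))
      (fun β => Module.finrank k (bPart k 12 β)) at H
  let K := AlgebraicClosure k
  have : CharZero K := charZero_of_injective_algebraMap (algebraMap k K).injective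
  have h13 : NeZero ((13 : ℕ) : K) := ⟨by norm_num⟩
  obtain ⟨ζ, hζ⟩ := IsAlgClosed.exists_root (Polynomial.cyclotomic 13 K)
    (by
      rw [Polynomial.degree_cyclotomic]
      have : Nat.totient 13 = 12 := by decide
      rw [this]; decide)
  have hζ' : IsPrimitiveRoot ζ 13 := Polynomial.isRoot_cyclotomic_iff.1 hζ
  have hs : ∀ (f : (Fin 12 →₀ ℕ) → ℕ)
      (_ : ∀ (π : Equiv.Perm (Fin 12)) (β : Fin 12 →₀ ℕ), f (β.mapDomain π) = f β),
      ∀ n j : ℕ, 1 ≤ n → 1 ≤ j → n * j ≤ 12 →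
      ∑ β ∈ (Finset.univ : Finset (Fin 12)).finsuppAntidiag n, (f β : K) * xp (xz ζ) β ^ j =
      (-1) ^ (n * (j - 1)) *
        ∑ β ∈ (Finset.univ : Finset (Fin 12)).finsuppAntidiag n, (f β : K) * xp (xz ζ) β := by
    intro f hf n j hn hj hnj
    have hj12 : j ≤ 12 := le_trans (Nat.le_mul_of_pos_left j (by omega)) hnj
    obtain ⟨π, hπ⟩ := xz_pow ζ hζ'.pow_eq_one j hj hj12
    exact sym_sum (xz ζ) f hf n j π hπ
  have hv := value (xz ζ) _ _ (xz_sum ζ hζ') (hs _ (fun π β => finrank_altPart_perm π β))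
    (hs _ (fun π β => finrank_bPart_perm π β)) H
  obtain ⟨r, hr⟩ := positivity (k := k) (xz ζ) (by
    intro m hm
    obtain ⟨π, hπ⟩ := xz_pow ζ hζ'.pow_eq_one (m + 1) (by omega) hm
    rw [Finset.sum_congr rfl fun i _ => hπ i, ← Finset.mul_sum, Nat.add_sub_cancel,
      Equiv.sum_comp π, xz_sum ζ hζ', mul_one])
  rw [hr] at hv
  have h0 : ((r + 10 : ℕ) : K) = 0 := by push_cast; rw [hv]; norm_num
  have := Nat.cast_eq_zero.1 h0
  omega

end Pool.Agent.TH880.AL
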