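import Pool.Agent.TH880.AL1

/-! The recursion over a field of characteristic zero (helper880). -/

set_option autoImplicit false

namespace Pool.Agent.TH880.AL

theorem snn (a b : ℕ) : Int.subNatNat a b = (a : ℤ) - b := Int.subNatNat_eq_coe

theorem sum_Icc_list {R : Type*} [AddCommMonoid R] (m : ℕ) (f : ℕ → R) :
    ∑ n ∈ Finset.Icc 1 m, f n = ((List.range' 1 m).map f).sum := by
  have : Finset.Icc 1 m = (List.range' 1 m).toFinset := by
    ext x; simp; omega
  rw [this, List.sum_toFinset]
  exact List.nodup_range' (step := 1)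

theorem chk' (m : ℕ) (h1 : 1 ≤ m) (h2 : m ≤ 12) (a b : ℤ)
    (ha : |a| ≤ 13 - (m : ℤ)) (hb : |b| ≤ 13 - (m : ℤ)) (hab : |a - b| ≤ 13 - (m : ℤ)) :
    (m : ℤ) * tT m a b + ∑ n ∈ Finset.Icc 1 m, ∑ j ∈ Finset.Icc 1 (m / n), tmZ m n j a b = 0 := by
  have h := chk
  rw [List.all_eq_true] at h
  have h := h m (by simp; omega)
  rw [List.all_eq_true] at h
  have e13 : ((13 - m : ℕ) : ℤ) = 13 - (m : ℤ) := by omega
  rw [abs_le] at ha hb hab
  have h := h (a + (13 - m)).toNat (by simp; omega)
  rw [List.all_eq_true] at h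
  have h := h (b + (13 - m)).toNat (by simp; omega)
  have ea : Int.subNatNat (a + (13 - m)).toNat (13 - m) = a := by rw [snn]; omega
  have eb : Int.subNatNat (b + (13 - m)).toNat (13 - m) = b := by rw [snn]; omega
  rw [ea, eb] at h
  simp only [Bool.or_eq_true, beq_iff_eq, Nat.ble_eq] at h
  rcases h with (h | h) | h
  · exfalso; omega
  · exfalso; omega
  · rw [rhsZ] at h
    rw [sum_Icc_list]
    rw [← h]
    congr 2

theorem chk0' (a b : ℤ) (ha : |a| ≤ 13) (hb : |b| ≤ 13) : tT 0 a b = del a b := by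
  rw [abs_le] at ha hb
  have h := chk0 (a + 13).toNat (by simp; omega) (b + 13).toNat (by simp; omega)
  have ea : Int.subNatNat (a + 13).toNat 13 = a := by rw [snn]; omega
  have eb : Int.subNatNat (b + 13).toNat 13 = b := by rw [snn]; omega
  rwa [ea, eb] at h

theorem w00 : wsum (tT 0) 1 0 0 = 0 ∧ wsum (tT 0) 1 1 1 = 1 ∧ tT 0 0 0 = 1 ∧ tT 0 1 1 = 0 := by
  decide +kernel

theorem wsum_cast {R : Type*} [Ring R] (f : ℤ → ℤ → R) (g : ℤ → ℤ → ℤ) (j : ℕ) (a b : ℤ) (r : ℤ)
    (ha : |a| ≤ r - j) (hb : |b| ≤ r - j) (hab : |a - b| ≤ r - j)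
    (h : ∀ a b : ℤ, |a| ≤ r → |b| ≤ r → |a - b| ≤ r → f a b = (g a b : R)) :
    wsum f j a b = ((wsum g j a b : ℤ) : R) := by
  rw [abs_le] at ha hb hab
  have h' : ∀ a b : ℤ, -r ≤ a → a ≤ r → -r ≤ b → b ≤ r → -r ≤ a - b → a - b ≤ r →
      f a b = (g a b : R) := by
    intro a b h1 h2 h3 h4 h5 h6
    exact h a b (abs_le.2 ⟨h1, h2⟩) (abs_le.2 ⟨h3, h4⟩) (abs_le.2 ⟨h5, h6⟩)
  unfold wsum
  rw [h' (a - j) b (by omega) (by omega) (by omega) (by omega) (by omega) (by omega),
    h' a (b - j) (by omega) (by omega) (by omega) (by omega) (by omega) (by omega),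
    h' (a - j) (b - j) (by omega) (by omega) (by omega) (by omega) (by omega) (by omega),
    h' (a + j) b (by omega) (by omega) (by omega) (by omega) (by omega) (by omega),
    h' a (b + j) (by omega) (by omega) (by omega) (by omega) (by omega) (by omega),
    h' (a + j) (b + j) (by omega) (by omega) (by omega) (by omega) (by omega) (by omega),
    h' a b (by omega) (by omega) (by omega) (by omega) (by omega) (by omega)]
  push_cast
  rfl

/-- one term of the recursion -/
def tmK {K : Type*} [Field K] (ψ : ℕ → ℤ → ℤ → K) (u v : ℕ → K) (m n j : ℕ) (a b : ℤ) : K :=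
  (if (n * (j - 1)) % 2 = 0 then (n : K) else -(n : K)) *
    (v n * ψ (m - n * j) a b + u n * wsum (ψ (m - n * j)) j a b)

theorem core {K : Type*} [Field K] [CharZero K] (ψ : ℕ → ℤ → ℤ → K) (u v : ℕ → K)
    (h0 : ∀ a b, ψ 0 a b = (del a b : K))
    (hrec : ∀ m : ℕ, 1 ≤ m → m ≤ 12 → ∀ a b, (m : K) * ψ m a b +
      ∑ n ∈ Finset.Icc 1 m, ∑ j ∈ Finset.Icc 1 (m / n), tmK ψ u v m n j a b = 0)
    (h00 : ∀ m : ℕ, 1 ≤ m → m ≤ 12 → ψ m 0 0 = 0)
    (h11 : ∀ m : ℕ, 1 ≤ m → m ≤ 12 → ψ m 1 1 = if m = 1 then -1 else 0) : u 12 = -10 := by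
  have key : ∀ m : ℕ, m ≤ 12 → (1 ≤ m → u m = (uT m : K) ∧ v m = (vT m : K)) ∧
      ∀ a b : ℤ, |a| ≤ 13 - (m : ℤ) → |b| ≤ 13 - (m : ℤ) → |a - b| ≤ 13 - (m : ℤ) →
        ψ m a b = (tT m a b : K) := by
    intro m
    induction m using Nat.strong_induction_on with
    | _ m ih =>
    intro hm
    rcases Nat.eq_zero_or_pos m with rfl | hpos
    · refine ⟨fun h => by omega, fun a b ha hb _ => ?_⟩
      rw [h0, chk0' a b (by simpa using ha) (by simpa using hb)]
    · -- the difference identity
      have h0T : ∀ a b : ℤ, |a| ≤ 13 → |b| ≤ 13 → ψ 0 a b = (tT 0 a b : K) := by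
        intro a b ha hb
        rw [h0, chk0' a b ha hb]
      have hdiff : ∀ a b : ℤ, |a| ≤ 13 - (m : ℤ) → |b| ≤ 13 - (m : ℤ) → |a - b| ≤ 13 - (m : ℤ) →
          (m : K) * (ψ m a b - tT m a b) + (m : K) * ((v m - vT m) * (tT 0 a b : K) +
            (u m - uT m) * ((wsum (tT 0) 1 a b : ℤ) : K)) = 0 := by
        intro a b ha hb hab
        have e1 := hrec m hpos hm a b
        have e2 := congrArg (fun z : ℤ => (z : K)) (chk' m hpos hm a b ha hb hab)
        simp only [Int.cast_add, Int.cast_mul, Int.cast_natCast, Int.cast_sum, Int.cast_zero] at e2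
        obtain ⟨q, rfl⟩ : ∃ q, m = q + 1 := ⟨m - 1, by omega⟩
        rw [Finset.sum_Icc_succ_top (by omega)] at e1 e2
        have e3 : ∑ n ∈ Finset.Icc 1 q, ∑ j ∈ Finset.Icc 1 ((q + 1) / n), tmK ψ u v (q + 1) n j a b =
            ∑ n ∈ Finset.Icc 1 q, ∑ j ∈ Finset.Icc 1 ((q + 1) / n),
              ((tmZ (q + 1) n j a b : ℤ) : K) := by
          apply Finset.sum_congr rfl
          intro n hn
          rw [Finset.mem_Icc] at hn
          apply Finset.sum_congr rfl
          intro j hj
          rw [Finset.mem_Icc] at hj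
          have hnj : n * j ≤ q + 1 := by
            calc n * j ≤ n * ((q + 1) / n) := Nat.mul_le_mul_left _ hj.2
              _ ≤ q + 1 := Nat.mul_div_le _ _
          have hnj1 : j ≤ n * j := Nat.le_mul_of_pos_left j (by omega)
          have ihn := (ih n (by omega) (by omega)).1 hn.1
          have ihp := (ih (q + 1 - n * j) (by omega) (by omega)).2
          have ec : ((q + 1 - n * j : ℕ) : ℤ) = q + 1 - (n * j : ℕ) := by omega
          rw [tmK, tmZ]
          rw [wsum_cast (ψ (q + 1 - n * j)) (tT (q + 1 - n * j)) j a b (13 - (q + 1 - n * j : ℕ))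
            (by rw [ec]; push_cast at ha ⊢; have : (j : ℤ) ≤ (n : ℤ) * j := by exact_mod_cast hnj1
                linarith)
            (by rw [ec]; push_cast at hb ⊢; have : (j : ℤ) ≤ (n : ℤ) * j := by exact_mod_cast hnj1
                linarith)
            (by rw [ec]; push_cast at hab ⊢; have : (j : ℤ) ≤ (n : ℤ) * j := by exact_mod_cast hnj1
                linarith)
            ihp]
          rw [ihp a b (by rw [ec]; push_cast at ha ⊢; have : (0 : ℤ) ≤ (n : ℤ) * j := by positivity
                          linarith)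
            (by rw [ec]; push_cast at hb ⊢; have : (0 : ℤ) ≤ (n : ℤ) * j := by positivity
                linarith)
            (by rw [ec]; push_cast at hab ⊢; have : (0 : ℤ) ≤ (n : ℤ) * j := by positivity
                linarith), ihn.1, ihn.2]
          split_ifs <;> push_cast <;> ring
        have e4 : ∑ j ∈ Finset.Icc 1 ((q + 1) / (q + 1)), tmK ψ u v (q + 1) (q + 1) j a b =
            ((q + 1 : ℕ) : K) * (v (q + 1) * (tT 0 a b : K) +
              u (q + 1) * ((wsum (tT 0) 1 a b : ℤ) : K)) := by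
          rw [Nat.div_self (by omega)]
          simp only [Finset.Icc_self, Finset.sum_singleton, tmK]
          simp only [Nat.sub_self, mul_zero, Nat.zero_mod, if_true, mul_one]
          have ha' : |a| ≤ 13 - (1 : ℕ) := by push_cast at ha ⊢; linarith
          have hb' : |b| ≤ 13 - (1 : ℕ) := by push_cast at hb ⊢; linarith
          have hab' : |a - b| ≤ 13 - (1 : ℕ) := by push_cast at hab ⊢; linarith
          rw [wsum_cast (ψ 0) (tT 0) 1 a b 13 ha' hb' hab' (fun a b ha hb _ => h0T a b ha hb)]
          push_cast at ha' hb'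
          rw [h0T a b (by linarith) (by linarith)]
        have e5 : ∑ j ∈ Finset.Icc 1 ((q + 1) / (q + 1)), ((tmZ (q + 1) (q + 1) j a b : ℤ) : K) =
            ((q + 1 : ℕ) : K) * ((vT (q + 1) : K) * (tT 0 a b : K) +
              (uT (q + 1) : K) * ((wsum (tT 0) 1 a b : ℤ) : K)) := by
          rw [Nat.div_self (by omega)]
          simp only [Finset.Icc_self, Finset.sum_singleton, tmZ]
          simp only [Nat.sub_self, mul_zero, Nat.zero_mod, if_true, mul_one]
          push_cast
          ring
        rw [e3, e4] at e1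
        rw [e5] at e2
        linear_combination e1 - e2
      have hm0 : (m : K) ≠ 0 := by exact_mod_cast hpos.ne'
      obtain ⟨w1, w2, w3, w4⟩ := w00
      have c00 := chk00 m (by simp; omega)
      have hv : v m = (vT m : K) := by
        have := hdiff 0 0 (by simp; omega) (by simp; omega) (by simp; omega)
        rw [h00 m hpos hm, c00.1, w1, w3] at this
        simp only [Int.cast_zero, sub_zero, mul_zero, Int.cast_one, mul_one, add_zero, zero_add] at this
        rcases mul_eq_zero.1 this with h | h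
        · exact absurd h hm0
        · exact sub_eq_zero.1 h
      have hu : u m = (uT m : K) := by
        have := hdiff 1 1 (by simp; omega) (by simp; omega) (by simp; omega)
        rw [h11 m hpos hm, c00.2, w2, w4] at this
        have h5 : ((if m = 1 then (-1 : K) else 0) - ((if m = 1 then (-1 : ℤ) else 0 : ℤ) : K)) = 0 := by
          split_ifs <;> simp
        rw [h5] at this
        simp only [Int.cast_zero, mul_zero, Int.cast_one, mul_one, zero_add] at this
        rcases mul_eq_zero.1 this with h | h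
        · exact absurd h hm0
        · exact sub_eq_zero.1 h
      refine ⟨fun _ => ⟨hu, hv⟩, fun a b ha hb hab => ?_⟩
      have := hdiff a b ha hb hab
      rw [hu, hv] at this
      simp only [sub_self, zero_mul, add_zero, mul_zero] at this
      rcases mul_eq_zero.1 this with h | h
      · exact absurd h hm0
      · exact sub_eq_zero.1 h
  have := ((key 12 le_rfl).1 (by norm_num)).1
  rw [this]
  have : uT 12 = -10 := by decide
  rw [this]; norm_num

end Pool.Agent.TH880.AL
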