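import Mathlib

/-! Logarithmic derivatives of products of power series `(1 - c X^n)^k` (helper880). -/

set_option autoImplicit false

namespace Pool.Agent.TH880.AL

open PowerSeries

section LD
variable {L : Type*} [CommRing L]

/-- the Euler operator `X d/dX` on power series -/
noncomputable def eu (Q : PowerSeries L) : PowerSeries L := PowerSeries.mk fun m => (m : L) * coeff m Q

theorem coeff_eu (Q : PowerSeries L) (m : ℕ) : coeff m (eu Q) = (m : L) * coeff m Q := by
  simp [eu]

theorem eu_mul (Q R : PowerSeries L) : eu (Q * R) = eu Q * R + Q * eu R := by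
  ext m
  rw [coeff_eu, map_add, PowerSeries.coeff_mul, PowerSeries.coeff_mul, PowerSeries.coeff_mul,
    Finset.mul_sum, ← Finset.sum_add_distrib]
  apply Finset.sum_congr rfl
  intro p hp
  rw [Finset.HasAntidiagonal.mem_antidiagonal] at hp
  rw [coeff_eu, coeff_eu, ← hp]
  push_cast
  ring

/-- `Q` has logarithmic derivative `S` -/
def LD (Q S : PowerSeries L) : Prop := eu Q = Q * S

theorem LD.mul {Q S Q' S' : PowerSeries L} (h : LD Q S) (h' : LD Q' S') : LD (Q * Q') (S + S') := by
  unfold LD at *
  rw [eu_mul, h, h']; ring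

theorem LD.one : LD (1 : PowerSeries L) 0 := by
  unfold LD
  ext m
  rw [coeff_eu, mul_zero, map_zero, PowerSeries.coeff_one]
  split_ifs with h
  · simp [h]
  · simp

theorem LD.pow {Q S : PowerSeries L} (h : LD Q S) (k : ℕ) : LD (Q ^ k) ((k : PowerSeries L) * S) := by
  induction k with
  | zero => simpa using (LD.one : LD (1 : PowerSeries L) 0)
  | succ k ih =>
    rw [pow_succ]
    have := ih.mul h
    convert this using 1
    push_cast; ring

theorem LD.prod {ι : Type*} (s : Finset ι) (Q S : ι → PowerSeries L) (h : ∀ i ∈ s, LD (Q i) (S i)) :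
    LD (∏ i ∈ s, Q i) (∑ i ∈ s, S i) := by
  classical
  induction s using Finset.induction_on with
  | empty => simpa using (LD.one : LD (1 : PowerSeries L) 0)
  | insert a s ha ih =>
    rw [Finset.prod_insert ha, Finset.sum_insert ha]
    exact (h a (Finset.mem_insert_self a s)).mul
      (ih fun i hi => h i (Finset.mem_insert_of_mem hi))

theorem LD.list {ι : Type*} (l : List ι) (Q S : ι → PowerSeries L) (h : ∀ i ∈ l, LD (Q i) (S i)) :
    LD (l.map Q).prod (l.map S).sum := by
  induction l with
  | nil => simpa using (LD.one : LD (1 : PowerSeries L) 0)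
  | cons a l ih =>
    rw [List.map_cons, List.prod_cons, List.map_cons, List.sum_cons]
    exact (h a List.mem_cons_self).mul (ih fun i hi => h i (List.mem_cons_of_mem a hi))

/-- the logarithmic derivative of `1 - c X^n` -/
noncomputable def gg (n : ℕ) (c : L) : PowerSeries L :=
  PowerSeries.mk fun s => if n ∣ s ∧ s ≠ 0 then -((n : L) * c ^ (s / n)) else 0

theorem coeff_gg (n : ℕ) (c : L) (s : ℕ) :
    coeff s (gg n c) = if n ∣ s ∧ s ≠ 0 then -((n : L) * c ^ (s / n)) else 0 := by
  simp [gg]

theorem LD.base (n : ℕ) (hn : 1 ≤ n) (c : L) : LD (1 - C c * X ^ n) (gg n c) := by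
  unfold LD
  ext m
  rw [coeff_eu, sub_mul, one_mul, map_sub, map_sub, mul_assoc, PowerSeries.coeff_C_mul,
    PowerSeries.coeff_C_mul, PowerSeries.coeff_X_pow_mul', PowerSeries.coeff_X_pow, coeff_gg,
    PowerSeries.coeff_one]
  rcases lt_trichotomy m n with h | h | h
  · have hz : ¬ (n ∣ m ∧ m ≠ 0) := by
      rintro ⟨h1, h2⟩
      exact absurd (Nat.le_of_dvd (Nat.pos_of_ne_zero h2) h1) (by omega)
    rw [if_neg h.ne, if_neg (by omega : ¬ n ≤ m), if_neg hz]
    split_ifs with h0
    · simp [h0]
    · simp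
  · subst h
    rw [if_neg (by omega), if_pos rfl, if_pos le_rfl, if_pos ⟨dvd_refl m, by omega⟩, Nat.sub_self,
      coeff_gg, if_neg (by simp), Nat.div_self (by omega)]
    ring
  · rw [if_neg (by omega), if_neg (by omega), if_pos h.le, coeff_gg]
    have hd : n ∣ m ↔ n ∣ m - n := by
      constructor
      · intro hh; exact Nat.dvd_sub hh (dvd_refl n)
      · intro hh
        have := Nat.dvd_add hh (dvd_refl n)
        rwa [Nat.sub_add_cancel h.le] at this
    by_cases hnm : n ∣ m
    · rw [if_pos ⟨hnm, by omega⟩, if_pos ⟨hd.1 hnm, by omega⟩]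
      have : m / n = (m - n) / n + 1 := by
        rw [← Nat.add_div_right _ (by omega : 0 < n), Nat.sub_add_cancel h.le]
      rw [this, pow_succ]; ring
    · rw [if_neg (fun hh => hnm hh.1), if_neg (fun hh => hnm (hd.2 hh.1))]
      simp

theorem coeff_mul_gg (n : ℕ) (hn : 1 ≤ n) (c : L) (Q : PowerSeries L) (m : ℕ) :
    coeff m (Q * gg n c) = -∑ j ∈ Finset.Icc 1 (m / n), (n : L) * c ^ j * coeff (m - n * j) Q := by
  rw [mul_comm, PowerSeries.coeff_mul, Finset.Nat.sum_antidiagonal_eq_sum_range_succ_mk]
  simp only [coeff_gg, ite_mul, zero_mul]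
  rw [← Finset.sum_filter, ← Finset.sum_neg_distrib]
  apply Finset.sum_nbij' (fun s => s / n) (fun j => n * j)
  · intro s hs
    simp only [Finset.mem_filter, Finset.mem_range] at hs
    rw [Finset.mem_Icc]
    refine ⟨?_, Nat.div_le_div_right (by omega)⟩
    exact Nat.div_pos (Nat.le_of_dvd (Nat.pos_of_ne_zero hs.2.2) hs.2.1) (by omega)
  · intro j hj
    rw [Finset.mem_Icc] at hj
    simp only [Finset.mem_filter, Finset.mem_range]
    have : n * j ≤ m := by
      calc n * j ≤ n * (m / n) := Nat.mul_le_mul_left _ hj.2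
        _ ≤ m := Nat.mul_div_le _ _
    refine ⟨by omega, Nat.dvd_mul_right n j, ?_⟩
    exact Nat.mul_ne_zero (by omega) (by omega)
  · intro s hs
    simp only [Finset.mem_filter, Finset.mem_range] at hs
    exact Nat.mul_div_cancel' hs.2.1
  · intro j hj
    exact Nat.mul_div_cancel_left j (by omega)
  · intro s hs
    simp only [Finset.mem_filter, Finset.mem_range] at hs
    rw [Nat.mul_div_cancel' hs.2.1]
    ring

end LD

end Pool.Agent.TH880.AL
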