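import Pool.Agent.TH880.ALdefs
import Pool.Agent.TH880.AL3a

/-! Specializing the product `lamChar` at numbers (helper880). -/

set_option autoImplicit false

namespace Pool.Agent.TH880.AL

open PowerSeries

section Ev
variable {K : Type*} [Field K] {d : ℕ}

/-- extension of coefficients of virtual characters -/
noncomputable def th (K : Type*) [Field K] : CharRing →+* AddMonoidAlgebra K (ℤ × ℤ) :=
  AddMonoidAlgebra.mapRingHom (ℤ × ℤ) (Int.castRingHom K)

theorem th_ew (w : ℤ × ℤ) : th K (ew w) = AddMonoidAlgebra.single w 1 := by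
  rw [th, ew, AddMonoidAlgebra.mapRingHom_single]; simp

/-- the value of the monomial `x^β` -/
def xp (x : Fin d → K) (β : Fin d →₀ ℕ) : K := ∏ i, x i ^ β i

/-- the evaluation `X_i ↦ x_i X` -/
noncomputable def ev (x : Fin d → K) :
    MvPolynomial (Fin d) CharRing →+* PowerSeries (AddMonoidAlgebra K (ℤ × ℤ)) :=
  MvPolynomial.eval₂Hom ((PowerSeries.C).comp (th K))
    (fun i => PowerSeries.C (AddMonoidAlgebra.single 0 (x i)) * PowerSeries.X)

theorem ev_monomial (x : Fin d → K) (β : Fin d →₀ ℕ) (r : CharRing) :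
    ev x (MvPolynomial.monomial β r) =
      C (th K r * AddMonoidAlgebra.single 0 (xp x β)) * X ^ β.degree := by
  rw [ev, MvPolynomial.eval₂Hom_monomial, Finsupp.prod_fintype _ _ (by simp), RingHom.comp_apply]
  have : ∏ i, (C (AddMonoidAlgebra.single (0 : ℤ × ℤ) (x i)) * X) ^ β i =
      C (AddMonoidAlgebra.single (0 : ℤ × ℤ) (xp x β)) * X ^ β.degree := by
    simp only [mul_pow, Finset.prod_mul_distrib, Finset.prod_pow_eq_pow_sum, ← Finsupp.degree_eq_sum,
      ← map_pow, ← map_prod]
    congr 2
    simp only [AddMonoidAlgebra.single_pow, smul_zero]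
    rw [AddMonoidAlgebra.prod_single]
    simp [xp]
  rw [this, map_mul, mul_assoc]

theorem mem_ad (β : Fin d →₀ ℕ) (n : ℕ) :
    β ∈ (Finset.univ : Finset (Fin d)).finsuppAntidiag n ↔ β.degree = n := by
  rw [Finset.mem_finsuppAntidiag, Finsupp.degree_eq_sum]
  simp

theorem coeff_ev (x : Fin d → K) (P : MvPolynomial (Fin d) CharRing) (n : ℕ) :
    coeff n (ev x P) = ∑ β ∈ (Finset.univ : Finset (Fin d)).finsuppAntidiag n,
      th K (MvPolynomial.coeff β P) * AddMonoidAlgebra.single 0 (xp x β) := by
  induction P using MvPolynomial.induction_on' with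
  | monomial u r =>
    rw [ev_monomial, PowerSeries.coeff_C_mul, PowerSeries.coeff_X_pow]
    simp only [MvPolynomial.coeff_monomial]
    by_cases h : u ∈ (Finset.univ : Finset (Fin d)).finsuppAntidiag n
    · rw [Finset.sum_eq_single_of_mem u h, if_pos ((mem_ad u n).1 h).symm, if_pos rfl, mul_one]
      intro b _ hb
      rw [if_neg (Ne.symm hb)]; simp
    · rw [if_neg (fun hh => h ((mem_ad u n).2 hh.symm)), mul_zero]
      symm
      apply Finset.sum_eq_zero
      intro b hb
      rw [if_neg (by rintro rfl; exact h hb)]; simp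
  | add p q hp hq =>
    rw [map_add, map_add, hp, hq, ← Finset.sum_add_distrib]
    apply Finset.sum_congr rfl
    intro β _
    rw [MvPolynomial.coeff_add, map_add, add_mul]

/-- the coefficient functions of the specialization, after multiplication by the Weyl denominator -/
noncomputable def psi (x : Fin d → K) (P : MvPolynomial (Fin d) CharRing) (m : ℕ) (a b : ℤ) : K :=
  (coeff m (ev x P) * th K weylDenom).coeff (a, b)

theorem psi_eq (x : Fin d → K) (P : MvPolynomial (Fin d) CharRing) (m : ℕ) (a b : ℤ) :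
    psi x P m a b = ∑ β ∈ (Finset.univ : Finset (Fin d)).finsuppAntidiag m,
      ((mult (a, b) (MvPolynomial.coeff β P) : ℤ) : K) * xp x β := by
  rw [psi, coeff_ev, Finset.sum_mul, AddMonoidAlgebra.coeff_sum, Finsupp.finsetSum_apply]
  apply Finset.sum_congr rfl
  intro β _
  rw [mul_right_comm, ← map_mul, AddMonoidAlgebra.coeff_mul_single_apply, neg_zero, add_zero, mult,
    th, AddMonoidAlgebra.coeff_mapRingHom]
  simp

/-- the logarithmic derivative of the specialization of `lamChar` -/
theorem LD_lamChar (x : Fin d → K) (N : ℕ) (a b : (Fin d →₀ ℕ) → ℕ) :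
    LD (ev x (lamChar d N a b)) (∑ n ∈ Finset.Icc 1 N,
      ∑ β ∈ (Finset.univ : Finset (Fin d)).finsuppAntidiag n,
        ((b β : PowerSeries (AddMonoidAlgebra K (ℤ × ℤ))) * gg n (AddMonoidAlgebra.single 0 (xp x β)) +
          (adjWeights.map fun w => (a β : PowerSeries (AddMonoidAlgebra K (ℤ × ℤ))) *
            gg n (AddMonoidAlgebra.single w (xp x β))).sum)) := by
  rw [lamChar, map_prod]
  apply LD.prod
  intro n hn
  rw [Finset.mem_Icc] at hn
  rw [map_prod]
  apply LD.prod
  intro β hβ
  rw [mem_ad] at hβ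
  rw [map_mul, map_pow]
  apply LD.mul
  · apply LD.pow
    rw [map_sub, map_one, ev_monomial, hβ, map_one, one_mul]
    exact LD.base n hn.1 _
  · rw [map_list_prod, List.map_map]
    apply LD.list
    intro w _
    rw [Function.comp_apply, map_pow]
    apply LD.pow
    rw [map_sub, map_one, ev_monomial, hβ, th_ew, AddMonoidAlgebra.single_mul_single, add_zero,
      one_mul]
    exact LD.base n hn.1 _

end Ev

end Pool.Agent.TH880.AL
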