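import Pool.Agent.TH880.AL2
import Pool.Agent.TH880.AL3b

/-! The recursion for the specialized characters (helper880). -/

set_option autoImplicit false

namespace Pool.Agent.TH880.AL

open PowerSeries

section Rec
variable {K : Type*} [Field K] {d : ℕ}

/-- a coefficient of a power series over the group ring, after multiplication by the Weyl denominator -/
noncomputable def ph (m : ℕ) (p q : ℤ) : PowerSeries (AddMonoidAlgebra K (ℤ × ℤ)) →+ K where
  toFun F := (coeff m F * th K weylDenom).coeff (p, q)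
  map_zero' := by simp
  map_add' F G := by
    rw [map_add, add_mul, AddMonoidAlgebra.coeff_add]; rfl

theorem ph_apply (m : ℕ) (p q : ℤ) (F : PowerSeries (AddMonoidAlgebra K (ℤ × ℤ))) :
    ph m p q F = (coeff m F * th K weylDenom).coeff (p, q) := rfl

theorem ph_gg (Q : PowerSeries (AddMonoidAlgebra K (ℤ × ℤ))) (k n : ℕ) (hn : 1 ≤ n) (v : ℤ × ℤ)
    (y : K) (m : ℕ) (p q : ℤ) :
    ph m p q (Q * ((k : PowerSeries (AddMonoidAlgebra K (ℤ × ℤ))) *
      gg n (AddMonoidAlgebra.single v y))) =
    -∑ j ∈ Finset.Icc 1 (m / n), (n : K) * ((k : K) * y ^ j) *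
      ph (m - n * j) (p - j * v.1) (q - j * v.2) Q := by
  rw [show Q * ((k : PowerSeries (AddMonoidAlgebra K (ℤ × ℤ))) * gg n (AddMonoidAlgebra.single v y)) =
    k • (Q * gg n (AddMonoidAlgebra.single v y)) by rw [nsmul_eq_mul]; ring, map_nsmul, ph_apply,
    coeff_mul_gg n hn, neg_mul, AddMonoidAlgebra.coeff_neg, Finsupp.neg_apply, Finset.sum_mul,
    AddMonoidAlgebra.coeff_sum, Finsupp.finsetSum_apply, smul_neg, Finset.smul_sum]
  congr 1
  apply Finset.sum_congr rfl
  intro j _
  rw [AddMonoidAlgebra.single_pow, mul_assoc, mul_assoc, ← nsmul_eq_mul n,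
    AddMonoidAlgebra.coeff_smul_apply, AddMonoidAlgebra.coeff_single_mul_apply, ph_apply,
    nsmul_eq_mul, nsmul_eq_mul]
  have : -(j • v) + (p, q) = (p - j * v.1, q - j * v.2) := by
    ext <;> simp <;> ring
  rw [this]
  ring

theorem eu_ph (F : PowerSeries (AddMonoidAlgebra K (ℤ × ℤ))) (m : ℕ) (p q : ℤ) :
    ph m p q (eu F) = (m : K) * ph m p q F := by
  rw [ph_apply, coeff_eu, ph_apply, mul_assoc, ← nsmul_eq_mul m, AddMonoidAlgebra.coeff_smul_apply,
    nsmul_eq_mul]

theorem psi_rec (x : Fin d → K) (N : ℕ) (a b : (Fin d →₀ ℕ) → ℕ) (m : ℕ) (hm : m ≤ N) (p q : ℤ) :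
    (m : K) * psi x (lamChar d N a b) m p q =
      -∑ n ∈ Finset.Icc 1 m, ∑ j ∈ Finset.Icc 1 (m / n), (n : K) *
        ((∑ β ∈ (Finset.univ : Finset (Fin d)).finsuppAntidiag n, (b β : K) * xp x β ^ j) *
          psi x (lamChar d N a b) (m - n * j) p q +
        (∑ β ∈ (Finset.univ : Finset (Fin d)).finsuppAntidiag n, (a β : K) * xp x β ^ j) *
          wsum (psi x (lamChar d N a b) (m - n * j)) j p q) := by
  have h := LD_lamChar x N a b
  unfold LD at h
  have h2 := congrArg (ph m p q) h
  rw [eu_ph] at h2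
  change (m : K) * psi x (lamChar d N a b) m p q = _ at h2
  rw [h2, Finset.mul_sum, map_sum]
  have hpsi : ∀ (i : ℕ) (p q : ℤ), ph i p q (ev x (lamChar d N a b)) =
    psi x (lamChar d N a b) i p q := fun _ _ _ => rfl
  have h3 : ∀ n ∈ Finset.Icc 1 N, ph m p q (ev x (lamChar d N a b) *
      ∑ β ∈ (Finset.univ : Finset (Fin d)).finsuppAntidiag n,
        ((b β : PowerSeries (AddMonoidAlgebra K (ℤ × ℤ))) * gg n (AddMonoidAlgebra.single 0 (xp x β)) +
          (adjWeights.map fun w => (a β : PowerSeries (AddMonoidAlgebra K (ℤ × ℤ))) *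
            gg n (AddMonoidAlgebra.single w (xp x β))).sum)) =
      -∑ j ∈ Finset.Icc 1 (m / n), (n : K) *
        ((∑ β ∈ (Finset.univ : Finset (Fin d)).finsuppAntidiag n, (b β : K) * xp x β ^ j) *
          psi x (lamChar d N a b) (m - n * j) p q +
        (∑ β ∈ (Finset.univ : Finset (Fin d)).finsuppAntidiag n, (a β : K) * xp x β ^ j) *
          wsum (psi x (lamChar d N a b) (m - n * j)) j p q) := by
    intro n hn
    rw [Finset.mem_Icc] at hn
    rw [Finset.mul_sum, map_sum]
    have h4 : ∀ β ∈ (Finset.univ : Finset (Fin d)).finsuppAntidiag n,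
        ph m p q (ev x (lamChar d N a b) *
        ((b β : PowerSeries (AddMonoidAlgebra K (ℤ × ℤ))) * gg n (AddMonoidAlgebra.single 0 (xp x β)) +
          (adjWeights.map fun w => (a β : PowerSeries (AddMonoidAlgebra K (ℤ × ℤ))) *
            gg n (AddMonoidAlgebra.single w (xp x β))).sum)) =
        -∑ j ∈ Finset.Icc 1 (m / n), ((n : K) * ((b β : K) * xp x β ^ j *
          psi x (lamChar d N a b) (m - n * j) p q + (a β : K) * xp x β ^ j *
          wsum (psi x (lamChar d N a b) (m - n * j)) j p q)) := by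
      intro β _
      rw [mul_add, map_add, ph_gg _ _ n hn.1]
      simp only [adjWeights, List.map_cons, List.map_nil, List.sum_cons, List.sum_nil, mul_add,
        map_add, ph_gg _ _ n hn.1, mul_zero, add_zero]
      simp only [← neg_add, ← Finset.sum_add_distrib]
      congr 1
      apply Finset.sum_congr rfl
      intro j _
      simp only [hpsi, wsum, Prod.fst_zero, Prod.snd_zero, mul_zero, sub_zero, mul_one, mul_neg,
        sub_neg_eq_add]
      ring
    rw [Finset.sum_congr rfl h4, Finset.sum_neg_distrib, Finset.sum_comm]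
    congr 1
    apply Finset.sum_congr rfl
    intro j _
    rw [← Finset.mul_sum, Finset.sum_add_distrib, Finset.sum_mul, Finset.sum_mul]
  rw [Finset.sum_congr rfl h3, Finset.sum_neg_distrib]
  congr 1
  symm
  apply Finset.sum_subset (Finset.Icc_subset_Icc_right hm)
  intro n _ hn2
  rw [Finset.mem_Icc] at *
  have : m / n = 0 := by
    apply Nat.div_eq_of_lt; omega
  rw [this]; simp

theorem psi_zero (x : Fin d → K) (N : ℕ) (a b : (Fin d →₀ ℕ) → ℕ) (p q : ℤ) :
    psi x (lamChar d N a b) 0 p q = ((mult (p, q) (MvPolynomial.coeff 0 (lamChar d N a b)) : ℤ) : K) := by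
  rw [psi_eq, Finset.finsuppAntidiag_zero, Finset.sum_singleton]
  simp [xp]

end Rec

end Pool.Agent.TH880.AL
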