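import Pool.Agent.TH880.AL3c

/-! The value forced by the character equations (helper880). -/

set_option autoImplicit false

namespace Pool.Agent.TH880.AL

section Val

theorem weyl_eq : weylDenom = AddMonoidAlgebra.single (0, 0) 1 - AddMonoidAlgebra.single (-1, 0) 1 -
    AddMonoidAlgebra.single (0, -1) 1 + AddMonoidAlgebra.single (-2, -1) 1 +
    AddMonoidAlgebra.single (-1, -2) 1 - AddMonoidAlgebra.single (-2, -2) 1 := by
  have h1 : (1 : CharRing) = AddMonoidAlgebra.single (0, 0) 1 := rfl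
  rw [weylDenom, ew, ew, ew, h1]
  simp only [sub_mul, mul_sub, AddMonoidAlgebra.single_mul_single, Prod.mk_add_mk, mul_one,
    Int.reduceAdd, Int.reduceNeg, add_zero, zero_add]
  abel

theorem weyl_coeff (p q : ℤ) : weylDenom.coeff (p, q) = del p q := by
  have e : ∀ a b : ℤ, (AddMonoidAlgebra.single (a, b) (1 : ℤ)).coeff (p, q) =
      if p = a ∧ q = b then 1 else 0 := by
    intro a b
    rw [AddMonoidAlgebra.coeff_single, Finsupp.single_apply]
    apply if_congr _ rfl rfl
    rw [Prod.mk.injEq]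
    exact ⟨fun h => ⟨h.1.symm, h.2.symm⟩, fun h => ⟨h.1.symm, h.2.symm⟩⟩
  have h : weylDenom.coeff (p, q) = (if p = 0 ∧ q = 0 then 1 else 0) -
      (if p = -1 ∧ q = 0 then 1 else 0) - (if p = 0 ∧ q = -1 then 1 else 0) +
      (if p = -2 ∧ q = -1 then 1 else 0) + (if p = -1 ∧ q = -2 then 1 else 0) -
      (if p = -2 ∧ q = -2 then 1 else 0) := by
    rw [← e, ← e, ← e, ← e, ← e, ← e, weyl_eq]
    rfl
  rw [h, del]
  by_cases h1 : p = 0 ∧ q = 0
  · obtain ⟨rfl, rfl⟩ := h1; decide
  by_cases h2 : p = -1 ∧ q = 0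
  · obtain ⟨rfl, rfl⟩ := h2; decide
  by_cases h3 : p = 0 ∧ q = -1
  · obtain ⟨rfl, rfl⟩ := h3; decide
  by_cases h4 : p = -2 ∧ q = -1
  · obtain ⟨rfl, rfl⟩ := h4; decide
  by_cases h5 : p = -1 ∧ q = -2
  · obtain ⟨rfl, rfl⟩ := h5; decide
  by_cases h6 : p = -2 ∧ q = -2
  · obtain ⟨rfl, rfl⟩ := h6; decide
  rw [if_neg h1, if_neg h2, if_neg h3, if_neg h4, if_neg h5, if_neg h6, if_neg h1, if_neg h2,
    if_neg h3, if_neg h4, if_neg h5, if_neg h6]
  rfl

theorem const_lamChar (d N : ℕ) (a b : (Fin d →₀ ℕ) → ℕ) :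
    MvPolynomial.coeff 0 (lamChar d N a b) = 1 := by
  have : MvPolynomial.constantCoeff (lamChar d N a b) = 1 := by
    rw [lamChar, map_prod]
    apply Finset.prod_eq_one
    intro n hn
    rw [Finset.mem_Icc] at hn
    rw [map_prod]
    apply Finset.prod_eq_one
    intro β hβ
    rw [mem_ad] at hβ
    have hβ0 : β ≠ 0 := by
      rintro rfl
      simp at hβ
      omega
    have hm : ∀ r : CharRing, MvPolynomial.constantCoeff (MvPolynomial.monomial β r) = 0 := by
      intro r
      rw [MvPolynomial.constantCoeff_eq, MvPolynomial.coeff_monomial, if_neg hβ0]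
    rw [map_mul, map_pow, map_sub, map_one, hm, sub_zero, one_pow, one_mul, map_list_prod,
      List.map_map]
    apply List.prod_eq_one
    intro z hz
    rw [List.mem_map] at hz
    obtain ⟨w, _, rfl⟩ := hz
    rw [Function.comp_apply, map_pow, map_sub, map_one, hm, sub_zero, one_pow]
  rwa [MvPolynomial.constantCoeff_eq] at this

theorem sum_deg_one {K : Type*} [Field K] {d : ℕ} (x : Fin d → K) :
    ∑ β ∈ (Finset.univ : Finset (Fin d)).finsuppAntidiag 1, xp x β = ∑ i, x i := by
  symm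
  apply Finset.sum_bij (fun i _ => Finsupp.single i 1)
  · intro i _
    rw [mem_ad, Finsupp.degree_single]
  · intro i _ j _ h
    exact (Finsupp.single_left_injective (one_ne_zero)) h
  · intro β hβ
    rw [mem_ad] at hβ
    have hne : β ≠ 0 := by
      rintro rfl
      simp at hβ
    obtain ⟨i, hi⟩ := Finsupp.ne_iff.1 hne
    refine ⟨i, Finset.mem_univ i, ?_⟩
    ext j
    rw [Finsupp.degree_eq_sum] at hβ
    have h1 : β i = 1 := by
      have : β i ≤ ∑ i, β i := Finset.single_le_sum (f := fun i => β i) (by simp) (Finset.mem_univ i)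
      simp at hi; omega
    by_cases hj : i = j
    · subst hj; rw [Finsupp.single_eq_same, h1]
    · rw [Finsupp.single_eq_of_ne (Ne.symm hj)]
      have h2 : β i + β j ≤ ∑ i, β i := by
        rw [← Finset.sum_pair hj]
        exact Finset.sum_le_sum_of_subset (by simp)
      omega
  · intro i _
    rw [xp, Finset.prod_eq_single i]
    · simp
    · intro j _ hj; rw [Finsupp.single_eq_of_ne hj, pow_zero]
    · simp

theorem value {K : Type*} [Field K] [CharZero K] {d : ℕ} (x : Fin d → K) (a b : (Fin d →₀ ℕ) → ℕ)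
    (hx : ∑ i, x i = 1)
    (ha : ∀ n j : ℕ, 1 ≤ n → 1 ≤ j → n * j ≤ 12 →
      ∑ β ∈ (Finset.univ : Finset (Fin d)).finsuppAntidiag n, (a β : K) * xp x β ^ j =
      (-1) ^ (n * (j - 1)) *
        ∑ β ∈ (Finset.univ : Finset (Fin d)).finsuppAntidiag n, (a β : K) * xp x β)
    (hb : ∀ n j : ℕ, 1 ≤ n → 1 ≤ j → n * j ≤ 12 →
      ∑ β ∈ (Finset.univ : Finset (Fin d)).finsuppAntidiag n, (b β : K) * xp x β ^ j =
      (-1) ^ (n * (j - 1)) *
        ∑ β ∈ (Finset.univ : Finset (Fin d)).finsuppAntidiag n, (b β : K) * xp x β)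
    (H : CharacterEquations d a b) :
    ∑ β ∈ (Finset.univ : Finset (Fin d)).finsuppAntidiag 12, (a β : K) * xp x β = -10 := by
  have hH : ∀ α : Fin d →₀ ℕ, α.degree ≤ 12 → _ := H 12
  apply core (psi x (lamChar d 12 a b))
    (fun n => ∑ β ∈ (Finset.univ : Finset (Fin d)).finsuppAntidiag n, (a β : K) * xp x β)
    (fun n => ∑ β ∈ (Finset.univ : Finset (Fin d)).finsuppAntidiag n, (b β : K) * xp x β)
  · intro p q
    rw [psi_zero, const_lamChar, mult, one_mul, weyl_coeff]
  · intro m h1 h2 p q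
    rw [psi_rec x 12 a b m h2 p q, neg_add_eq_zero]
    apply Finset.sum_congr rfl
    intro n hn
    apply Finset.sum_congr rfl
    intro j hj
    rw [Finset.mem_Icc] at hn hj
    have hnj : n * j ≤ m := by
      calc n * j ≤ n * (m / n) := Nat.mul_le_mul_left _ hj.2
        _ ≤ m := Nat.mul_div_le _ _
    rw [ha n j hn.1 hj.1 (by omega), hb n j hn.1 hj.1 (by omega), tmK]
    have : (if (n * (j - 1)) % 2 = 0 then (n : K) else -(n : K)) = (-1) ^ (n * (j - 1)) * n := by
      rcases Nat.even_or_odd (n * (j - 1)) with h | h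
      · rw [if_pos (Nat.even_iff.1 h), h.neg_one_pow, one_mul]
      · rw [if_neg (by rw [Nat.odd_iff.1 h]; norm_num), h.neg_one_pow]; ring
    rw [this]
    ring
  · intro m h1 h2
    rw [psi_eq]
    apply Finset.sum_eq_zero
    intro β hβ
    rw [mem_ad] at hβ
    rw [(hH β (by omega)).1, if_neg]
    · simp
    · rintro rfl; simp at hβ; omega
  · intro m h1 h2
    rw [psi_eq]
    have : ∀ β ∈ (Finset.univ : Finset (Fin d)).finsuppAntidiag m,
        ((mult (1, 1) (MvPolynomial.coeff β (lamChar d 12 a b)) : ℤ) : K) * xp x β =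
        (if m = 1 then -1 else 0) * xp x β := by
      intro β hβ
      rw [mem_ad] at hβ
      rw [(hH β (by omega)).2, hβ]
      split_ifs <;> simp
    rw [Finset.sum_congr rfl this, ← Finset.mul_sum]
    split_ifs with hm
    · subst hm; rw [sum_deg_one, hx, mul_one]
    · rw [zero_mul]

end Val

end Pool.Agent.TH880.AL
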