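import Pool.Agent.TH880.ALdefs

/-! The multiplication of the free alternative algebra and its universal property (helper880). -/

set_option autoImplicit false

namespace Pool.Agent.TH880.AL

open scoped TensorProduct

universe u

section Alg
variable {k : Type u} [Field k] {d : ℕ}

theorem altIdeal_isAlt : IsAltIdeal k d (altIdeal k d) := by
  refine ⟨fun a b => ?_, fun a b => ?_, fun a c hc => ?_, fun a c hc => ?_⟩
  · rw [altIdeal, Submodule.mem_sInf]
    intro J hJ
    exact hJ.1 a b
  · rw [altIdeal, Submodule.mem_sInf]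
    intro J hJ
    exact hJ.2.1 a b
  · rw [altIdeal, Submodule.mem_sInf] at *
    intro J hJ
    exact hJ.2.2.1 a c (hc J hJ)
  · rw [altIdeal, Submodule.mem_sInf] at *
    intro J hJ
    exact hJ.2.2.2 a c (hc J hJ)

theorem cls_surj (y : Alt k d) : ∃ a : FreeAlg k d, cls a = y := Submodule.mkQ_surjective _ y

theorem cls_add (a b : FreeAlg k d) : cls (a + b) = cls a + cls b := map_add _ a b

theorem cls_smul (c : k) (a : FreeAlg k d) : cls (c • a) = c • cls a := map_smul _ c a

theorem cls_eq_iff (a b : FreeAlg k d) : cls a = cls b ↔ a - b ∈ altIdeal k d := by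
  rw [cls, cls, Submodule.mkQ_apply, Submodule.mkQ_apply, Submodule.Quotient.eq]

theorem cls_mul_congr {a a' b b' : FreeAlg k d} (h : cls a = cls a') (h' : cls b = cls b') :
    cls (a * b) = cls (a' * b') := by
  rw [cls_eq_iff] at *
  have : a * b - a' * b' = a * (b - b') + (a - a') * b' := by
    rw [mul_sub, sub_mul]; abel
  rw [this]
  exact Submodule.add_mem _ (altIdeal_isAlt.2.2.1 a _ h') (altIdeal_isAlt.2.2.2 b' _ h)

noncomputable instance : Mul (Alt k d) :=
  ⟨fun y z => cls (Classical.choose (cls_surj y) * Classical.choose (cls_surj z))⟩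

theorem cls_mul (a b : FreeAlg k d) : cls (a * b) = cls a * cls b := by
  change cls (a * b) = cls (Classical.choose (cls_surj (cls a)) * Classical.choose (cls_surj (cls b)))
  exact cls_mul_congr (Classical.choose_spec (cls_surj (cls a))).symm
    (Classical.choose_spec (cls_surj (cls b))).symm

theorem cls_zero : cls (0 : FreeAlg k d) = 0 := map_zero _

noncomputable instance : NonUnitalNonAssocRing (Alt k d) :=
  { (inferInstance : AddCommGroup (Alt k d)), (inferInstance : Mul (Alt k d)) with
    left_distrib := by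
      intro x y z
      obtain ⟨a, rfl⟩ := cls_surj x
      obtain ⟨b, rfl⟩ := cls_surj y
      obtain ⟨c, rfl⟩ := cls_surj z
      rw [← cls_add, ← cls_mul, ← cls_mul, ← cls_mul, ← cls_add, mul_add]
    right_distrib := by
      intro x y z
      obtain ⟨a, rfl⟩ := cls_surj x
      obtain ⟨b, rfl⟩ := cls_surj y
      obtain ⟨c, rfl⟩ := cls_surj z
      rw [← cls_add, ← cls_mul, ← cls_mul, ← cls_mul, ← cls_add, add_mul]
    zero_mul := by
      intro x
      obtain ⟨a, rfl⟩ := cls_surj x
      rw [← cls_zero, ← cls_mul, zero_mul]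
    mul_zero := by
      intro x
      obtain ⟨a, rfl⟩ := cls_surj x
      rw [← cls_zero, ← cls_mul, mul_zero] }

instance : IsScalarTower k (Alt k d) (Alt k d) := by
  refine ⟨fun c x y => ?_⟩
  obtain ⟨a, rfl⟩ := cls_surj x
  obtain ⟨b, rfl⟩ := cls_surj y
  rw [smul_eq_mul, smul_eq_mul, ← cls_smul, ← cls_mul, ← cls_mul, ← cls_smul, smul_mul_assoc]

instance : SMulCommClass k (Alt k d) (Alt k d) := by
  refine ⟨fun c x y => ?_⟩
  obtain ⟨a, rfl⟩ := cls_surj x
  obtain ⟨b, rfl⟩ := cls_surj y
  rw [smul_eq_mul, smul_eq_mul, ← cls_smul, ← cls_mul, ← cls_mul, ← cls_smul, mul_smul_comm]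

/-- a nonassociative ring is alternative -/
def IsAlternative (A : Type*) [NonUnitalNonAssocRing A] : Prop :=
  (∀ a b : A, a * a * b = a * (a * b)) ∧ (∀ a b : A, a * b * b = a * (b * b))

theorem alt_isAlternative : IsAlternative (Alt k d) := by
  constructor
  · intro x y
    obtain ⟨a, rfl⟩ := cls_surj x
    obtain ⟨b, rfl⟩ := cls_surj y
    simp only [← cls_mul]
    rw [cls_eq_iff]
    exact altIdeal_isAlt.1 a b
  · intro x y
    obtain ⟨a, rfl⟩ := cls_surj x
    obtain ⟨b, rfl⟩ := cls_surj y
    simp only [← cls_mul]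
    rw [cls_eq_iff]
    exact altIdeal_isAlt.2.1 a b

section Univ
variable {A : Type*} [NonUnitalNonAssocRing A] [Module k A] [IsScalarTower k A A]
  [SMulCommClass k A A]

/-- the homomorphism from the free algebra, as a linear map -/
noncomputable def frL (y : Fin d → A) : FreeAlg k d →ₗ[k] A :=
  ((FreeNonUnitalNonAssocAlgebra.lift k y : FreeAlg k d →ₙₐ[k] A) : FreeAlg k d →ₗ[k] A)

theorem frL_mul (y : Fin d → A) (a b : FreeAlg k d) : frL y (a * b) = frL y a * frL y b :=
  map_mul (FreeNonUnitalNonAssocAlgebra.lift k y) a b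

theorem mono_of (i : Fin d) : mono k (FreeMagma.of i) = FreeNonUnitalNonAssocAlgebra.of k i := rfl

theorem mono_mul (m m' : FreeMagma (Fin d)) : mono k (m * m') = mono k m * mono k m' := by
  rw [mono, mono, mono, MonoidAlgebra.single_mul_single, one_mul]

theorem frL_mono (y : Fin d → A) (m : FreeMagma (Fin d)) : frL y (mono k m) = FreeMagma.lift y m := by
  induction m using FreeMagma.recOnMul with
  | ih1 i =>
    rw [mono_of, FreeMagma.lift_of]
    exact FreeNonUnitalNonAssocAlgebra.lift_of_apply k y i
  | ih2 a b ha hb => rw [mono_mul, frL_mul, ha, hb, map_mul]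

theorem ker_isAlt (hA : IsAlternative A) (y : Fin d → A) :
    IsAltIdeal k d (LinearMap.ker (frL y)) := by
  refine ⟨fun a b => ?_, fun a b => ?_, fun a c hc => ?_, fun a c hc => ?_⟩
  · rw [LinearMap.mem_ker, map_sub, frL_mul, frL_mul, frL_mul, frL_mul, hA.1, sub_self]
  · rw [LinearMap.mem_ker, map_sub, frL_mul, frL_mul, frL_mul, frL_mul, hA.2, sub_self]
  · rw [LinearMap.mem_ker] at *
    rw [frL_mul, hc, mul_zero]
  · rw [LinearMap.mem_ker] at *
    rw [frL_mul, hc, zero_mul]

theorem altIdeal_le_ker (hA : IsAlternative A) (y : Fin d → A) :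
    altIdeal k d ≤ LinearMap.ker (frL y) := sInf_le (ker_isAlt hA y)

/-- the homomorphism from the free alternative algebra, as a linear map -/
noncomputable def altL (hA : IsAlternative A) (y : Fin d → A) : Alt k d →ₗ[k] A :=
  (altIdeal k d).liftQ (frL y) (altIdeal_le_ker hA y)

theorem altL_cls (hA : IsAlternative A) (y : Fin d → A) (a : FreeAlg k d) :
    altL hA y (cls a) = frL y a :=
  Submodule.liftQ_apply _ _ _

theorem altL_mono (hA : IsAlternative A) (y : Fin d → A) (m : FreeMagma (Fin d)) :
    altL hA y (cls (mono k m)) = FreeMagma.lift y m := by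
  rw [altL_cls, frL_mono]

theorem altL_mul (hA : IsAlternative A) (y : Fin d → A) (p q : Alt k d) :
    altL hA y (p * q) = altL hA y p * altL hA y q := by
  obtain ⟨a, rfl⟩ := cls_surj p
  obtain ⟨b, rfl⟩ := cls_surj q
  rw [← cls_mul, altL_cls, altL_cls, altL_cls, frL_mul]

end Univ

theorem cls_mono (m : FreeMagma (Fin d)) :
    cls (mono k m) = FreeMagma.lift (fun i => cls (mono k (FreeMagma.of i))) m := by
  induction m using FreeMagma.recOnMul with
  | ih1 i => rw [FreeMagma.lift_of]
  | ih2 a b ha hb => rw [mono_mul, cls_mul, ha, hb, map_mul]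

/-- the substitution of variables -/
noncomputable def fw (w : Fin d → Fin d) : Alt k d →ₗ[k] Alt k d :=
  altL alt_isAlternative fun i => cls (mono k (FreeMagma.of (w i)))

theorem fw_mono (w : Fin d → Fin d) (m : FreeMagma (Fin d)) :
    fw w (cls (mono k m)) = cls (mono k (FreeMagma.map w m)) := by
  rw [fw, altL_mono, cls_mono]
  induction m using FreeMagma.recOnMul with
  | ih1 i => rw [FreeMagma.lift_of, FreeMagma.map_of, FreeMagma.lift_of]
  | ih2 a b ha hb => rw [map_mul, map_mul, map_mul, ha, hb]

theorem span_mono : Submodule.span k (Set.range fun m : FreeMagma (Fin d) => cls (mono k m)) = ⊤ := by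
  rw [eq_top_iff]
  intro y _
  obtain ⟨a, rfl⟩ := cls_surj y
  induction a using MonoidAlgebra.induction_linear with
  | zero => rw [cls_zero]; exact Submodule.zero_mem _
  | add f g hf hg =>
    rw [cls_add]; exact Submodule.add_mem _ (hf trivial) (hg trivial)
  | single m r =>
    have : (MonoidAlgebra.single m r : FreeAlg k d) = r • mono k m := by
      rw [mono, MonoidAlgebra.smul_single, smul_eq_mul, mul_one]
    rw [this, cls_smul]
    exact Submodule.smul_mem _ _ (Submodule.subset_span ⟨m, rfl⟩)

theorem hom_ext {A : Type*} [AddCommGroup A] [Module k A] (F G : Alt k d →ₗ[k] A)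
    (h : ∀ m : FreeMagma (Fin d), F (cls (mono k m)) = G (cls (mono k m))) : F = G := by
  apply LinearMap.ext_on_range span_mono
  exact h

end Alg

end Pool.Agent.TH880.AL
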