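import Pool.Agent.TH880.AL5

/-! Polarization in the free alternative algebra (helper880). -/

set_option autoImplicit false

namespace Pool.Agent.TH880.AL

open scoped TensorProduct

universe u

section Ten
variable {k : Type u} [Field k] [CharZero k]
variable {A : Type*} [NonUnitalNonAssocRing A] [Module k A] [IsScalarTower k A A]
  [SMulCommClass k A A]
variable {R : Type*} [CommRing R] [Algebra k R]

omit [CharZero k] [Module k A] [IsScalarTower k A A] [SMulCommClass k A A] in
theorem lin1 (hA : IsAlternative A) (x y z : A) :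
    x * y * z + y * x * z = x * (y * z) + y * (x * z) := by
  have e : x * y * z + y * x * z - (x * (y * z) + y * (x * z)) =
      ((x + y) * (x + y) * z - (x + y) * ((x + y) * z)) - (x * x * z - x * (x * z)) -
        (y * y * z - y * (y * z)) := by
    simp only [add_mul, mul_add]; abel
  rw [hA.1, hA.1, hA.1] at e
  simp only [sub_self] at e
  exact sub_eq_zero.1 e

omit [CharZero k] [Module k A] [IsScalarTower k A A] [SMulCommClass k A A] in
theorem lin2 (hA : IsAlternative A) (x y z : A) :
    x * y * z + x * z * y = x * (y * z) + x * (z * y) := by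
  have e : x * y * z + x * z * y - (x * (y * z) + x * (z * y)) =
      (x * (y + z) * (y + z) - x * ((y + z) * (y + z))) - (x * y * y - x * (y * y)) -
        (x * z * z - x * (z * z)) := by
    simp only [add_mul, mul_add]; abel
  rw [hA.2, hA.2, hA.2] at e
  simp only [sub_self] at e
  exact sub_eq_zero.1 e

omit [CharZero k] in
theorem tlin1 (hA : IsAlternative A) (x y z : A ⊗[k] R) :
    x * y * z + y * x * z = x * (y * z) + y * (x * z) := by
  induction x using TensorProduct.induction_on with
  | zero => simp
  | add x x' hx hx' =>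
    simp only [add_mul, mul_add]
    calc _ = (x * y * z + y * x * z) + (x' * y * z + y * x' * z) := by abel
      _ = (x * (y * z) + y * (x * z)) + (x' * (y * z) + y * (x' * z)) := by rw [hx, hx']
      _ = _ := by abel
  | tmul a r =>
    induction y using TensorProduct.induction_on with
    | zero => simp
    | add y y' hy hy' =>
      simp only [add_mul, mul_add]
      calc _ = ((a ⊗ₜ[k] r) * y * z + y * (a ⊗ₜ[k] r) * z) +
            ((a ⊗ₜ[k] r) * y' * z + y' * (a ⊗ₜ[k] r) * z) := by abel
        _ = ((a ⊗ₜ[k] r) * (y * z) + y * ((a ⊗ₜ[k] r) * z)) +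
            ((a ⊗ₜ[k] r) * (y' * z) + y' * ((a ⊗ₜ[k] r) * z)) := by rw [hy, hy']
        _ = _ := by abel
    | tmul b s =>
      induction z using TensorProduct.induction_on with
      | zero => simp
      | add z z' hz hz' =>
        simp only [mul_add]
        calc _ = ((a ⊗ₜ[k] r) * (b ⊗ₜ[k] s) * z + (b ⊗ₜ[k] s) * (a ⊗ₜ[k] r) * z) +
              ((a ⊗ₜ[k] r) * (b ⊗ₜ[k] s) * z' + (b ⊗ₜ[k] s) * (a ⊗ₜ[k] r) * z') := by abel
          _ = ((a ⊗ₜ[k] r) * ((b ⊗ₜ[k] s) * z) + (b ⊗ₜ[k] s) * ((a ⊗ₜ[k] r) * z)) +
              ((a ⊗ₜ[k] r) * ((b ⊗ₜ[k] s) * z') + (b ⊗ₜ[k] s) * ((a ⊗ₜ[k] r) * z')) := by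
            rw [hz, hz']
          _ = _ := by abel
      | tmul c t =>
        simp only [Algebra.TensorProduct.tmul_mul_tmul]
        rw [show s * r * t = r * s * t by ring, show r * (s * t) = r * s * t by ring,
          show s * (r * t) = r * s * t by ring, ← TensorProduct.add_tmul, ← TensorProduct.add_tmul,
          lin1 hA]

omit [CharZero k] in
theorem tlin2 (hA : IsAlternative A) (x y z : A ⊗[k] R) :
    x * y * z + x * z * y = x * (y * z) + x * (z * y) := by
  induction x using TensorProduct.induction_on with
  | zero => simp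
  | add x x' hx hx' =>
    simp only [add_mul]
    calc _ = (x * y * z + x * z * y) + (x' * y * z + x' * z * y) := by abel
      _ = (x * (y * z) + x * (z * y)) + (x' * (y * z) + x' * (z * y)) := by rw [hx, hx']
      _ = _ := by abel
  | tmul a r =>
    induction y using TensorProduct.induction_on with
    | zero => simp
    | add y y' hy hy' =>
      simp only [add_mul, mul_add]
      calc _ = ((a ⊗ₜ[k] r) * y * z + (a ⊗ₜ[k] r) * z * y) +
            ((a ⊗ₜ[k] r) * y' * z + (a ⊗ₜ[k] r) * z * y') := by abel
        _ = ((a ⊗ₜ[k] r) * (y * z) + (a ⊗ₜ[k] r) * (z * y)) +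
            ((a ⊗ₜ[k] r) * (y' * z) + (a ⊗ₜ[k] r) * (z * y')) := by rw [hy, hy']
        _ = _ := by abel
    | tmul b s =>
      induction z using TensorProduct.induction_on with
      | zero => simp
      | add z z' hz hz' =>
        simp only [add_mul, mul_add]
        calc _ = ((a ⊗ₜ[k] r) * (b ⊗ₜ[k] s) * z + (a ⊗ₜ[k] r) * z * (b ⊗ₜ[k] s)) +
              ((a ⊗ₜ[k] r) * (b ⊗ₜ[k] s) * z' + (a ⊗ₜ[k] r) * z' * (b ⊗ₜ[k] s)) := by abel
          _ = ((a ⊗ₜ[k] r) * ((b ⊗ₜ[k] s) * z) + (a ⊗ₜ[k] r) * (z * (b ⊗ₜ[k] s))) +
              ((a ⊗ₜ[k] r) * ((b ⊗ₜ[k] s) * z') + (a ⊗ₜ[k] r) * (z' * (b ⊗ₜ[k] s))) := by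
            rw [hz, hz']
          _ = _ := by abel
      | tmul c t =>
        simp only [Algebra.TensorProduct.tmul_mul_tmul]
        rw [show r * t * s = r * s * t by ring, show r * (s * t) = r * s * t by ring,
          show r * (t * s) = r * s * t by ring, ← TensorProduct.add_tmul, ← TensorProduct.add_tmul,
          lin2 hA]

theorem tensor_alt (hA : IsAlternative A) : IsAlternative (A ⊗[k] R) := by
  have h2 : (2 : k) ≠ 0 := two_ne_zero
  constructor
  · intro x z
    have h := tlin1 hA x x z
    rw [← two_smul k, ← two_smul k (x * (x * z))] at h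
    exact smul_right_injective _ h2 h
  · intro x z
    have h := tlin2 hA x z z
    rw [← two_smul k, ← two_smul k (x * (z * z))] at h
    exact smul_right_injective _ h2 h

end Ten

section Multi
variable {k : Type u} [Field k] {d : ℕ}
variable {A : Type*} [NonUnitalNonAssocRing A] [Module k A] [IsScalarTower k A A]
  [SMulCommClass k A A]

theorem mdeg_of (i : Fin d) : mdeg (FreeMagma.of i) = Finsupp.single i 1 := rfl

theorem mdeg_mul (a b : FreeMagma (Fin d)) : mdeg (a * b) = mdeg a + mdeg b := rfl

omit [Module k A] [IsScalarTower k A A] [SMulCommClass k A A] in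
theorem lift_update_zero (y : Fin d → A) (i : Fin d) (a : A) (m : FreeMagma (Fin d))
    (h : mdeg m i = 0) : FreeMagma.lift (Function.update y i a) m = FreeMagma.lift y m := by
  induction m using FreeMagma.recOnMul with
  | ih1 j =>
    rw [FreeMagma.lift_of, FreeMagma.lift_of, Function.update_of_ne]
    rintro rfl
    rw [mdeg_of, Finsupp.single_eq_same] at h
    exact one_ne_zero h
  | ih2 p q hp hq =>
    rw [mdeg_mul, Finsupp.add_apply] at h
    rw [map_mul, map_mul, hp (by omega), hq (by omega)]

omit [Module k A] [IsScalarTower k A A] [SMulCommClass k A A] in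
theorem lift_update_add (y : Fin d → A) (i : Fin d) (a b : A) (m : FreeMagma (Fin d))
    (h : mdeg m i = 1) : FreeMagma.lift (Function.update y i (a + b)) m =
      FreeMagma.lift (Function.update y i a) m + FreeMagma.lift (Function.update y i b) m := by
  induction m using FreeMagma.recOnMul with
  | ih1 j =>
    have : j = i := by
      by_contra hne
      rw [mdeg_of, Finsupp.single_eq_of_ne (Ne.symm hne)] at h
      exact zero_ne_one h
    subst this
    simp only [FreeMagma.lift_of, Function.update_self]
  | ih2 p q hp hq =>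
    rw [mdeg_mul, Finsupp.add_apply] at h
    rw [map_mul, map_mul, map_mul]
    rcases Nat.eq_zero_or_pos (mdeg p i) with h0 | h0
    · rw [lift_update_zero _ _ _ _ h0, lift_update_zero _ _ _ _ h0, lift_update_zero _ _ _ _ h0,
        hq (by omega), mul_add]
    · have h1 : mdeg q i = 0 := by omega
      rw [lift_update_zero _ _ _ _ h1, lift_update_zero _ _ _ _ h1, lift_update_zero _ _ _ _ h1,
        hp (by omega), add_mul]

theorem lift_update_smul (y : Fin d → A) (i : Fin d) (c : k) (a : A) (m : FreeMagma (Fin d))
    (h : mdeg m i = 1) : FreeMagma.lift (Function.update y i (c • a)) m =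
      c • FreeMagma.lift (Function.update y i a) m := by
  induction m using FreeMagma.recOnMul with
  | ih1 j =>
    have : j = i := by
      by_contra hne
      rw [mdeg_of, Finsupp.single_eq_of_ne (Ne.symm hne)] at h
      exact zero_ne_one h
    subst this
    simp only [FreeMagma.lift_of, Function.update_self]
  | ih2 p q hp hq =>
    rw [mdeg_mul, Finsupp.add_apply] at h
    rw [map_mul, map_mul]
    rcases Nat.eq_zero_or_pos (mdeg p i) with h0 | h0
    · rw [lift_update_zero _ _ _ _ h0, lift_update_zero _ _ _ _ h0, hq (by omega), mul_smul_comm]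
    · have h1 : mdeg q i = 0 := by omega
      rw [lift_update_zero _ _ _ _ h1, lift_update_zero _ _ _ _ h1, hp (by omega), smul_mul_assoc]

/-- evaluation of a multilinear monomial, as a multilinear map -/
noncomputable def mlin (k : Type u) [Field k] (A : Type*) [NonUnitalNonAssocRing A] [Module k A]
    [IsScalarTower k A A] [SMulCommClass k A A] (m : FreeMagma (Fin d)) (h : ∀ i, mdeg m i = 1) :
    MultilinearMap k (fun _ : Fin d => A) A where
  toFun y := FreeMagma.lift y m
  map_update_add' := by
    intro inst y i a b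
    have : inst = instDecidableEqFin d := Subsingleton.elim _ _
    subst this
    exact lift_update_add y i a b m (h i)
  map_update_smul' := by
    intro inst y i c a
    have : inst = instDecidableEqFin d := Subsingleton.elim _ _
    subst this
    exact lift_update_smul y i c a m (h i)

theorem mlin_apply (m : FreeMagma (Fin d)) (h : ∀ i, mdeg m i = 1) (y : Fin d → A) :
    mlin k A m h y = FreeMagma.lift y m := rfl

theorem lift_tmul {R : Type*} [CommRing R] [Algebra k R] (a : Fin d → A) (p : Fin d → R)
    (m : FreeMagma (Fin d)) :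
    FreeMagma.lift (fun i => a i ⊗ₜ[k] p i) m = (FreeMagma.lift a m) ⊗ₜ[k] ∏ i, p i ^ mdeg m i := by
  induction m using FreeMagma.recOnMul with
  | ih1 j =>
    rw [FreeMagma.lift_of, FreeMagma.lift_of]
    congr 1
    rw [Finset.prod_eq_single j]
    · rw [mdeg_of, Finsupp.single_eq_same, pow_one]
    · intro i _ hi
      rw [mdeg_of, Finsupp.single_eq_of_ne hi, pow_zero]
    · simp
  | ih2 x y hx hy =>
    rw [map_mul, hx, hy, Algebra.TensorProduct.tmul_mul_tmul, map_mul, ← Finset.prod_mul_distrib]
    simp only [mdeg_mul, Finsupp.add_apply, pow_add]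

end Multi

end Pool.Agent.TH880.AL
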