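import Pool.Agent.TH880.AL6

/-! The polarization maps and their composition with substitutions (helper880). -/

set_option autoImplicit false

namespace Pool.Agent.TH880.AL

open scoped TensorProduct

universe u

section Pol
variable {k : Type u} [Field k] {d : ℕ}

/-- the multidegree with all entries one -/
noncomputable def ones (d : ℕ) : Fin d →₀ ℕ := ∑ i : Fin d, Finsupp.single i 1

theorem ones_apply (i : Fin d) : ones d i = 1 := by
  rw [ones, Finsupp.finsetSum_apply, Finset.sum_eq_single i]
  · exact Finsupp.single_eq_same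
  · intro j _ hj; exact Finsupp.single_eq_of_ne (Ne.symm hj)
  · simp

/-- the content of a word -/
noncomputable def cont (w : Fin d → Fin d) : Fin d →₀ ℕ := ∑ i : Fin d, Finsupp.single (w i) 1

theorem cont_perm (σ : Equiv.Perm (Fin d)) : cont (⇑σ) = ones d := by
  rw [cont, ones]
  exact Equiv.sum_comp σ fun i => Finsupp.single i (1 : ℕ)

theorem cont_eq_ones_iff (w : Fin d → Fin d) : cont w = ones d ↔ Function.Bijective w := by
  constructor
  · intro h
    rw [← Finite.surjective_iff_bijective]
    intro j
    by_contra hne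
    push Not at hne
    have h1 : cont w j = 0 := by
      rw [cont, Finsupp.finsetSum_apply]
      apply Finset.sum_eq_zero
      intro i _
      exact Finsupp.single_eq_of_ne (Ne.symm (hne i))
    rw [h, ones_apply] at h1
    exact one_ne_zero h1
  · intro h
    exact cont_perm (Equiv.ofBijective w h)

/-- the generic elements used for polarization -/
noncomputable def yw (k : Type u) [Field k] (w : Fin d → Fin d) (i : Fin d) :
    Alt k d ⊗[k] MvPolynomial (Fin d) k :=
  ∑ j, if w j = i then cls (mono k (FreeMagma.of j)) ⊗ₜ[k] MvPolynomial.X j else 0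

/-- extraction of the multilinear coefficient -/
noncomputable def cf (k : Type u) [Field k] (d : ℕ) :
    Alt k d ⊗[k] MvPolynomial (Fin d) k →ₗ[k] Alt k d :=
  (TensorProduct.rid k (Alt k d)).toLinearMap ∘ₗ
    LinearMap.lTensor (Alt k d) (MvPolynomial.lcoeff k (ones d))

theorem cf_tmul (a : Alt k d) (p : MvPolynomial (Fin d) k) :
    cf k d (a ⊗ₜ[k] p) = MvPolynomial.coeff (ones d) p • a := by
  rw [cf, LinearMap.comp_apply, LinearMap.lTensor_tmul, LinearEquiv.coe_coe, TensorProduct.rid_tmul]
  rfl

variable [CharZero k]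

/-- the polarization map of a word -/
noncomputable def gw (k : Type u) [Field k] [CharZero k] (w : Fin d → Fin d) :
    Alt k d →ₗ[k] Alt k d :=
  cf k d ∘ₗ altL (tensor_alt (R := MvPolynomial (Fin d) k) alt_isAlternative) (yw k w)

theorem gw_fw (w : Fin d → Fin d) (m : FreeMagma (Fin d)) (h : ∀ i, mdeg m i = 1) :
    gw k w (fw w (cls (mono k m))) =
      ∑ σ : Equiv.Perm (Fin d), if w ∘ σ = w then fw σ (cls (mono k m)) else 0 := by
  rw [fw_mono, gw, LinearMap.comp_apply, altL_mono]
  have e1 : FreeMagma.lift (yw k w) (FreeMagma.map w m) =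
      mlin k (Alt k d ⊗[k] MvPolynomial (Fin d) k) m h (fun i => ∑ j,
        if w j = w i then cls (mono k (FreeMagma.of j)) ⊗ₜ[k] MvPolynomial.X j else 0) := by
    rw [mlin_apply]
    have : ∀ m : FreeMagma (Fin d), FreeMagma.lift (yw k w) (FreeMagma.map w m) =
        FreeMagma.lift (fun i => yw k w (w i)) m := by
      intro m
      induction m using FreeMagma.recOnMul with
      | ih1 i => rw [FreeMagma.lift_of, FreeMagma.map_of, FreeMagma.lift_of]
      | ih2 a b ha hb => rw [map_mul, map_mul, map_mul, ha, hb]
    rw [this]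
    rfl
  rw [e1, MultilinearMap.map_sum, map_sum]
  have e2 : ∀ r : Fin d → Fin d, cf k d (mlin k (Alt k d ⊗[k] MvPolynomial (Fin d) k) m h (fun i =>
        if w (r i) = w i then cls (mono k (FreeMagma.of (r i))) ⊗ₜ[k] MvPolynomial.X (r i) else 0)) =
      if w ∘ r = w ∧ Function.Bijective r then cls (mono k (FreeMagma.map r m)) else 0 := by
    intro r
    by_cases hr : w ∘ r = w
    · have hr' : ∀ i, w (r i) = w i := fun i => congrFun hr i
      have e3 : (fun i => if w (r i) = w i then
          cls (mono k (FreeMagma.of (r i))) ⊗ₜ[k] (MvPolynomial.X (r i) : MvPolynomial (Fin d) k)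
          else 0) = fun i => cls (mono k (FreeMagma.of (r i))) ⊗ₜ[k] MvPolynomial.X (r i) := by
        funext i; rw [if_pos (hr' i)]
      rw [e3, mlin_apply, lift_tmul, cf_tmul]
      have e4 : ∏ i, (MvPolynomial.X (r i) : MvPolynomial (Fin d) k) ^ mdeg m i =
          MvPolynomial.monomial (cont r) 1 := by
        simp only [h, pow_one, cont]
        rw [MvPolynomial.monomial_sum_one]
        rfl
      have e5 : FreeMagma.lift (fun i => cls (mono k (FreeMagma.of (r i)))) m =
          cls (mono k (FreeMagma.map r m)) := by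
        rw [← fw_mono, fw, altL_mono]
      rw [e4, e5, MvPolynomial.coeff_monomial]
      by_cases hb : Function.Bijective r
      · rw [if_pos ((cont_eq_ones_iff r).2 hb), if_pos ⟨hr, hb⟩, one_smul]
      · rw [if_neg (fun hh => hb ((cont_eq_ones_iff r).1 hh)), if_neg (fun hh => hb hh.2), zero_smul]
    · rw [if_neg (fun hh => hr hh.1)]
      obtain ⟨i, hi⟩ : ∃ i, w (r i) ≠ w i := by
        by_contra hh
        push Not at hh
        exact hr (funext hh)
      rw [MultilinearMap.map_coord_zero _ i (if_neg hi), map_zero]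
  rw [Finset.sum_congr rfl fun r _ => e2 r]
  symm
  apply Finset.sum_of_injOn (fun σ : Equiv.Perm (Fin d) => (σ : Fin d → Fin d))
  · intro σ _ τ _ hστ
    exact DFunLike.coe_injective hστ
  · intro σ _; simp
  · intro r _ hr
    rw [if_neg]
    rintro ⟨_, hb⟩
    exact hr ⟨Equiv.ofBijective r hb, by simp, rfl⟩
  · intro σ _
    by_cases hs : w ∘ σ = w
    · rw [if_pos hs, if_pos ⟨hs, σ.bijective⟩, fw_mono]
    · rw [if_neg hs, if_neg (fun hh => hs hh.1)]

end Pol

end Pool.Agent.TH880.AL
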