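import Pool.Agent.TH880.AL7

/-! Lifting monomials to multilinear ones (helper880). -/

set_option autoImplicit false

namespace Pool.Agent.TH880.AL

universe u

section Lift
variable {d : ℕ}

/-- the list of leaves of a monomial -/
def lv : FreeMagma (Fin d) → List (Fin d)
  | .of i => [i]
  | .mul a b => lv a ++ lv b

theorem lv_of (i : Fin d) : lv (FreeMagma.of i) = [i] := rfl

theorem lv_mul (a b : FreeMagma (Fin d)) : lv (a * b) = lv a ++ lv b := rfl

theorem mdeg_lv (m : FreeMagma (Fin d)) (i : Fin d) : mdeg m i = (lv m).count i := by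
  induction m using FreeMagma.recOnMul with
  | ih1 j =>
    rw [mdeg_of, lv_of, List.count_singleton, Finsupp.single_apply]
    simp
  | ih2 a b ha hb => rw [mdeg_mul, lv_mul, Finsupp.add_apply, List.count_append, ha, hb]

theorem relabel (w : Fin d → Fin d) (m : FreeMagma (Fin d)) :
    ∀ l : List (Fin d), l.map w = lv m → ∃ m0, lv m0 = l ∧ FreeMagma.map w m0 = m := by
  induction m using FreeMagma.recOnMul with
  | ih1 i =>
    intro l hl
    rw [lv_of] at hl
    obtain ⟨a, rfl⟩ : ∃ a, l = [a] := by
      have := congrArg List.length hl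
      rw [List.length_map, List.length_singleton] at this
      exact List.length_eq_one_iff.1 this
    refine ⟨FreeMagma.of a, rfl, ?_⟩
    rw [FreeMagma.map_of]
    simp only [List.map_cons, List.map_nil, List.cons.injEq, and_true] at hl
    rw [hl]
  | ih2 a b ha hb =>
    intro l hl
    rw [lv_mul, List.map_eq_append_iff] at hl
    obtain ⟨l1, l2, rfl, h1, h2⟩ := hl
    obtain ⟨m1, e1, f1⟩ := ha l1 h1
    obtain ⟨m2, e2, f2⟩ := hb l2 h2
    refine ⟨m1 * m2, ?_, ?_⟩
    · rw [lv_mul, e1, e2]
    · rw [map_mul, f1, f2]

theorem count_map_w (w : Fin d → Fin d) (l : List (Fin d)) (a : Fin d) :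
    (l.map w).count a = (l.map fun i => Finsupp.single (w i) 1 a).sum := by
  induction l with
  | nil => simp
  | cons i l ih =>
    rw [List.map_cons, List.count_cons, List.map_cons, List.sum_cons, ih, Finsupp.single_apply,
      add_comm]
    congr 1
    simp

theorem exists_lift (w : Fin d → Fin d) (m : FreeMagma (Fin d)) (h : mdeg m = cont w) :
    ∃ m0, mdeg m0 = ones d ∧ FreeMagma.map w m0 = m := by
  have hp : (lv m).Perm ((List.finRange d).map w) := by
    rw [List.perm_iff_count]
    intro a
    rw [← mdeg_lv, h, count_map_w, cont, Finsupp.finsetSum_apply, Fin.sum_univ_def]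
  have hf : List.Forall₂ (fun b a => w a = b) ((List.finRange d).map w) (List.finRange d) := by
    rw [List.forall₂_map_left_iff]
    exact List.forall₂_same.2 fun _ _ => rfl
  obtain ⟨l, hl1, hl2⟩ := List.perm_comp_forall₂ hp hf
  have hlm : l.map w = lv m := by
    have : List.Forall₂ (fun a b => w a = b) l (lv m) := by
      exact List.Forall₂.flip hl1
    rw [← List.forall₂_eq_eq_eq, List.forall₂_map_left_iff]
    exact this
  obtain ⟨m0, e1, e2⟩ := relabel w m l hlm
  refine ⟨m0, ?_, e2⟩
  ext i
  rw [mdeg_lv, e1, ones_apply, hl2.count_eq]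
  exact List.count_eq_one_of_mem (List.nodup_finRange d) (List.mem_finRange i)

/-- there are finitely many monomials of a given multidegree -/
theorem finite_mdeg (α : Fin d →₀ ℕ) : {m : FreeMagma (Fin d) | mdeg m = α}.Finite := by
  have key : ∀ n : ℕ, {m : FreeMagma (Fin d) | (lv m).length ≤ n}.Finite := by
    intro n
    induction n with
    | zero =>
      apply Set.Finite.subset Set.finite_empty
      intro m hm
      exfalso
      have : 1 ≤ (lv m).length := by
        clear hm
        induction m using FreeMagma.recOnMul with
        | ih1 i => simp [lv_of]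
        | ih2 a b ha hb => rw [lv_mul, List.length_append]; omega
      rw [Set.mem_ofPred_eq] at hm
      omega
    | succ n ih =>
      apply Set.Finite.subset ((Set.finite_range (FreeMagma.of : Fin d → FreeMagma (Fin d))).union
        (Set.Finite.image2 (fun a b => a * b) ih ih))
      intro m hm
      induction m using FreeMagma.recOnMul with
      | ih1 i => exact Or.inl ⟨i, rfl⟩
      | ih2 a b ha hb =>
        right
        have pos : ∀ m : FreeMagma (Fin d), 1 ≤ (lv m).length := by
          intro m
          induction m using FreeMagma.recOnMul with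
          | ih1 i => simp [lv_of]
          | ih2 a b ha hb => rw [lv_mul, List.length_append]; omega
        rw [Set.mem_ofPred_eq, lv_mul, List.length_append] at hm
        have p1 := pos a
        have p2 := pos b
        exact ⟨a, by rw [Set.mem_ofPred_eq]; omega, b, by rw [Set.mem_ofPred_eq]; omega, rfl⟩
  apply Set.Finite.subset (key (α.degree))
  intro m hm
  rw [Set.mem_ofPred_eq] at hm ⊢
  rw [← hm]
  clear hm
  induction m using FreeMagma.recOnMul with
  | ih1 i => rw [mdeg_of, Finsupp.degree_single]; simp [lv_of]
  | ih2 a b ha hb =>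
    rw [lv_mul, List.length_append, mdeg_mul, map_add]; omega

end Lift

end Pool.Agent.TH880.AL
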