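import Pool.Agent.TH880.AL8

/-! The trace formula for the dimensions of the weight spaces (helper880). -/

set_option autoImplicit false

namespace Pool.Agent.TH880.AL

universe u

section Tr
variable {k : Type u} [Field k] {d : ℕ}

instance altPart_finite (α : Fin d →₀ ℕ) : Module.Finite k (altPart k d α) := by
  apply FiniteDimensional.span_of_finite k
  apply Set.Finite.subset ((finite_mdeg α).image fun m => (cls (mono k m) : Alt k d))
  rintro y ⟨m, hm, rfl⟩
  exact ⟨m, hm, rfl⟩

theorem mdeg_map (w : Fin d → Fin d) (m : FreeMagma (Fin d)) :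
    mdeg (FreeMagma.map w m) = (mdeg m).mapDomain w := by
  induction m using FreeMagma.recOnMul with
  | ih1 i => rw [FreeMagma.map_of, mdeg_of, mdeg_of, Finsupp.mapDomain_single]
  | ih2 a b ha hb => rw [map_mul, mdeg_mul, mdeg_mul, Finsupp.mapDomain_add, ha, hb]

theorem mapDomain_ones (w : Fin d → Fin d) : (ones d).mapDomain w = cont w := by
  rw [ones, cont, Finsupp.mapDomain_finsetSum]
  simp only [Finsupp.mapDomain_single]

theorem fw_comp (w v : Fin d → Fin d) : (fw w : Alt k d →ₗ[k] Alt k d) ∘ₗ fw v = fw (w ∘ v) := by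
  apply hom_ext
  intro m
  rw [LinearMap.comp_apply, fw_mono, fw_mono, fw_mono]
  congr 2
  induction m using FreeMagma.recOnMul with
  | ih1 i => rfl
  | ih2 a b ha hb => rw [map_mul, map_mul, map_mul, ha, hb]

theorem fw_fw (w v : Fin d → Fin d) (y : Alt k d) : fw w (fw v y) = fw (w ∘ v) y := by
  rw [← fw_comp]; rfl

theorem fw_id : (fw id : Alt k d →ₗ[k] Alt k d) = LinearMap.id := by
  apply hom_ext
  intro m
  rw [fw_mono, LinearMap.id_apply]
  congr 2
  induction m using FreeMagma.recOnMul with
  | ih1 i => rfl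
  | ih2 a b ha hb => rw [map_mul, ha, hb]

theorem fw_altPart (w : Fin d → Fin d) (α : Fin d →₀ ℕ) (y : Alt k d) (hy : y ∈ altPart k d α) :
    fw w y ∈ altPart k d (α.mapDomain w) := by
  induction hy using Submodule.span_induction with
  | mem x hx =>
    obtain ⟨m, hm, rfl⟩ := hx
    rw [fw_mono]
    exact Submodule.subset_span ⟨_, by rw [mdeg_map, hm], rfl⟩
  | zero => rw [map_zero]; exact Submodule.zero_mem _
  | add x y _ _ hx hy => rw [map_add]; exact Submodule.add_mem _ hx hy
  | smul c x _ hx => rw [map_smul]; exact Submodule.smul_mem _ _ hx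

theorem fw_ones (w : Fin d → Fin d) (y : Alt k d) (hy : y ∈ altPart k d (ones d)) :
    fw w y ∈ altPart k d (cont w) := by
  have := fw_altPart w _ y hy
  rwa [mapDomain_ones] at this

theorem fw_perm_ones (σ : Equiv.Perm (Fin d)) (y : Alt k d) (hy : y ∈ altPart k d (ones d)) :
    fw σ y ∈ altPart k d (ones d) := by
  have := fw_ones σ y hy
  rwa [cont_perm] at this

/-- the action of a permutation on the multilinear part -/
noncomputable def rho (k : Type u) [Field k] {d : ℕ} (σ : Equiv.Perm (Fin d)) :
    altPart k d (ones d) →ₗ[k] altPart k d (ones d) :=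
  (fw σ).restrict (fw_perm_ones σ)

theorem rho_coe (σ : Equiv.Perm (Fin d)) (y : altPart k d (ones d)) :
    (rho k σ y : Alt k d) = fw σ (y : Alt k d) := rfl

variable [CharZero k]

theorem gw_fw' (w : Fin d → Fin d) (y : Alt k d) (hy : y ∈ altPart k d (ones d)) :
    gw k w (fw w y) = ∑ σ : Equiv.Perm (Fin d), if w ∘ σ = w then fw σ y else 0 := by
  induction hy using Submodule.span_induction with
  | mem x hx =>
    obtain ⟨m, hm, rfl⟩ := hx
    exact gw_fw w m fun i => by rw [hm, ones_apply]
  | zero => simp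
  | add x y _ _ hx hy =>
    rw [map_add, map_add, hx, hy, ← Finset.sum_add_distrib]
    apply Finset.sum_congr rfl
    intro σ _
    split_ifs
    · rw [map_add]
    · rw [add_zero]
  | smul c x _ hx =>
    rw [map_smul, map_smul, hx, Finset.smul_sum]
    apply Finset.sum_congr rfl
    intro σ _
    split_ifs
    · rw [map_smul]
    · rw [smul_zero]

omit [CharZero k] in
theorem altPart_eq_map (w : Fin d → Fin d) :
    altPart k d (cont w) = (altPart k d (ones d)).map (fw w) := by
  apply le_antisymm
  · rw [altPart, Submodule.span_le]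
    rintro y ⟨m, hm, rfl⟩
    obtain ⟨m0, h1, h2⟩ := exists_lift w m hm
    refine ⟨cls (mono k m0), Submodule.subset_span ⟨m0, h1, rfl⟩, ?_⟩
    rw [fw_mono, h2]
  · rintro y ⟨z, hz, rfl⟩
    exact fw_ones w z hz

theorem gw_cont (w : Fin d → Fin d) (y : Alt k d) (hy : y ∈ altPart k d (cont w)) :
    gw k w y ∈ altPart k d (ones d) := by
  rw [altPart_eq_map] at hy
  obtain ⟨z, hz, rfl⟩ := hy
  rw [gw_fw' w z hz]
  apply Submodule.sum_mem
  intro σ _
  split_ifs
  · exact fw_perm_ones σ z hz
  · exact Submodule.zero_mem _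

/-- the number of permutations fixing a word -/
noncomputable def stb (w : Fin d → Fin d) : ℕ := ∑ σ : Equiv.Perm (Fin d), if w ∘ σ = w then 1 else 0

theorem fw_gw (w : Fin d → Fin d) (y : Alt k d) (hy : y ∈ altPart k d (cont w)) :
    fw w (gw k w y) = (stb w : k) • y := by
  rw [altPart_eq_map] at hy
  obtain ⟨z, hz, rfl⟩ := hy
  rw [gw_fw' w z hz, map_sum, stb]
  push_cast
  rw [Finset.sum_smul]
  apply Finset.sum_congr rfl
  intro σ _
  split_ifs with h
  · rw [fw_fw, h, one_smul]
  · rw [map_zero, zero_smul]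

theorem trace_formula (w : Fin d → Fin d) :
    (stb w : k) * (Module.finrank k (altPart k d (cont w)) : k) =
      ∑ σ : Equiv.Perm (Fin d), if w ∘ σ = w then LinearMap.trace k _ (rho k σ) else 0 := by
  let F : altPart k d (ones d) →ₗ[k] altPart k d (cont w) := (fw w).restrict (fw_ones w)
  let G : altPart k d (cont w) →ₗ[k] altPart k d (ones d) := (gw k w).restrict (gw_cont w)
  have h1 : F ∘ₗ G = (stb w : k) • LinearMap.id := by
    ext y
    exact fw_gw (k := k) w (y : Alt k d) y.2
  have h2 : G ∘ₗ F = ∑ σ : Equiv.Perm (Fin d), if w ∘ σ = w then rho k σ else 0 := by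
    ext y
    rw [LinearMap.sum_apply, Submodule.coe_sum]
    change gw k w (fw w y) = _
    rw [gw_fw' (k := k) w (y : Alt k d) y.2]
    apply Finset.sum_congr rfl
    intro σ _
    split_ifs
    · rfl
    · rfl
  have h3 := LinearMap.trace_comp_comm' F G
  rw [h1, h2, map_smul, LinearMap.trace_id, map_sum, smul_eq_mul] at h3
  rw [← h3]
  apply Finset.sum_congr rfl
  intro σ _
  split_ifs
  · rfl
  · rw [map_zero]

end Tr

end Pool.Agent.TH880.AL
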