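import Mathlib

/-! Definitions for the character formula conjecture for free alternative algebras (helper880). -/

set_option autoImplicit false

namespace Pool.Agent.TH880.AL

open scoped TensorProduct

universe u

/-- The free (non-unital, non-associative) algebra over `k` on `d` generators, i.e. on a basis of a
`d`-dimensional vector space. Its basis consists of the elements of the free magma on `Fin d`. -/
abbrev FreeAlg (k : Type u) [Field k] (d : ℕ) : Type u := FreeNonUnitalNonAssocAlgebra k (Fin d)

/-- The nonassociative monomial `m` as an element of the free algebra. -/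
noncomputable def mono (k : Type u) [Field k] {d : ℕ} (m : FreeMagma (Fin d)) : FreeAlg k d :=
  MonoidAlgebra.single m 1

/-- The multidegree of a nonassociative monomial: how many times each generator occurs in it. -/
noncomputable def mdeg {d : ℕ} : FreeMagma (Fin d) → (Fin d →₀ ℕ)
  | .of i => Finsupp.single i 1
  | .mul a b => mdeg a + mdeg b

/-- `J` contains the two alternative laws and is closed under multiplication from both sides. -/
def IsAltIdeal (k : Type u) [Field k] (d : ℕ) (J : Submodule k (FreeAlg k d)) : Prop :=
  (∀ a b, a * a * b - a * (a * b) ∈ J) ∧ (∀ a b, a * b * b - a * (b * b) ∈ J) ∧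
    (∀ a, ∀ c ∈ J, a * c ∈ J) ∧ (∀ a, ∀ c ∈ J, c * a ∈ J)

/-- The ideal of the free algebra generated by the alternative laws. -/
noncomputable def altIdeal (k : Type u) [Field k] (d : ℕ) : Submodule k (FreeAlg k d) :=
  sInf {J | IsAltIdeal k d J}

/-- (The underlying vector space of) the free non-unital alternative algebra on `d` generators. -/
abbrev Alt (k : Type u) [Field k] (d : ℕ) : Type u := FreeAlg k d ⧸ altIdeal k d

/-- The class in the free alternative algebra of an element of the free algebra. -/
noncomputable def cls {k : Type u} [Field k] {d : ℕ} (a : FreeAlg k d) : Alt k d :=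
  (altIdeal k d).mkQ a

/-- The component of the free alternative algebra of multidegree `α`, i.e. the weight space of
weight `α` for the group of diagonal matrices. -/
noncomputable def altPart (k : Type u) [Field k] (d : ℕ) (α : Fin d →₀ ℕ) : Submodule k (Alt k d) :=
  Submodule.span k {y | ∃ m : FreeMagma (Fin d), mdeg m = α ∧ y = cls (mono k m)}

/-- The dimension of the component of multidegree `α` of the free alternative algebra. -/
noncomputable def altDim (k : Type u) [Field k] (d : ℕ) (α : Fin d →₀ ℕ) : ℕ :=
  Module.finrank k (altPart k d α)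

/-- The relations of `𝓑(A)` for the free alternative algebra `A`, in the tensor square of `A`. -/
noncomputable def bRel (k : Type u) [Field k] (d : ℕ) : Submodule k (Alt k d ⊗[k] Alt k d) :=
  Submodule.span k ({z | ∃ x : Alt k d, z = x ⊗ₜ[k] x} ∪
    {z | ∃ a b c : FreeAlg k d, z = cls (a * b) ⊗ₜ[k] cls c + cls (b * c) ⊗ₜ[k] cls a +
      cls (c * a) ⊗ₜ[k] cls b})

/-- The space `𝓑(A)` for the free alternative algebra `A` on `d` generators. -/
abbrev BSpace (k : Type u) [Field k] (d : ℕ) : Type u := (Alt k d ⊗[k] Alt k d) ⧸ bRel k d

/-- The component of multidegree `α` of `𝓑(A)`. -/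
noncomputable def bPart (k : Type u) [Field k] (d : ℕ) (α : Fin d →₀ ℕ) : Submodule k (BSpace k d) :=
  Submodule.span k {y | ∃ m m' : FreeMagma (Fin d), mdeg m + mdeg m' = α ∧
    y = (bRel k d).mkQ (cls (mono k m) ⊗ₜ[k] cls (mono k m'))}

/-- The dimension of the component of multidegree `α` of `𝓑(A)`. -/
noncomputable def bDim (k : Type u) [Field k] (d : ℕ) (α : Fin d →₀ ℕ) : ℕ :=
  Module.finrank k (bPart k d α)

/-- The ring of (virtual) characters of the torus of `PSL₃`: the integral group ring of the root
lattice, where `(x, y)` stands for the weight `x α₁ + y α₂`. -/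
abbrev CharRing : Type := AddMonoidAlgebra ℤ (ℤ × ℤ)

/-- The character `e^w`. -/
noncomputable def ew (w : ℤ × ℤ) : CharRing := AddMonoidAlgebra.single w 1

/-- The weights of the adjoint representation of `PSL₃`: the six roots, and `0` twice. -/
def adjWeights : List (ℤ × ℤ) := [(1, 0), (0, 1), (1, 1), (-1, 0), (0, -1), (-1, -1), (0, 0), (0, 0)]

/-- The Weyl denominator, the product of `1 - e^{-γ}` over the positive roots `γ`. -/
noncomputable def weylDenom : CharRing := (1 - ew (-1, 0)) * (1 - ew (0, -1)) * (1 - ew (-1, -1))

/-- The multiplicity of the irreducible module with highest weight `w` in the (virtual) character `f`: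
the coefficient of `e^w` in `f` times the Weyl denominator. -/
noncomputable def mult (w : ℤ × ℤ) (f : CharRing) : ℤ := (f * weylDenom).coeff w

/-- The character of `λ([A] [L(α₁+α₂)] + [𝓑] [L(0)])` up to degree `N`, for functions `a`, `b` which
give the multiplicities of the weights of `A` and `𝓑`: the product over the nonzero multidegrees `β`
of total degree at most `N` of `(1 - x^β)^{b β}` and of `(1 - x^β e^w)^{a β}`, where `w` runs
over the weights of the adjoint representation. -/
noncomputable def lamChar (d N : ℕ) (a b : (Fin d →₀ ℕ) → ℕ) : MvPolynomial (Fin d) CharRing :=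
  ∏ n ∈ Finset.Icc 1 N, ∏ β ∈ (Finset.univ : Finset (Fin d)).finsuppAntidiag n,
    (1 - MvPolynomial.monomial β 1) ^ b β *
      (adjWeights.map fun w => (1 - MvPolynomial.monomial β (ew w)) ^ a β).prod

/-- The two equations defining `a(V)` and `b(V)`, for `dim V = d`. -/
def CharacterEquations (d : ℕ) (a b : (Fin d →₀ ℕ) → ℕ) : Prop :=
  ∀ (N : ℕ) (α : Fin d →₀ ℕ), α.degree ≤ N →
    mult (0, 0) (MvPolynomial.coeff α (lamChar d N a b)) = (if α = 0 then 1 else 0) ∧
    mult (1, 1) (MvPolynomial.coeff α (lamChar d N a b)) = -(if α.degree = 1 then 1 else 0)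

end Pool.Agent.TH880.AL
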